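import Pool.Agent.Lib.CMT.B.Ball

/-!
# PROJECT CMT, part B: the complex structure at the indefinite place

`Wz κ h z v = κ (H v + H zh (zh, v) / s2 + H zh (zh, conj v) / s2)`; for `v = x + w y` with
`x, y` real, `conj w = - w`, `κ w = - a` this is `Zm x - a H y`,
`Zm = κ (H + 2 (H zh) (H zh)^T / s2)`, `s2 = -(zh, zh)`.  In the natural coordinates
`Wz v = Nm (pz v)`, and `Wz (act g z) (g v) = NNm g z (Wz z v)`.
-/

set_option autoImplicit false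

namespace CMT.B

open Matrix ComplexConjugate

noncomputable section

/-- The bilinear form. -/
def bil (h : Fin 3 → ℝ) (v w : Fin 3 → ℂ) : ℂ := ∑ i, (h i : ℂ) * v i * w i

/-- `- (zh, zh)`. -/
def s2 (h : Fin 3 → ℝ) (z : ℂ × ℂ) : ℂ := - (h 0 * z.1 ^ 2 + h 1 * z.2 ^ 2 + h 2)

/-- The matrix `diag (M, 1 / j)`. -/
def Rm (g : Matrix (Fin 3) (Fin 3) ℂ) (z : ℂ × ℂ) : Matrix (Fin 3) (Fin 3) ℂ :=
  !![MM g z 0 0, MM g z 0 1, 0; MM g z 1 0, MM g z 1 1, 0; 0, 0, (jj g z)⁻¹]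

/-- The matrix `Z` at the indefinite place. -/
def Zm (κ : ℂ) (h : Fin 3 → ℝ) (z : ℂ × ℂ) : Matrix (Fin 3) (Fin 3) ℂ :=
  Matrix.of fun i l => κ * ((if i = l then (h i : ℂ) else 0)
    + 2 * (h i * zh z i) * (h l * zh z l) / s2 h z)

/-- The complex coordinates. -/
def Wz (κ : ℂ) (h : Fin 3 → ℝ) (z : ℂ × ℂ) (v : Fin 3 → ℂ) : Fin 3 → ℂ :=
  fun i => κ * (h i * v i + h i * zh z i * bil h (zh z) v / s2 h z
    + h i * zh z i * bil h (zh z) (fun l => conj (v l)) / s2 h z)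

/-- The matrix `N_z`, in terms of the natural coordinates. -/
def Nm (κ : ℂ) (h : Fin 3 → ℝ) (z : ℂ × ℂ) : Matrix (Fin 3) (Fin 3) ℂ :=
  Matrix.of fun i l => κ * ![(if i = 0 then (h 0 : ℂ) else 0) + h 0 * z.1 * (h i * zh z i) / s2 h z,
    (if i = 1 then (h 1 : ℂ) else 0) + h 1 * z.2 * (h i * zh z i) / s2 h z,
    h i * zh z i / s2 h z] l

theorem s2_re_pos {h : Fin 3 → ℝ} (h0 : 0 < h 0) (h1 : 0 < h 1) {z : ℂ × ℂ}
    (hz : z ∈ ball h) : 0 < (s2 h z).re := by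
  have h4 : 0 < -(h 0 * ‖z.1‖ ^ 2 + h 1 * ‖z.2‖ ^ 2 + h 2) := hz
  have e0 : (z.1 ^ 2).re ≤ ‖z.1‖ ^ 2 := by
    rw [← norm_pow]; exact Complex.re_le_norm _
  have e1 : (z.2 ^ 2).re ≤ ‖z.2‖ ^ 2 := by
    rw [← norm_pow]; exact Complex.re_le_norm _
  have e2 : (s2 h z).re = - (h 0 * (z.1 ^ 2).re + h 1 * (z.2 ^ 2).re + h 2) := by
    rw [s2, Complex.neg_re, Complex.add_re, Complex.add_re, Complex.re_ofReal_mul,
      Complex.re_ofReal_mul, Complex.ofReal_re]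
  rw [e2]
  nlinarith [mul_le_mul_of_nonneg_left e0 h0.le, mul_le_mul_of_nonneg_left e1 h1.le]

theorem s2_ne_zero {h : Fin 3 → ℝ} (h0 : 0 < h 0) (h1 : 0 < h 1) {z : ℂ × ℂ}
    (hz : z ∈ ball h) : s2 h z ≠ 0 := by
  intro hs
  have := s2_re_pos h0 h1 hz
  rw [hs] at this
  simp at this

/-- `W (x + w y) = Z x - a H y` if `κ * w = - a`, `conj w = - w`. -/
theorem Wz_real {κ w : ℂ} {a : ℝ} (hw : conj w = - w) (hκ : κ * w = - a) (h : Fin 3 → ℝ)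
    (z : ℂ × ℂ) (x y : Fin 3 → ℝ) :
    Wz κ h z (fun i => (x i : ℂ) + w * y i)
      = fun i => (Zm κ h z *ᵥ (fun l => (x l : ℂ))) i - a * (h i * y i) := by
  have e1 : bil h (zh z) (fun i => (x i : ℂ) + w * y i)
      + bil h (zh z) (fun i => conj ((x i : ℂ) + w * y i))
      = 2 * bil h (zh z) (fun i => (x i : ℂ)) := by
    simp only [bil, ← Finset.sum_add_distrib, Finset.mul_sum]
    refine Finset.sum_congr rfl fun i _ => ?_
    rw [map_add, map_mul, hw, Complex.conj_ofReal, Complex.conj_ofReal]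
    ring
  funext i
  have e2 : (Zm κ h z *ᵥ (fun l => (x l : ℂ))) i
      = κ * (h i * x i + h i * zh z i * (2 * bil h (zh z) (fun i => (x i : ℂ))) / s2 h z) := by
    simp only [Matrix.mulVec, dotProduct, Zm, Matrix.of_apply, bil]
    have : ∀ l, κ * ((if i = l then (h i : ℂ) else 0)
        + 2 * (h i * zh z i) * (h l * zh z l) / s2 h z) * (x l : ℂ)
        = (if i = l then κ * (h i * x i) else 0)
          + κ * (h i * zh z i) / s2 h z * 2 * (h l * zh z l * x l) := by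
      intro l
      split_ifs with hil
      · subst hil; ring
      · ring
    rw [Finset.sum_congr rfl fun l _ => this l, Finset.sum_add_distrib, Finset.sum_ite_eq,
      ← Finset.mul_sum]
    simp only [Finset.mem_univ, if_true]
    ring
  rw [e2, ← e1]
  simp only [Wz]
  linear_combination (h i * y i : ℂ) * hκ

/-- `W v = N_z (p_z v)`. -/
theorem Wz_eq (κ : ℂ) (h : Fin 3 → ℝ) {z : ℂ × ℂ} (hs : s2 h z ≠ 0) (v : Fin 3 → ℂ) :
    Wz κ h z v = Nm κ h z *ᵥ pz h z v := by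
  have hs' : s2 h z = - (h 0 * z.1 ^ 2 + h 1 * z.2 ^ 2 + h 2) := rfl
  have hb : bil h (zh z) v = h 0 * z.1 * v 0 + h 1 * z.2 * v 1 + h 2 * v 2 := by
    simp [bil, zh, Fin.sum_univ_three]
  have hb' : bil h (zh z) (fun l => conj (v l)) = ∑ i, (h i : ℂ) * zh z i * conj (v i) := rfl
  funext i
  simp only [Wz, hb, hb', Matrix.mulVec, dotProduct, Fin.sum_univ_three, Nm, Matrix.of_apply, pz]
  generalize (h 0 : ℂ) * zh z 0 * conj (v 0) + (h 1 : ℂ) * zh z 1 * conj (v 1)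
    + (h 2 : ℂ) * zh z 2 * conj (v 2) = t
  fin_cases i
  · simp [zh]
    field_simp
    rw [hs']
    ring
  · simp [zh]
    field_simp
    rw [hs']
    ring
  · simp [zh]
    field_simp
    rw [hs']
    ring

theorem det_Nm (κ : ℂ) (h : Fin 3 → ℝ) {z : ℂ × ℂ} (hs : s2 h z ≠ 0) :
    (Nm κ h z).det = κ ^ 3 * (h 0 * h 1 * h 2) / s2 h z := by
  rw [Matrix.det_fin_three]
  simp [Nm, zh]
  field_simp
  ring

theorem det_Rm {g : Matrix (Fin 3) (Fin 3) ℂ} {z : ℂ × ℂ} (hj : jj g z ≠ 0) :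
    (Rm g z).det = g.det / jj g z ^ 2 := by
  rw [← det_MM hj, Matrix.det_fin_two]
  simp only [Rm, Matrix.det_fin_three]
  simp
  field_simp

theorem pz_act_Rm {h : Fin 3 → ℝ} {g : Matrix (Fin 3) (Fin 3) ℂ} (hg : IsU h g) {z : ℂ × ℂ}
    (hj : jj g z ≠ 0) (v : Fin 3 → ℂ) :
    pz h (act g z) (g *ᵥ v) = Rm g z *ᵥ pz h z v := by
  rw [pz_act hg hj]
  funext i
  fin_cases i <;> simp [Rm, Matrix.mulVec, dotProduct, Fin.sum_univ_three]

/-- The matrix which carries the coordinates at `z` to those at `g z`. -/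
def NNm (κ : ℂ) (h : Fin 3 → ℝ) (g : Matrix (Fin 3) (Fin 3) ℂ) (z : ℂ × ℂ) :
    Matrix (Fin 3) (Fin 3) ℂ := Nm κ h (act g z) * Rm g z * (Nm κ h z)⁻¹

theorem NNm_mul {κ : ℂ} (hκ : κ ≠ 0) {h : Fin 3 → ℝ} (hh : (h 0 * h 1 * h 2 : ℝ) ≠ 0)
    (g : Matrix (Fin 3) (Fin 3) ℂ) {z : ℂ × ℂ} (hs : s2 h z ≠ 0) :
    NNm κ h g z * Nm κ h z = Nm κ h (act g z) * Rm g z := by
  have hu : IsUnit (Nm κ h z).det := by
    rw [det_Nm κ h hs, isUnit_iff_ne_zero]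
    have : ((h 0 * h 1 * h 2 : ℝ) : ℂ) ≠ 0 := by exact_mod_cast hh
    push_cast at this
    exact div_ne_zero (mul_ne_zero (pow_ne_zero _ hκ) this) hs
  rw [NNm, Matrix.mul_assoc, Matrix.nonsing_inv_mul _ hu, Matrix.mul_one]

/-- The relation at the indefinite place. -/
theorem Wz_act {κ : ℂ} (hκ : κ ≠ 0) {h : Fin 3 → ℝ} (h0 : 0 < h 0) (h1 : 0 < h 1) (h2 : h 2 < 0)
    {g : Matrix (Fin 3) (Fin 3) ℂ} (hg : IsU h g) {z : ℂ × ℂ} (hz : z ∈ ball h)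
    (v : Fin 3 → ℂ) :
    Wz κ h (act g z) (g *ᵥ v) = NNm κ h g z *ᵥ Wz κ h z v := by
  have hs := s2_ne_zero h0 h1 hz
  have hs' := s2_ne_zero h0 h1 (act_mem h0 h1 hg hz)
  have hh : (h 0 * h 1 * h 2 : ℝ) ≠ 0 := (mul_neg_of_pos_of_neg (mul_pos h0 h1) h2).ne
  rw [Wz_eq κ h hs', Wz_eq κ h hs, pz_act_Rm hg (jj_ne_zero h0 h1 hg hz), Matrix.mulVec_mulVec,
    Matrix.mulVec_mulVec, NNm_mul hκ hh g hs]

theorem det_NNm {κ : ℂ} (hκ : κ ≠ 0) {h : Fin 3 → ℝ} (h0 : 0 < h 0) (h1 : 0 < h 1)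
    (h2 : h 2 < 0) {g : Matrix (Fin 3) (Fin 3) ℂ} (hg : IsU h g) (hd : g.det = 1)
    {z : ℂ × ℂ} (hz : z ∈ ball h) :
    (NNm κ h g z).det * (jj g z ^ 2 * s2 h (act g z)) = s2 h z := by
  have hs := s2_ne_zero h0 h1 hz
  have hs' := s2_ne_zero h0 h1 (act_mem h0 h1 hg hz)
  have hj := jj_ne_zero h0 h1 hg hz
  have hh : (h 0 * h 1 * h 2 : ℝ) ≠ 0 := (mul_neg_of_pos_of_neg (mul_pos h0 h1) h2).ne
  have hh' : (h 0 * h 1 * h 2 : ℂ) ≠ 0 := by exact_mod_cast hh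
  have e := congrArg Matrix.det (NNm_mul hκ hh g hs)
  rw [Matrix.det_mul, Matrix.det_mul, det_Nm κ h hs, det_Nm κ h hs', det_Rm hj, hd] at e
  field_simp at e
  generalize (NNm κ h g z).det = d at e ⊢
  generalize s2 h (act g z) = t at e ⊢
  generalize s2 h z = u at e ⊢
  generalize jj g z = j at e ⊢
  apply mul_left_cancel₀ hh'
  linear_combination e

end

end CMT.B
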