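import Pool.Agent.Lib.CMT.B.Br
import Pool.Agent.Lib.CMT.B.W
import Pool.Agent.Lib.CMT.Iface

/-!
# PROJECT CMT, part B (geometry for I3): definitions and statements

`J = Jx F` the index type of the integral basis `e_j`, `ι = Fin 3 × J`.  Rational symplectic
coordinates of `(x, y)`, `x, y ∈ F³` (the vector `v = x + δ y` of `K³`):
`cX x (i,j)` = the `j`-th coordinate of `x i`, `cY D a y (i,j) = - Tr (e_j a h_i y_i)`,
`h = (1, 1, -β)`.  At a place `t`: `Σ_j t(e_j) cX x (i,j) = t (x i)`,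
`cY D a y (i,j) = Σ_t t(e_j) (- t(a) t(h_i) t(y i))`.
`Ew w (i,j) = Σ_t t(e_j) w_t i` (`w_t ∈ ℂ³`), `Zb Zt = Σ_t t(e_j) Zt_t t(e_k)`.
-/

set_option autoImplicit false

open scoped BigOperators ComplexConjugate
open Matrix NumberField

noncomputable section

namespace CMT.B

/-- The index type of the integral basis. -/
abbrev Jx (F : Type) [Field F] [NumberField F] : Type := Module.Free.ChooseBasisIndex ℤ (𝓞 F)

instance (F : Type) [Field F] [NumberField F] : DecidableEq (Jx F) := Classical.decEq _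

/-- The index type of the symplectic coordinates. -/
abbrev Ix (F : Type) [Field F] [NumberField F] : Type := Fin 3 × Jx F

variable {F : Type} [Field F] [NumberField F]

/-- The integral basis. -/
def eb (F : Type) [Field F] [NumberField F] : Module.Basis (Jx F) ℚ F := integralBasis F

/-- The diagonal entries of the hermitian form in `F`. -/
def hF (D : Dat F) : Fin 3 → F := ![1, 1, -D.bet]

/-- The diagonal entries of the hermitian form at the place `t`. -/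
def ht (D : Dat F) (t : F →+* ℝ) : Fin 3 → ℝ := ![1, 1, -(t D.bet)]

/-- First half of the rational symplectic coordinates. -/
def cX (x : Fin 3 → F) : Ix F → ℚ := fun p => (eb F).repr (x p.1) p.2

/-- Second half of the rational symplectic coordinates. -/
def cY (D : Dat F) (a : F) (y : Fin 3 → F) : Ix F → ℚ :=
  fun p => - Algebra.trace ℚ F (eb F p.2 * (a * hF D p.1 * y p.1))

/-- `A` of `g = A + δ B`. -/
def gA (D : Dat F) (g : SG D) : Matrix (Fin 3) (Fin 3) F := g.1.map QuadraticAlgebra.re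

/-- `B` of `g = A + δ B`. -/
def gB (D : Dat F) (g : SG D) : Matrix (Fin 3) (Fin 3) F := g.1.map QuadraticAlgebra.im

/-- First component of `g (x + δ y)`. -/
def gx (D : Dat F) (g : SG D) (x y : Fin 3 → F) : Fin 3 → F :=
  gA D g *ᵥ x - D.del • (gB D g *ᵥ y)

/-- Second component of `g (x + δ y)`. -/
def gy (D : Dat F) (g : SG D) (x y : Fin 3 → F) : Fin 3 → F :=
  gB D g *ᵥ x + gA D g *ᵥ y

/-- `Σ_t t(e_j) w_t i`. -/
def Ew (w : (F →+* ℝ) → Fin 3 → ℂ) : Ix F → ℂ :=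
  fun p => ∑ t : F →+* ℝ, ((t (eb F p.2) : ℝ) : ℂ) * w t p.1

/-- `Σ_t t(e_j) Zt_t t(e_k)`. -/
def Zb (Zt : (F →+* ℝ) → Matrix (Fin 3) (Fin 3) ℂ) : Matrix (Ix F) (Ix F) ℂ :=
  Matrix.of fun p q => ∑ t : F →+* ℝ, ((t (eb F p.2) : ℝ) : ℂ) * Zt t p.1 q.1 *
    ((t (eb F q.2) : ℝ) : ℂ)

/-- `i √(t Δ)`. -/
def wt (D : Dat F) (t : F →+* ℝ) : ℂ := Complex.I * ((Real.sqrt (t D.del) : ℝ) : ℂ)

/-- `κ = i t0(a) / √(t0 Δ)` (so that `κ * wt = - t0 a`). -/
def ka (D : Dat F) (a : F) : ℂ :=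
  Complex.I * ((D.t0 a / Real.sqrt (D.t0 D.del) : ℝ) : ℂ)

/-- The local matrices `Z_t`: at `t0` the matrix `Zm` of the point `z`, at the other places
`i |t a| / √(t Δ) H_t`. -/
def Zt (D : Dat F) (a : F) (z : ℂ × ℂ) (t : F →+* ℝ) : Matrix (Fin 3) (Fin 3) ℂ :=
  if t = D.t0 then Zm (ka D a) (hh D) z
  else diagonal fun i => Complex.I * ((|t a| / Real.sqrt (t D.del) * ht D t i : ℝ) : ℂ)

/-- The matrix `Z(z)` of genus `3 d`. -/
def ZZ (D : Dat F) (a : F) (z : ℂ × ℂ) : Matrix (Ix F) (Ix F) ℂ := Zb (Zt D a z)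

/-- The local matrices which carry the coordinates at `z` to those at `g z`. -/
def NNt (D : Dat F) (a : F) (g : SG D) (z : ℂ × ℂ) (t : F →+* ℝ) : Matrix (Fin 3) (Fin 3) ℂ :=
  if t = D.t0 then NNm (ka D a) (hh D) (mt D D.t0 g) z
  else if 0 < t a then
    Matrix.of fun i l => (ht D t i : ℂ) * mt D t g i l * ((ht D t l)⁻¹ : ℝ)
  else Matrix.of fun i l => (ht D t i : ℂ) * conj (mt D t g i l) * ((ht D t l)⁻¹ : ℝ)

/-- `W_t (x,y) = Z_t x - a H y`. -/
def Wt (D : Dat F) (a : F) (z : ℂ × ℂ) (x y : Fin 3 → F) (t : F →+* ℝ) : Fin 3 → ℂ :=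
  fun i => (Zt D a z t *ᵥ fun l => ((t (x l) : ℝ) : ℂ)) i
    - ((t a * (ht D t i * t (y i)) : ℝ) : ℂ)

/-! ## Statements -/

/-- **S_Loc** (every place).
Proof.  Put `v i = t(x i) + wt D t * t(y i) = ev D t ⟨x i, y i⟩`; since `ev D t` is a ring
homomorphism, `mt D t g *ᵥ v` is the vector of `(gx, gy)` (`gx + δ gy = g (x + δ y)`).
At `t = t0`: `Wt = Wz (ka D a) (hh D) z v` by `Wz_real` (with `w = wt D D.t0`,
`ka * wt = - t0 a` because `√Δ ≠ 0` and `I * I = -1`), then `Wz_act` (`hh D = ht D D.t0`,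
`mt_t0_isU`, `Ball_eq`, `act_eq`).
At `t ≠ t0`, `t a > 0`: `Wt i = (I t a / √(tΔ)) * ht i * v i` (as `- a = (I a/√Δ) (I √Δ)`), so both
sides are `(I t a/√(tΔ)) ht i (mt D t g *ᵥ v) i` (`ht l ≠ 0`: `1, 1, - t β > 0` by `bet_neg`).
At `t ≠ t0`, `t a < 0`: `|t a| = - t a`, `Wt i = (- I t a/√(tΔ)) * ht i * conj (v i)`, and
`conj ((mt D t g *ᵥ v) i) = Σ conj (mt D t g i l) conj (v l)`. (`t a ≠ 0` because `a ≠ 0`.) -/
def S_Loc : Prop :=
  ∀ (F : Type) [Field F] [NumberField F] (D : Dat F) (a : F), 0 < D.t0 a →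
    ∀ (g : SG D), IsIso D g → ∀ z ∈ Ball D, ∀ (x y : Fin 3 → F) (t : F →+* ℝ),
      Wt D a (CMT.act D g z) (gx D g x y) (gy D g x y) t = NNt D a g z t *ᵥ Wt D a z x y t

/-- **S_Det**: the determinants of the local matrices.
Proof.  At `t0` it is `det_NNm` (`s2 (hh D) z = mm (D.t0 D.bet) z`, `jj = num 2`); at `t ≠ t0` the
matrix is `diag(ht) * M * diag(ht)⁻¹` with `M = mt D t g` or its complex conjugate, and
`det (mt D t g) = 1` (`mt_det`), so the determinant is `1`.  Product over `t`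
(`Finset.prod_eq_single D.t0`). -/
def S_Det : Prop :=
  ∀ (F : Type) [Field F] [NumberField F] (D : Dat F) (a : F), 0 < D.t0 a →
    ∀ (g : SG D), IsIso D g → ∀ z ∈ Ball D,
      (∏ t : F →+* ℝ, (NNt D a g z t).det) *
        (num D g z 2 ^ 2 * mm (D.t0 D.bet) (CMT.act D g z)) = mm (D.t0 D.bet) z

/-- **S_Tr**: the trace is the sum over the real embeddings (totally real).
Proof.  `trace_eq_sum_embeddings ℂ` (Mathlib): `algebraMap ℚ ℂ (trace x) = ∑ σ : F →ₐ[ℚ] ℂ, σ x`;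
every `σ : F →+* ℂ` is real (`IsTotallyReal.complexEmbedding_isReal`), i.e. `σ = ofRealHom.comp t`
for a unique `t : F →+* ℝ` (`ComplexEmbedding.IsReal.embedding`): reindex the sum
(`Fintype.sum_equiv` / `Fintype.sum_bijective`), then injectivity of `ℝ → ℂ`. -/
def S_Tr : Prop :=
  ∀ (F : Type) [Field F] [NumberField F] [IsTotallyReal F] (x : F),
    ((Algebra.trace ℚ F x : ℚ) : ℝ) = ∑ t : F →+* ℝ, t x

/-- **S_EX** (uses `S_Tr`): `Zb` applied to the coordinates of `x`, plus those of `y`, is `Ew` of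
the local vectors.
Proof.  `Σ_j (cX x (i,j)) t(e_j) = t (x i)` (apply `t` to `Basis.sum_repr`; `t` is `ℚ`-linear:
`map_ratCast`).  So `(Zb Zt *ᵥ cX x) (i,j) = Σ_t t(e_j) Σ_l Zt_t i l t(x l)` (exchange the sums,
`Fintype.sum_prod_type`), and by `S_Tr`
`cY D a y (i,j) = - Σ_t t(e_j) t(a) t(h_i) t(y i)`, `t (hF D i) = ht D t i`. -/
def S_EX : Prop :=
  ∀ (F : Type) [Field F] [NumberField F] [IsTotallyReal F] (D : Dat F) (a : F) (z : ℂ × ℂ)
    (x y : Fin 3 → F),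
    (fun p => (Zb (Zt D a z) *ᵥ fun q => ((cX x q : ℚ) : ℂ)) p + ((cY D a y p : ℚ) : ℂ))
      = Ew (Wt D a z x y)

/-- **S_Card**: the number of embeddings is the degree (totally real), and the vectors
`(t x)_t`, `x ∈ F`, are `ℂ`-linearly independent in `t`.
Proof.  `|F →+* ℝ| = |F →+* ℂ| = finrank` (every complex embedding is real;
`NumberField.Embeddings.card F ℂ`), `|J| = finrank` (`integralBasis`,
`Module.finrank_eq_card_basis`).  Independence: `linearIndependent_monoidHom F ℂ` for the maps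
`x ↦ (t x : ℂ)` (pairwise different); a relation on the basis vectors `e_j` extends to all
`x = Σ q_j e_j` because the `t` are `ℚ`-linear. -/
def S_Card : Prop :=
  ∀ (F : Type) [Field F] [NumberField F] [IsTotallyReal F],
    Fintype.card (F →+* ℝ) = Fintype.card (Jx F) ∧
    ∀ c : (F →+* ℝ) → ℂ, (∀ j, ∑ t : F →+* ℝ, ((t (eb F j) : ℝ) : ℂ) * c t = 0) → c = 0

/-- **S_Ew** (uses `S_Card`): the block diagonal matrix `(N_t)` is transported by `Ew` to a matrix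
of genus `3 d` with the same determinant.
Proof.  `Ew` is `ℂ`-linear and injective (`S_Card`, for each `i : Fin 3`), and both sides
(`(F →+* ℝ) → Fin 3 → ℂ` and `Ix F → ℂ`) have the same dimension, so it is a linear equivalence
`e` (`LinearEquiv.ofInjectiveOfFinrankEq` or `LinearMap.linearEquivOfInjective`).
`NN := toMatrix' (e ∘ L ∘ e⁻¹)`, `L w t = N t *ᵥ w t`; `det NN = LinearMap.det L`
(`LinearMap.det_conj`), and `LinearMap.det L = ∏ det (N t)`: e.g. `L` in the basis indexed by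
`Σ`/product `(F →+* ℝ) × Fin 3` is `Matrix.blockDiagonal N` (`Matrix.det_blockDiagonal`,
`Pi.basisFun`, `LinearEquiv.curry`); or `LinearMap.det_pi`-like lemma if Mathlib has one. -/
def S_Ew : Prop :=
  ∀ (F : Type) [Field F] [NumberField F] [IsTotallyReal F]
    (N : (F →+* ℝ) → Matrix (Fin 3) (Fin 3) ℂ),
    ∃ NN : Matrix (Ix F) (Ix F) ℂ, (∀ w, NN *ᵥ Ew w = Ew fun t => N t *ᵥ w t) ∧
      NN.det = ∏ t : F →+* ℝ, (N t).det

/-- **S_cXY**: the coordinates are bijective onto the rational vectors.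
Proof.  `x i = Σ_j X (i,j) e_j`.  For `Y`: `hF D i ≠ 0` (`t0 β > 0`), the trace form is
nondegenerate (`traceForm_nondegenerate ℚ F`): for every `c : Jx F → ℚ` there is `u ∈ F` with
`trace (e_j u) = c j` for all `j` (the map `u ↦ (trace (e_j u))_j` is linear, injective, and the
dimensions agree); `y i = - u_i / (a h_i)` with `c j = Y (i,j)`. -/
def S_cXY : Prop :=
  ∀ (F : Type) [Field F] [NumberField F] (D : Dat F) (a : F), a ≠ 0 →
    (∀ X : Ix F → ℚ, ∃ x, cX x = X) ∧ ∀ Y : Ix F → ℚ, ∃ y, cY D a y = Y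

/-- **S_Lat** (helper91): for `g` in a deep congruence subgroup the action in the coordinates is
given by an integral symplectic matrix, congruent to `1` modulo `M`. -/
def S_Lat : Prop :=
  ∀ (F : Type) [Field F] [NumberField F] (D : Dat F) (a : F), a ≠ 0 → ∀ M : ℕ, 0 < M →
    ∃ n : ℕ, 0 < n ∧ ∀ g ∈ Gam D n, ∃ al be ga de : Matrix (Ix F) (Ix F) ℤ,
      fromBlocks al be ga de ∈ symplecticGroup (Ix F) ℤ ∧
      (∃ G : Matrix (Ix F ⊕ Ix F) (Ix F ⊕ Ix F) ℤ, fromBlocks al be ga de = 1 + (M : ℤ) • G) ∧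
      ∀ x y : Fin 3 → F,
        cX (gx D g x y) = al.map (Int.cast : ℤ → ℚ) *ᵥ cX x + be.map (Int.cast : ℤ → ℚ) *ᵥ cY D a y ∧
        cY D a (gy D g x y)
          = ga.map (Int.cast : ℤ → ℚ) *ᵥ cX x + de.map (Int.cast : ℤ → ℚ) *ᵥ cY D a y

/-- **S_Rel** (assembly of the above): for `g` in a deep congruence subgroup, the relation between
`Z(z)` and `Z(g z)` in the form of part A, the matrix `NN`, its determinant, and its action on the
vectors `Ew`. -/
def S_Rel : Prop :=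
  ∀ (F : Type) [Field F] [NumberField F] [IsTotallyReal F] (D : Dat F) (a : F), 0 < D.t0 a →
    ∀ M : ℕ, 0 < M →
    ∃ n : ℕ, 0 < n ∧ ∀ g ∈ Gam D n, ∃ al be ga de : Matrix (Ix F) (Ix F) ℤ,
      fromBlocks al be ga de ∈ symplecticGroup (Ix F) ℤ ∧
      (∃ G : Matrix (Ix F ⊕ Ix F) (Ix F ⊕ Ix F) ℤ, fromBlocks al be ga de = 1 + (M : ℤ) • G) ∧
      ∀ z ∈ Ball D, ∃ NN : Matrix (Ix F) (Ix F) ℂ,
        ZZ D a (CMT.act D g z) * be.map (Int.cast : ℤ → ℂ) + de.map (Int.cast : ℤ → ℂ) = NN ∧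
        ZZ D a (CMT.act D g z) * al.map (Int.cast : ℤ → ℂ) + ga.map (Int.cast : ℤ → ℂ)
          = NN * ZZ D a z ∧
        NN.det * (num D g z 2 ^ 2 * mm (D.t0 D.bet) (CMT.act D g z)) = mm (D.t0 D.bet) z ∧
        ∀ w, NN *ᵥ Ew w = Ew fun t => NNt D a g z t *ᵥ w t

/-- **S_Hz**: `Z(z)` is in the Siegel upper half space.
Proof.  Symmetric: each `Zt_t` is symmetric (`Zm` visibly).  Let `X_t i = Σ_j v(i,j) t(e_j)` (real).
Then `Σ_pq v_p Z_pq v_q = Σ_t Σ_il X_t i (Zt_t i l) X_t l`, imaginary part: at `t ≠ t0`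
`(|t a|/√(tΔ)) Σ ht_i (X_t i)² ≥ 0`, `> 0` if `X_t ≠ 0`; at `t0` it is
`(t0 a/√Δ) Re (qf X X + 2 (X,zh)²/mm)`, `> 0` if `X_t0 ≠ 0`: `CMT/C/Pos.lean` (helper34:
`pos_identity`, `pos_majorant`, `re_q_ge`).  If all `X_t = 0` then `v = 0` (`S_Card`). -/
def S_Hz : Prop :=
  ∀ (F : Type) [Field F] [NumberField F] [IsTotallyReal F] (D : Dat F) (a : F), 0 < D.t0 a →
    ∀ z ∈ Ball D, (ZZ D a z)ᵀ = ZZ D a z ∧
      ∀ v : Ix F → ℝ, v ≠ 0 → 0 < ∑ p, ∑ q, v p * (ZZ D a z p q).im * v q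

/-! ## The theta series of part A and the theta forms -/

/-- The theta series of genus `ι` (sum over `x = m / N`). -/
def th {ι : Type} [Fintype ι] (N : ℕ) (φ : (ι → ZMod (N ^ 2)) → ℂ) (Z : Matrix ι ι ℂ)
    (w : ι → ℂ) : ℂ :=
  ∑' m : ι → ℤ, φ (fun p => (m p : ZMod (N ^ 2))) *
    Complex.exp (Real.pi * Complex.I * (∑ p, ∑ q, (m p : ℂ) * Z p q * (m q : ℂ)) / (N : ℂ) ^ 2
      + 2 * Real.pi * Complex.I * (∑ p, (m p : ℂ) * w p) / N)

/-- The vector `x = (Σ_j (m (i,j) / N) e_j)_i`. -/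
def xm (N : ℕ) (m : Ix F → ℤ) : Fin 3 → F :=
  fun i => (N : F)⁻¹ * ∑ j, ((m (i, j) : ℤ) : F) * eb F j

/-- The theta gradient in the direction `u ∈ ℂ³` at the place `t0`:
`Σ_x φ(x) (x, u) exp (πi x^T Z x)`. -/
def Du (D : Dat F) (a : F) (φ : (Fin 3 → F) → ℂ) (z : ℂ × ℂ) (u : Fin 3 → ℂ) : ℂ :=
  ∑' x : Fin 3 → F, φ x * tm1 D a x z * ∑ i, (rx D.t0 x i : ℂ) * u i

/-- **S_Du**: `om` in terms of `Du`: `κ ss(z) om_k = Du (N_z e_k)`.
Proof.  `mm ≠ 0`, `ss ≠ 0` on the ball, `s2 (hh D) z = mm`; termwise: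
`κ ss du_k = κ (x_k + z_k ll / mm) = Σ_i x_i (N_z) i k` (`hh D = ![1, 1, -t0 β]`); `tsum_mul_left`
(no convergence needed: a nonzero constant). -/
def S_Du : Prop :=
  ∀ (F : Type) [Field F] [NumberField F] (D : Dat F) (a : F), 0 < D.t0 a →
    ∀ (φ : (Fin 3 → F) → ℂ), ∀ z ∈ Ball D,
      (ka D a * ss (D.t0 D.bet) z) * (om D a φ z).1
        = Du D a φ z (fun i => Nm (ka D a) (hh D) z i 0) ∧
      (ka D a * ss (D.t0 D.bet) z) * (om D a φ z).2
        = Du D a φ z (fun i => Nm (ka D a) (hh D) z i 1)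

/-- The function on `(ZMod (N²))^ι` which corresponds to `φ` (of level `N`). -/
def phZ (N : ℕ) (φ : (Fin 3 → F) → ℂ) : (Ix F → ZMod (N ^ 2)) → ℂ :=
  fun c => φ (xm N fun p => ((c p).cast : ℤ))

/-- **S_Rei**: reindexing a sum over `(1/N) O³`.
Proof.  `xm N : (Ix F → ℤ) → (Fin 3 → F)` is injective (`eb F` is a basis, `N ≠ 0`) and its range is
`{x | ∀ i, IsIntegral ℤ (N x i)}` (`integralBasis`: `mem_span_integralBasis`); so
`Function.Injective.tsum_eq` with the support condition. -/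
def S_Rei : Prop :=
  ∀ (F : Type) [Field F] [NumberField F] (N : ℕ), 0 < N →
    Function.Injective (xm N : (Ix F → ℤ) → (Fin 3 → F)) ∧
    (∀ x : Fin 3 → F, (∀ i, IsIntegral ℤ ((N : F) * x i)) → ∃ m : Ix F → ℤ, xm N m = x) ∧
    ∀ f : (Fin 3 → F) → ℂ, (∀ x, f x ≠ 0 → ∀ i, IsIntegral ℤ ((N : F) * x i)) →
      ∑' x, f x = ∑' m : Ix F → ℤ, f (xm N m)

/-- **S_Phz**: periodicity: `phZ` gives back `φ`.
Proof.  `((m : ZMod (N²)).cast : ℤ) = m - N² k`, so the two vectors `xm` differ by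
`N * (Σ_j k_j e_j)`, and `Σ_j k_j e_j` is integral (`k` integers, `e_j ∈ 𝓞 F`). -/
def S_Phz : Prop :=
  ∀ (F : Type) [Field F] [NumberField F] (N : ℕ), 0 < N → ∀ (φ : (Fin 3 → F) → ℂ), SB N φ →
    ∀ m : Ix F → ℤ, phZ N φ (fun p => (m p : ZMod (N ^ 2))) = φ (xm N m)

/-- **S_Exp**: the exponents agree.
Proof.  Let `x = xm N m`; `rx t x i = (1/N) Σ_j m(i,j) t(e_j)` (`map_sum`, `map_intCast`, ...).
`Σ_pq m_p Z_pq m_q / N² = Σ_t Σ_il rx_i (Zt_t i l) rx_l`; at `t ≠ t0` this is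
`I |t a|/√(tΔ) qf (t β) (rx t x) (rx t x)` and `π I * I = - π`; at `t0` it is
`(I t0 a/√Δ) (qf + 2 ll²/mm)` and `uu² = ll²/mm` (`ss² = mm`, `uu_sq` in C/Pos or directly:
`Complex.cpow_nat_mul`), `|t0 a| = t0 a`.  Compare with `e1`, `e0`. -/
def S_Exp : Prop :=
  ∀ (F : Type) [Field F] [NumberField F] (D : Dat F) (a : F), 0 < D.t0 a →
    ∀ (N : ℕ), 0 < N → ∀ z ∈ Ball D, ∀ m : Ix F → ℤ,
      (Real.pi : ℂ) * Complex.I * (∑ p, ∑ q, (m p : ℂ) * ZZ D a z p q * (m q : ℂ)) / (N : ℂ) ^ 2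
        = -(((e1 D a (xm N m) : ℝ) : ℂ) + e0 D a (xm N m) z)

/-- **S_DerTh** (no number field): the theta series has a derivative at `0` in every direction,
and its derivative series is absolutely convergent.
Proof.  Let `c > 0` with `Σ v_p Im Z_pq v_q ≥ c Σ v_p²` (compactness of the unit sphere, or part
A).  For `|τ| < 1` the norm of the `m`-th term of the derivative is at most
`C |m|₁ exp(- π c |m|²/N² + C' |m|₁)`, summable over `ℤ^ι` (`φ` is bounded: finitely many values);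
`hasDerivAt_tsum_of_isPreconnected` (or `hasDerivAt_tsum`) on the unit disc.  Look at
`CMT/C/Lat.lean` (`summable_lat_exp`) and at part A (helper31: A/Sum.lean) for the summability. -/
def S_DerTh : Prop :=
  ∀ (ι : Type) [Fintype ι] [DecidableEq ι] (N : ℕ), 0 < N → ∀ Z : Matrix ι ι ℂ, Zᵀ = Z →
    (∀ v : ι → ℝ, v ≠ 0 → 0 < ∑ p, ∑ q, v p * (Z p q).im * v q) →
    ∀ (φ : (ι → ZMod (N ^ 2)) → ℂ) (w : ι → ℂ),
      HasDerivAt (fun τ : ℂ => th N φ Z (τ • w))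
        (∑' m : ι → ℤ, φ (fun p => (m p : ZMod (N ^ 2))) *
          Complex.exp (Real.pi * Complex.I * (∑ p, ∑ q, (m p : ℂ) * Z p q * (m q : ℂ)) /
            (N : ℂ) ^ 2) * (2 * Real.pi * Complex.I * (∑ p, (m p : ℂ) * w p) / N)) 0

/-- **S_Der** (uses `S_Rei`, `S_Phz`, `S_Exp`, `S_DerTh`, `S_Hz`): the theta gradient is the
derivative at `0` of the theta series in the direction `Ew (u at t0, 0 at the other places)`.
Proof.  `Ew (τ u at t0) = τ • Ew (u at t0)`, `S_DerTh`, then termwise: `S_Phz`, `S_Exp` give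
`φ (xm m) tm1 (xm m)`, and `(Σ_p m_p Ew(u)_p)/N = Σ_i rx D.t0 (xm N m) i u_i`; finally `S_Rei`
(the support condition from `SB N φ`). -/
def S_Der : Prop :=
  ∀ (F : Type) [Field F] [NumberField F] [IsTotallyReal F] (D : Dat F) (a : F), 0 < D.t0 a →
    ∀ (N : ℕ), 0 < N → ∀ (φ : (Fin 3 → F) → ℂ), SB N φ → ∀ z ∈ Ball D,
    ∀ u : Fin 3 → ℂ,
      HasDerivAt (fun τ : ℂ => th N (phZ N φ) (ZZ D a z)
        (Ew fun t => if t = D.t0 then τ • u else 0))
        (2 * Real.pi * Complex.I * Du D a φ z u) 0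

/-- **S_A3** (part A, helper75): on a congruence subgroup of `Sp_2g(ℤ)` the theta series are
multiplied by scalars of finite order, up to the automorphy factor. -/
def S_A3 : Prop :=
  ∀ (ι : Type) [Fintype ι] [DecidableEq ι] (N : ℕ), 0 < N → ∃ M k : ℕ, 0 < M ∧ 0 < k ∧
    ∀ al be ga de : Matrix ι ι ℤ, fromBlocks al be ga de ∈ symplecticGroup ι ℤ →
      (∃ G : Matrix (ι ⊕ ι) (ι ⊕ ι) ℤ, fromBlocks al be ga de = 1 + (M : ℤ) • G) →
      ∀ Z Z' NN : Matrix ι ι ℂ, Zᵀ = Z → Z'ᵀ = Z' →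
        (∀ v : ι → ℝ, v ≠ 0 → 0 < ∑ p, ∑ q, v p * (Z p q).im * v q) →
        (∀ v : ι → ℝ, v ≠ 0 → 0 < ∑ p, ∑ q, v p * (Z' p q).im * v q) →
        Z' * be.map (Int.cast : ℤ → ℂ) + de.map (Int.cast : ℤ → ℂ) = NN →
        Z' * al.map (Int.cast : ℤ → ℂ) + ga.map (Int.cast : ℤ → ℂ) = NN * Z →
        ∃ c : ℂ, (c ^ 2 * NN.det) ^ k = 1 ∧ ∀ (φ : (ι → ZMod (N ^ 2)) → ℂ) (w : ι → ℂ),
          th N φ Z' (NN *ᵥ w) = c * Complex.exp (-(Real.pi * Complex.I *
            ((NN *ᵥ w) ⬝ᵥ (be.map (Int.cast : ℤ → ℂ) *ᵥ w)))) * th N φ Z w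

/-- **S_I3** (helper91; from S_Rel, S_Du, S_Der, S_A3, S_Hz): on a congruence subgroup the theta
forms are multiplied by roots of unity of bounded order, a priori depending on the point. -/
def S_I3 : Prop :=
  ∀ (F : Type) [Field F] [NumberField F] [IsTotallyReal F] (D : Dat F) (a : F), 0 < D.t0 a →
    ∀ (N : ℕ), 0 < N → ∃ n k : ℕ, 0 < n ∧ 0 < k ∧
      ∀ g ∈ Gam D n, ∀ z ∈ Ball D, ∃ c : ℂ, c ^ k = 1 ∧ ∀ (φ : (Fin 3 → F) → ℂ), SB N φ →
        pull1 D g z (om D a φ (CMT.act D g z)) = (c * (om D a φ z).1, c * (om D a φ z).2)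

/-- **S_Hol**: the coefficients of the theta forms are holomorphic along complex lines.
Proof.  `hasDerivAt_tsum_of_isPreconnected` / `differentiableOn_tsum_of_summable_norm` on compact
pieces; the majorants are those of part C (helper34, S_ContOm). -/
def S_Hol : Prop :=
  ∀ (F : Type) [Field F] [NumberField F] [IsTotallyReal F] (D : Dat F) (a : F), a ≠ 0 →
    ∀ φ : (Fin 3 → F) → ℂ, IsSB φ → ∀ z v : ℂ × ℂ,
      DifferentiableOn ℂ (fun τ : ℂ => (om D a φ (z + τ • v)).1) {τ : ℂ | z + τ • v ∈ Ball D} ∧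
      DifferentiableOn ℂ (fun τ : ℂ => (om D a φ (z + τ • v)).2) {τ : ℂ | z + τ • v ∈ Ball D}

/-- **S_Root** (no number field): a function which is pointwise a root of unity times a holomorphic
function is a constant times it.
Proof.  `U` open, connected in `ℂ`; `f₁, f₂, g₁, g₂` holomorphic on `U`; for every `τ ∈ U` there is
`c` with `c^k = 1`, `g_i τ = c f_i τ`.  Suppose `f₁ τ₀ ≠ 0` (or `f₂ τ₀ ≠ 0`), `g_i τ₀ = c₀ f_i τ₀`.
`g₁^k = f₁^k` on `U`, so `∏_ζ (g₁ - ζ f₁) = 0` on `U` (product over the `k`-th roots of unity):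
one factor vanishes identically (the ring of holomorphic functions on a connected open set has no
zero divisors: a holomorphic function which is not identically zero is nonzero on a punctured
neighbourhood of each point), and at `τ₀` this forces `ζ = c₀`.  Then `g₁ = c₀ f₁` on `U`; at
the points where `f₁ ≠ 0` the scalar `c` is `c₀`, so `g₂ = c₀ f₂` there, and by the identity
theorem everywhere.  Same with the indices exchanged. -/
def S_Root : Prop :=
  ∀ (U : Set ℂ), IsOpen U → IsPreconnected U → ∀ (f g : Fin 2 → ℂ → ℂ) (k : ℕ), 0 < k →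
    (∀ i, DifferentiableOn ℂ (f i) U) → (∀ i, DifferentiableOn ℂ (g i) U) →
    (∀ τ ∈ U, ∃ c : ℂ, c ^ k = 1 ∧ ∀ i, g i τ = c * f i τ) →
    ∀ (i₀ : Fin 2) (τ₀ c₀ : ℂ), τ₀ ∈ U → f i₀ τ₀ ≠ 0 → c₀ ^ k = 1 → (∀ i, g i τ₀ = c₀ * f i τ₀) →
      ∀ τ ∈ U, ∀ i, g i τ = c₀ * f i τ

end CMT.B
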