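import Pool.Agent.Lib.CMT.B.Br
import Pool.Agent.Lib.CMT.Iface

/-!
# PROJECT CMT, part B: `S_Act` of `CMT/Iface.lean`
-/

set_option autoImplicit false

namespace CMT.B

open Matrix

noncomputable section

theorem pAct : CMT.S_Act := by
  intro F _ _ D
  refine ⟨fun z => act_one_Ball D z, fun g hg z hz => ⟨act_mem_Ball D hg hz,
    num_two_ne_zero D hg hz⟩, fun g k _ hk z hz => ⟨act_mul_Ball D g hk hz, num_two_mul D g hk hz⟩,
    fun g hg z hz => (hasFDerivAt_act_Ball D hg hz).continuousAt.continuousWithinAt⟩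

end

end CMT.B
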