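import Mathlib

/-!
PROJECT CMT, part B: geometry of the ball at the place `t0`.

`h : Fin 3 → ℝ` is a diagonal hermitian form of signature `(2,1)`: `h 0 > 0`, `h 1 > 0`, `h 2 < 0`;
`zh z = (z1, z2, 1)`; `g` a complex `3 × 3` matrix with `gᴴ H g = H`;
`g *ᵥ zh z = jj g z • zh (act g z)`; `pz` are the natural coordinates.
-/

set_option autoImplicit false

namespace CMT.B

open Matrix ComplexConjugate

noncomputable section

/-- The vector `(z1, z2, 1)`. -/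
def zh (z : ℂ × ℂ) : Fin 3 → ℂ := ![z.1, z.2, 1]

/-- The automorphy factor. -/
def jj (g : Matrix (Fin 3) (Fin 3) ℂ) (z : ℂ × ℂ) : ℂ := (g *ᵥ zh z) 2

/-- The action on the ball. -/
def act (g : Matrix (Fin 3) (Fin 3) ℂ) (z : ℂ × ℂ) : ℂ × ℂ :=
  ((g *ᵥ zh z) 0 / jj g z, (g *ᵥ zh z) 1 / jj g z)

/-- `-(h0 |z1|² + h1 |z2|² + h2)`. -/
def Nz (h : Fin 3 → ℝ) (z : ℂ × ℂ) : ℝ := -(h 0 * ‖z.1‖ ^ 2 + h 1 * ‖z.2‖ ^ 2 + h 2)

/-- The ball. -/
def ball (h : Fin 3 → ℝ) : Set (ℂ × ℂ) := {z | 0 < Nz h z}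

/-- The matrix of the hermitian form. -/
def HM (h : Fin 3 → ℝ) : Matrix (Fin 3) (Fin 3) ℂ := diagonal (fun i => (h i : ℂ))

/-- `g` is an isometry of the hermitian form. -/
def IsU (h : Fin 3 → ℝ) (g : Matrix (Fin 3) (Fin 3) ℂ) : Prop := gᴴ * HM h * g = HM h

/-- The natural coordinates. -/
def pz (h : Fin 3 → ℝ) (z : ℂ × ℂ) (v : Fin 3 → ℂ) : Fin 3 → ℂ :=
  ![v 0 - z.1 * v 2, v 1 - z.2 * v 2, ∑ i, (h i : ℂ) * zh z i * conj (v i)]

/-- The matrix `M(g,z)` of the action on `V / zh`. -/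
def MM (g : Matrix (Fin 3) (Fin 3) ℂ) (z : ℂ × ℂ) : Matrix (Fin 2) (Fin 2) ℂ :=
  !![g 0 0 - (act g z).1 * g 2 0, g 0 1 - (act g z).1 * g 2 1;
     g 1 0 - (act g z).2 * g 2 0, g 1 1 - (act g z).2 * g 2 1]

lemma zh_zero (z : ℂ × ℂ) : zh z 0 = z.1 := rfl
lemma zh_one (z : ℂ × ℂ) : zh z 1 = z.2 := rfl
lemma zh_two (z : ℂ × ℂ) : zh z 2 = 1 := rfl

lemma isU_sesq {h : Fin 3 → ℝ} {g : Matrix (Fin 3) (Fin 3) ℂ} (hg : IsU h g) (u v : Fin 3 → ℂ) :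
    ∑ i, (h i : ℂ) * (g *ᵥ u) i * conj ((g *ᵥ v) i) = ∑ i, (h i : ℂ) * u i * conj (v i) := by
  have key : ∀ u v : Fin 3 → ℂ, ∑ i, (h i : ℂ) * u i * conj (v i) = star v ⬝ᵥ (HM h *ᵥ u) := by
    intro u v
    unfold HM dotProduct
    refine Finset.sum_congr rfl fun i _ => ?_
    rw [mulVec_diagonal, Pi.star_apply, Complex.star_def]
    ring
  rw [key, key, star_mulVec, mulVec_mulVec, ← dotProduct_mulVec, mulVec_mulVec,
    ← Matrix.mul_assoc, hg]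

lemma isU_norm {h : Fin 3 → ℝ} {g : Matrix (Fin 3) (Fin 3) ℂ} (hg : IsU h g) (v : Fin 3 → ℂ) :
    ∑ i, h i * ‖(g *ᵥ v) i‖ ^ 2 = ∑ i, h i * ‖v i‖ ^ 2 := by
  have h1 := isU_sesq hg v v
  have h2 : ∀ w : Fin 3 → ℂ, ∑ i, (h i : ℂ) * w i * conj (w i) =
      ((∑ i, h i * ‖w i‖ ^ 2 : ℝ) : ℂ) := by
    intro w
    push_cast
    refine Finset.sum_congr rfl fun i _ => ?_
    rw [mul_assoc, Complex.mul_conj, Complex.normSq_eq_norm_sq]
    push_cast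
    ring
  rw [h2, h2] at h1
  exact_mod_cast h1

lemma Nz_eq (h : Fin 3 → ℝ) (z : ℂ × ℂ) : ∑ i, h i * ‖zh z i‖ ^ 2 = - Nz h z := by
  rw [Fin.sum_univ_three, zh_zero, zh_one, zh_two, Nz]
  simp

/-- `jj` does not vanish on the ball. -/
theorem jj_ne_zero {h : Fin 3 → ℝ} (h0 : 0 < h 0) (h1 : 0 < h 1)
    {g : Matrix (Fin 3) (Fin 3) ℂ} (hg : IsU h g) {z : ℂ × ℂ} (hz : z ∈ ball h) :
    jj g z ≠ 0 := by
  intro hj
  have e1 := isU_norm hg (zh z)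
  rw [Nz_eq, Fin.sum_univ_three] at e1
  have e2 : (g *ᵥ zh z) 2 = 0 := hj
  rw [e2, norm_zero] at e1
  have hz' : 0 < Nz h z := hz
  have p1 : 0 ≤ h 0 * ‖(g *ᵥ zh z) 0‖ ^ 2 := by positivity
  have p2 : 0 ≤ h 1 * ‖(g *ᵥ zh z) 1‖ ^ 2 := by positivity
  nlinarith

theorem mulVec_zh {g : Matrix (Fin 3) (Fin 3) ℂ} {z : ℂ × ℂ} (hj : jj g z ≠ 0) :
    g *ᵥ zh z = jj g z • zh (act g z) := by
  funext i
  fin_cases i
  · show (g *ᵥ zh z) 0 = jj g z * ((g *ᵥ zh z) 0 / jj g z)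
    field_simp
  · show (g *ᵥ zh z) 1 = jj g z * ((g *ᵥ zh z) 1 / jj g z)
    field_simp
  · show (g *ᵥ zh z) 2 = jj g z * 1
    rw [mul_one]
    rfl

theorem Nz_act {h : Fin 3 → ℝ} {g : Matrix (Fin 3) (Fin 3) ℂ} (hg : IsU h g) {z : ℂ × ℂ}
    (hj : jj g z ≠ 0) : Nz h (act g z) = Nz h z / ‖jj g z‖ ^ 2 := by
  have e1 := isU_norm hg (zh z)
  rw [mulVec_zh hj, Nz_eq] at e1
  have e2 : ∑ i, h i * ‖(jj g z • zh (act g z)) i‖ ^ 2 =
      ‖jj g z‖ ^ 2 * ∑ i, h i * ‖zh (act g z) i‖ ^ 2 := by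
    rw [Finset.mul_sum]
    refine Finset.sum_congr rfl fun i _ => ?_
    rw [Pi.smul_apply, smul_eq_mul, norm_mul]
    ring
  rw [e2, Nz_eq] at e1
  have hn : ‖jj g z‖ ^ 2 ≠ 0 := pow_ne_zero _ (norm_ne_zero_iff.mpr hj)
  rw [eq_div_iff hn]
  linarith

theorem act_mem {h : Fin 3 → ℝ} (h0 : 0 < h 0) (h1 : 0 < h 1)
    {g : Matrix (Fin 3) (Fin 3) ℂ} (hg : IsU h g) {z : ℂ × ℂ} (hz : z ∈ ball h) :
    act g z ∈ ball h := by
  have hj := jj_ne_zero h0 h1 hg hz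
  show 0 < Nz h (act g z)
  rw [Nz_act hg hj]
  have hz' : 0 < Nz h z := hz
  have : 0 < ‖jj g z‖ := norm_pos_iff.mpr hj
  positivity

theorem jj_mul (g g' : Matrix (Fin 3) (Fin 3) ℂ) {z : ℂ × ℂ} (hj : jj g' z ≠ 0) :
    jj (g * g') z = jj g (act g' z) * jj g' z := by
  show ((g * g') *ᵥ zh z) 2 = (g *ᵥ zh (act g' z)) 2 * jj g' z
  rw [← mulVec_mulVec, mulVec_zh hj, mulVec_smul, Pi.smul_apply, smul_eq_mul, mul_comm]

theorem act_mul (g g' : Matrix (Fin 3) (Fin 3) ℂ) {z : ℂ × ℂ} (hj : jj g' z ≠ 0) :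
    act (g * g') z = act g (act g' z) := by
  have h1 : ∀ i, ((g * g') *ᵥ zh z) i = jj g' z * (g *ᵥ zh (act g' z)) i := by
    intro i
    rw [← mulVec_mulVec, mulVec_zh hj, mulVec_smul, Pi.smul_apply, smul_eq_mul]
  have h2 := jj_mul g g' hj
  unfold act at *
  rw [h1 0, h1 1, h2, mul_comm (jj g _) (jj g' z)]
  rw [mul_div_mul_left _ _ hj, mul_div_mul_left _ _ hj]

lemma jj_one (z : ℂ × ℂ) : jj 1 z = 1 := by
  rw [jj, one_mulVec]; rfl

lemma act_one (z : ℂ × ℂ) : act 1 z = z := by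
  rw [act, one_mulVec, jj_one, zh_zero, zh_one, div_one, div_one]

lemma isU_one (h : Fin 3 → ℝ) : IsU h 1 := by
  rw [IsU, conjTranspose_one, one_mul, mul_one]

lemma isU_mul {h : Fin 3 → ℝ} {g g' : Matrix (Fin 3) (Fin 3) ℂ} (hg : IsU h g) (hg' : IsU h g') :
    IsU h (g * g') := by
  unfold IsU at *
  rw [conjTranspose_mul]
  calc g'ᴴ * gᴴ * HM h * (g * g') = g'ᴴ * (gᴴ * HM h * g) * g' := by
        simp only [Matrix.mul_assoc]
    _ = HM h := by rw [hg, hg']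

/-- The first two natural coordinates: `M(g,z)` acts. -/
theorem pz_act_fst {g : Matrix (Fin 3) (Fin 3) ℂ} {z : ℂ × ℂ} (hj : jj g z ≠ 0)
    (v : Fin 3 → ℂ) :
    MM g z *ᵥ ![v 0 - z.1 * v 2, v 1 - z.2 * v 2] =
      ![(g *ᵥ v) 0 - (act g z).1 * (g *ᵥ v) 2, (g *ᵥ v) 1 - (act g z).2 * (g *ᵥ v) 2] := by
  have e := mulVec_zh hj
  have e0 := congrFun e 0
  have e1 := congrFun e 1
  have e2 := congrFun e 2
  simp only [mulVec, dotProduct, Fin.sum_univ_three, Pi.smul_apply, smul_eq_mul, zh_zero, zh_one,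
    zh_two, mul_one] at e0 e1 e2
  funext i
  fin_cases i
  · simp only [MM, mulVec, dotProduct, Fin.sum_univ_two, Fin.sum_univ_three, Matrix.of_apply,
      Matrix.cons_val', Matrix.cons_val_zero, Matrix.cons_val_one, Fin.zero_eta, Fin.isValue,
      Matrix.cons_val_fin_one]
    linear_combination (-v 2) * e0 + (v 2) * (act g z).1 * e2
  · simp only [MM, mulVec, dotProduct, Fin.sum_univ_two, Fin.sum_univ_three, Matrix.of_apply,
      Matrix.cons_val', Matrix.cons_val_zero, Matrix.cons_val_one, Fin.mk_one, Fin.isValue,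
      Matrix.cons_val_fin_one]
    linear_combination (-v 2) * e1 + (v 2) * (act g z).2 * e2

/-- The third natural coordinate. -/
theorem pz_act_snd {h : Fin 3 → ℝ} {g : Matrix (Fin 3) (Fin 3) ℂ} (hg : IsU h g) {z : ℂ × ℂ}
    (hj : jj g z ≠ 0) (v : Fin 3 → ℂ) :
    ∑ i, (h i : ℂ) * zh (act g z) i * conj ((g *ᵥ v) i) =
      (jj g z)⁻¹ * ∑ i, (h i : ℂ) * zh z i * conj (v i) := by
  rw [← isU_sesq hg (zh z) v, mulVec_zh hj, Finset.mul_sum]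
  refine Finset.sum_congr rfl fun i _ => ?_
  rw [Pi.smul_apply, smul_eq_mul]
  field_simp

/-- The transformation of the natural coordinates. -/
theorem pz_act {h : Fin 3 → ℝ} {g : Matrix (Fin 3) (Fin 3) ℂ} (hg : IsU h g) {z : ℂ × ℂ}
    (hj : jj g z ≠ 0) (v : Fin 3 → ℂ) :
    pz h (act g z) (g *ᵥ v) =
      ![MM g z 0 0 * pz h z v 0 + MM g z 0 1 * pz h z v 1,
        MM g z 1 0 * pz h z v 0 + MM g z 1 1 * pz h z v 1, (jj g z)⁻¹ * pz h z v 2] := by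
  have e := pz_act_fst hj v
  have e0 := congrFun e 0
  have e1 := congrFun e 1
  simp only [mulVec, dotProduct, Fin.sum_univ_two, Matrix.cons_val_zero, Matrix.cons_val_one,
    Matrix.cons_val_fin_one] at e0 e1
  funext i
  fin_cases i
  · exact e0.symm
  · exact e1.symm
  · exact pz_act_snd hg hj v

/-- `det M = det g / j`. -/
theorem det_MM {g : Matrix (Fin 3) (Fin 3) ℂ} {z : ℂ × ℂ} (hj : jj g z ≠ 0) :
    (MM g z).det * jj g z = g.det := by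
  have e := mulVec_zh hj
  have e0 := congrFun e 0
  have e1 := congrFun e 1
  have e2 := congrFun e 2
  simp only [mulVec, dotProduct, Fin.sum_univ_three, Pi.smul_apply, smul_eq_mul, zh_zero, zh_one,
    zh_two, mul_one] at e0 e1 e2
  rw [det_fin_two, det_fin_three]
  simp only [MM, Matrix.of_apply, Matrix.cons_val', Matrix.cons_val_zero, Matrix.cons_val_one,
    Matrix.cons_val_fin_one]
  generalize (act g z).1 = a at *
  generalize (act g z).2 = c at *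
  generalize jj g z = j at *
  linear_combination (g 1 0 * g 2 1 - g 1 1 * g 2 0) * (- e0 + a * e2) +
    (g 0 0 * g 2 1 - g 0 1 * g 2 0) * (e1 - c * e2) +
    (-(g 0 0 - a * g 2 0) * (g 1 1 - c * g 2 1) + (g 0 1 - a * g 2 1) * (g 1 0 - c * g 2 0)) * e2

/-- The derivative of the action, as a linear map. -/
def dact (g : Matrix (Fin 3) (Fin 3) ℂ) (z : ℂ × ℂ) : (ℂ × ℂ) →L[ℂ] (ℂ × ℂ) :=
  ((MM g z 0 0 / jj g z) • ContinuousLinearMap.fst ℂ ℂ ℂ +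
    (MM g z 0 1 / jj g z) • ContinuousLinearMap.snd ℂ ℂ ℂ).prod
  ((MM g z 1 0 / jj g z) • ContinuousLinearMap.fst ℂ ℂ ℂ +
    (MM g z 1 1 / jj g z) • ContinuousLinearMap.snd ℂ ℂ ℂ)

lemma hasFDerivAt_mulVec_zh (g : Matrix (Fin 3) (Fin 3) ℂ) (i : Fin 3) (z : ℂ × ℂ) :
    HasFDerivAt (fun w => (g *ᵥ zh w) i)
      (g i 0 • ContinuousLinearMap.fst ℂ ℂ ℂ + g i 1 • ContinuousLinearMap.snd ℂ ℂ ℂ) z := by
  have h1 : (fun w : ℂ × ℂ => (g *ᵥ zh w) i) = fun w => g i 0 * w.1 + g i 1 * w.2 + g i 2 := by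
    funext w
    simp only [mulVec, dotProduct, Fin.sum_univ_three, zh_zero, zh_one, zh_two, mul_one]
  rw [h1]
  have h2 := (((ContinuousLinearMap.fst ℂ ℂ ℂ).hasFDerivAt (x := z)).const_mul (g i 0)).add
    (((ContinuousLinearMap.snd ℂ ℂ ℂ).hasFDerivAt (x := z)).const_mul (g i 1))
  exact h2.add_const _

theorem hasFDerivAt_act {g : Matrix (Fin 3) (Fin 3) ℂ} {z : ℂ × ℂ} (hj : jj g z ≠ 0) :
    HasFDerivAt (act g) (dact g z) z := by
  have hj' : HasFDerivAt (jj g)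
      (g 2 0 • ContinuousLinearMap.fst ℂ ℂ ℂ + g 2 1 • ContinuousLinearMap.snd ℂ ℂ ℂ) z :=
    hasFDerivAt_mulVec_zh g 2 z
  have hi := (hasDerivAt_inv hj).comp_hasFDerivAt z hj'
  have d0 := (hasFDerivAt_mulVec_zh g 0 z).mul hi
  have d1 := (hasFDerivAt_mulVec_zh g 1 z).mul hi
  have hfun : act g = fun w => ((g *ᵥ zh w) 0 * (jj g w)⁻¹, (g *ᵥ zh w) 1 * (jj g w)⁻¹) := by
    funext w
    rw [act, div_eq_mul_inv, div_eq_mul_inv]
  rw [hfun]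
  refine (d0.prodMk d1).congr_fderiv ?_
  have e := mulVec_zh hj
  have e0 : (g *ᵥ zh z) 0 = jj g z * (act g z).1 := congrFun e 0
  have e1 : (g *ᵥ zh z) 1 = jj g z * (act g z).2 := congrFun e 1
  refine ContinuousLinearMap.ext fun w => ?_
  ext
  · simp [dact, MM, e0]
    field_simp
    ring
  · simp [dact, MM, e1]
    field_simp
    ring

end

end CMT.B
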