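import Pool.Agent.Lib.CMT.Defs
import Pool.Agent.Lib.CMT.B.Ball

/-!
PROJECT CMT, part B: the geometry of `B/Ball.lean` in the notation of `CMT/Defs.lean`.
-/

set_option autoImplicit false

namespace CMT.B

open Matrix ComplexConjugate

noncomputable section

variable {F : Type} [Field F] [NumberField F]

/-- The diagonal form at the place `t0`. -/
def hh (D : Dat F) : Fin 3 → ℝ := ![1, 1, -(D.t0 D.bet)]

lemma hh_zero (D : Dat F) : hh D 0 = 1 := rfl
lemma hh_one (D : Dat F) : hh D 1 = 1 := rfl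
lemma hh_two (D : Dat F) : hh D 2 = -(D.t0 D.bet) := rfl

lemma hh_zero_pos (D : Dat F) : 0 < hh D 0 := by rw [hh_zero]; exact one_pos
lemma hh_one_pos (D : Dat F) : 0 < hh D 1 := by rw [hh_one]; exact one_pos

lemma hat_eq (z : ℂ × ℂ) : hat z = zh z := rfl

lemma act_eq (D : Dat F) (g : SG D) (z : ℂ × ℂ) : CMT.act D g z = act (mt D D.t0 g) z := rfl

lemma num_two_eq (D : Dat F) (g : SG D) (z : ℂ × ℂ) : num D g z 2 = jj (mt D D.t0 g) z := rfl

lemma Ball_eq (D : Dat F) : Ball D = ball (hh D) := by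
  ext z
  show ‖z.1‖ ^ 2 + ‖z.2‖ ^ 2 < D.t0 D.bet ↔ 0 < Nz (hh D) z
  rw [Nz, hh_zero, hh_one, hh_two]
  constructor
  · intro h; linarith
  · intro h; linarith

/-- `ev` and complex conjugation. -/
lemma ev_cj (D : Dat F) (t : F →+* ℝ) (v : KD D) : ev D t (cj D v) = conj (ev D t v) := by
  show ((t v.re : ℝ) : ℂ) + Complex.I * ((Real.sqrt (t D.del) : ℝ) : ℂ) * ((t (-v.im) : ℝ) : ℂ) =
    conj (((t v.re : ℝ) : ℂ) + Complex.I * ((Real.sqrt (t D.del) : ℝ) : ℂ) * ((t v.im : ℝ) : ℂ))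
  rw [map_add, map_mul, map_mul, Complex.conj_ofReal, Complex.conj_ofReal, Complex.conj_ofReal,
    Complex.conj_I, map_neg, Complex.ofReal_neg]
  ring

lemma ev_algebraMap (D : Dat F) (t : F →+* ℝ) (x : F) :
    ev D t (algebraMap F (KD D) x) = ((t x : ℝ) : ℂ) := by
  show ((t (algebraMap F (KD D) x).re : ℝ) : ℂ) +
    Complex.I * ((Real.sqrt (t D.del) : ℝ) : ℂ) * ((t (algebraMap F (KD D) x).im : ℝ) : ℂ) = _
  have h1 : (algebraMap F (KD D) x).re = x := rfl
  have h2 : (algebraMap F (KD D) x).im = 0 := rfl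
  rw [h1, h2, map_zero]
  simp

/-- `mt D t g` is an isometry of the hermitian form at the place `t`. -/
lemma mt_isU (D : Dat F) (t : F →+* ℝ) {g : SG D} (hg : IsIso D g) :
    IsU ![1, 1, -(t D.bet)] (mt D t g) := by
  have h1 : (mt D t g)ᴴ = ((g.1.map (cj D)).transpose).map (ev D t) := by
    ext i j
    rw [conjTranspose_apply, mt, map_apply, map_apply, transpose_apply, map_apply, ev_cj]
    rfl
  have h2 : HM ![1, 1, -(t D.bet)] = (Hm D).map (ev D t) := by
    unfold HM Hm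
    rw [diagonal_map (map_zero _)]
    congr 1
    funext i
    fin_cases i
    · simp
    · simp
    · show (((-(t D.bet) : ℝ)) : ℂ) = ev D t (-(algebraMap F (KD D) D.bet))
      rw [map_neg, ev_algebraMap, Complex.ofReal_neg]
  unfold IsU
  unfold IsIso at hg
  rw [h1, h2, mt, ← Matrix.map_mul, ← Matrix.map_mul, hg]

lemma mt_t0_isU (D : Dat F) {g : SG D} (hg : IsIso D g) : IsU (hh D) (mt D D.t0 g) :=
  mt_isU D D.t0 hg

lemma mt_det (D : Dat F) (t : F →+* ℝ) (g : SG D) : (mt D t g).det = 1 := by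
  have h1 : (mt D t g).det = ev D t (g.1.det) := ((ev D t).map_det g.1).symm
  rw [h1, g.2, map_one]

lemma mt_mul (D : Dat F) (t : F →+* ℝ) (g k : SG D) : mt D t (g * k) = mt D t g * mt D t k := by
  show (g.1 * k.1).map (ev D t) = _
  rw [Matrix.map_mul]
  rfl

lemma mt_one (D : Dat F) (t : F →+* ℝ) : mt D t 1 = 1 := by
  show (1 : Matrix (Fin 3) (Fin 3) (KD D)).map (ev D t) = 1
  rw [Matrix.map_one _ (map_zero _) (map_one _)]

/-- The pullback of 1-forms is the transpose of the derivative of the action. -/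
lemma pull1_eq (D : Dat F) (g : SG D) (z : ℂ × ℂ) (hj : jj (mt D D.t0 g) z ≠ 0) (p : ℂ × ℂ) :
    pull1 D g z p =
      ((p.1 * MM (mt D D.t0 g) z 0 0 + p.2 * MM (mt D D.t0 g) z 1 0) / jj (mt D D.t0 g) z,
       (p.1 * MM (mt D D.t0 g) z 0 1 + p.2 * MM (mt D D.t0 g) z 1 1) / jj (mt D D.t0 g) z) := by
  have e := mulVec_zh hj
  have e0 : num D g z 0 = jj (mt D D.t0 g) z * (act (mt D D.t0 g) z).1 := congrFun e 0
  have e1 : num D g z 1 = jj (mt D D.t0 g) z * (act (mt D D.t0 g) z).2 := congrFun e 1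
  have e2 : num D g z 2 = jj (mt D D.t0 g) z := rfl
  unfold pull1
  simp only [e0, e1, e2, MM, Matrix.of_apply, Matrix.cons_val', Matrix.cons_val_zero,
    Matrix.cons_val_one, Matrix.cons_val_fin_one]
  refine Prod.ext ?_ ?_
  · show _ / _ = _ / _
    rw [div_eq_div_iff (pow_ne_zero 2 hj) hj]
    ring
  · show _ / _ = _ / _
    rw [div_eq_div_iff (pow_ne_zero 2 hj) hj]
    ring

/-- The action of the group on the ball: nonvanishing of the automorphy factor. -/
theorem num_two_ne_zero (D : Dat F) {g : SG D} (hg : IsIso D g) {z : ℂ × ℂ} (hz : z ∈ Ball D) :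
    num D g z 2 ≠ 0 := by
  rw [Ball_eq] at hz
  exact jj_ne_zero (hh_zero_pos D) (hh_one_pos D) (mt_t0_isU D hg) hz

theorem act_mem_Ball (D : Dat F) {g : SG D} (hg : IsIso D g) {z : ℂ × ℂ} (hz : z ∈ Ball D) :
    CMT.act D g z ∈ Ball D := by
  rw [Ball_eq] at hz ⊢
  exact act_mem (hh_zero_pos D) (hh_one_pos D) (mt_t0_isU D hg) hz

theorem act_mul_Ball (D : Dat F) (g : SG D) {k : SG D} (hk : IsIso D k) {z : ℂ × ℂ}
    (hz : z ∈ Ball D) : CMT.act D (g * k) z = CMT.act D g (CMT.act D k z) := by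
  have hj := num_two_ne_zero D hk hz
  rw [act_eq, act_eq, act_eq, mt_mul]
  exact act_mul _ _ hj

theorem act_one_Ball (D : Dat F) (z : ℂ × ℂ) : CMT.act D 1 z = z := by
  rw [act_eq, mt_one]
  exact act_one z

theorem num_two_mul (D : Dat F) (g : SG D) {k : SG D} (hk : IsIso D k) {z : ℂ × ℂ}
    (hz : z ∈ Ball D) : num D (g * k) z 2 = num D g (CMT.act D k z) 2 * num D k z 2 := by
  have hj := num_two_ne_zero D hk hz
  rw [num_two_eq, num_two_eq, num_two_eq, mt_mul]
  exact jj_mul _ _ hj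

theorem hasFDerivAt_act_Ball (D : Dat F) {g : SG D} (hg : IsIso D g) {z : ℂ × ℂ}
    (hz : z ∈ Ball D) : HasFDerivAt (CMT.act D g) (dact (mt D D.t0 g) z) z :=
  hasFDerivAt_act (num_two_ne_zero D hg hz)

end

end CMT.B
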