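import Pool.Agent.Lib.CMT.B.IfaceB

/-!
# PROJECT CMT, part B: the coordinates are surjective (`S_cXY`)
-/

set_option autoImplicit false

open scoped BigOperators ComplexConjugate
open Matrix NumberField

noncomputable section

namespace CMT.B

namespace CXYAux

variable {F : Type} [Field F] [NumberField F]

private theorem exists_trace (c : Jx F → ℚ) : ∃ u : F, ∀ j, Algebra.trace ℚ F (eb F j * u) = c j := by
  have hB : (Algebra.traceForm ℚ F).Nondegenerate := traceForm_nondegenerate ℚ F
  refine ⟨∑ i, c i • LinearMap.BilinForm.dualBasis (Algebra.traceForm ℚ F) hB (eb F) i, fun j => ?_⟩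
  have h1 : ∀ i, Algebra.trace ℚ F (eb F j *
      LinearMap.BilinForm.dualBasis (Algebra.traceForm ℚ F) hB (eb F) i) = if j = i then 1 else 0 := by
    intro i
    have h2 := LinearMap.BilinForm.apply_dualBasis_left hB (eb F) i j
    rw [Algebra.traceForm_apply, mul_comm] at h2
    exact h2
  rw [Finset.mul_sum, map_sum]
  have h3 : ∀ i, Algebra.trace ℚ F (eb F j * c i •
      LinearMap.BilinForm.dualBasis (Algebra.traceForm ℚ F) hB (eb F) i) = if j = i then c i else 0 := by
    intro i
    rw [mul_smul_comm, map_smul, h1 i, smul_eq_mul]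
    split_ifs <;> simp
  rw [Finset.sum_congr rfl fun i _ => h3 i, Finset.sum_ite_eq, if_pos (Finset.mem_univ j)]

private theorem hF_ne (D : Dat F) (i : Fin 3) : hF D i ≠ 0 := by
  have hb : D.bet ≠ 0 := by
    intro h
    have h1 := D.bet_pos
    rw [h, map_zero] at h1
    exact lt_irrefl _ h1
  fin_cases i
  · exact one_ne_zero
  · exact one_ne_zero
  · exact neg_ne_zero.2 hb

end CXYAux

open CXYAux in
theorem pcXY : S_cXY := by
  intro F _ _ D a ha
  refine ⟨fun X => ?_, fun Y => ?_⟩
  · refine ⟨fun i => (eb F).equivFun.symm fun j => X (i, j), ?_⟩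
    funext p
    show (eb F).repr ((eb F).equivFun.symm fun j => X (p.1, j)) p.2 = X p
    rw [← Module.Basis.equivFun_apply, LinearEquiv.apply_symm_apply]
  · choose u hu using fun i : Fin 3 => exists_trace (F := F) fun j => Y (i, j)
    refine ⟨fun i => -(u i / (a * hF D i)), ?_⟩
    funext p
    show -Algebra.trace ℚ F (eb F p.2 * (a * hF D p.1 * -(u p.1 / (a * hF D p.1)))) = Y p
    have h1 : a * hF D p.1 * -(u p.1 / (a * hF D p.1)) = -u p.1 := by
      rw [mul_neg, mul_div_cancel₀ _ (mul_ne_zero ha (hF_ne D p.1))]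
    rw [h1, mul_neg, map_neg, neg_neg, hu]

end CMT.B
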