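import Pool.Agent.Lib.CMT.B.IfaceB

/-!
# PROJECT CMT, part B, module Card: number and independence of the embeddings
-/

set_option autoImplicit false

open scoped BigOperators ComplexConjugate
open Matrix NumberField

noncomputable section

namespace CMT.B

namespace Card_aux

variable {F : Type} [Field F] [NumberField F]

private def toC (t : F →+* ℝ) : F →+* ℂ := Complex.ofRealHom.comp t

omit [NumberField F] in
private lemma toC_apply (t : F →+* ℝ) (x : F) : toC t x = ((t x : ℝ) : ℂ) := rfl

private lemma toC_inj : Function.Injective (toC (F := F)) := by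
  intro s t h
  ext x
  have h1 := RingHom.congr_fun h x
  rw [toC_apply, toC_apply] at h1
  exact_mod_cast h1

private lemma toC_surj [IsTotallyReal F] : Function.Surjective (toC (F := F)) := by
  intro σ
  have hr : ComplexEmbedding.IsReal σ := IsTotallyReal.complexEmbedding_isReal σ
  refine ⟨hr.embedding, ?_⟩
  ext x
  rw [toC_apply]
  exact ComplexEmbedding.IsReal.coe_embedding_apply hr x

end Card_aux

open Card_aux in
theorem pCard : S_Card := by
  intro F _ _ _
  refine ⟨?_, fun c h => ?_⟩
  · have h1 : Fintype.card (F →+* ℝ) = Fintype.card (F →+* ℂ) :=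
      Fintype.card_of_bijective ⟨toC_inj, toC_surj⟩
    rw [h1, NumberField.Embeddings.card F ℂ]
    exact Module.finrank_eq_card_basis (integralBasis F)
  · have key : ∀ x : F, ∑ t : F →+* ℝ, ((t x : ℝ) : ℂ) * c t = 0 := by
      intro x
      let L : F →+ ℂ :=
        { toFun := fun x => ∑ t : F →+* ℝ, ((t x : ℝ) : ℂ) * c t
          map_zero' := by simp
          map_add' := by
            intro x y
            simp only [map_add, Complex.ofReal_add, add_mul, Finset.sum_add_distrib] }
      have h1 : L.toRatLinearMap = 0 := (eb F).ext fun j => h j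
      exact congrArg (fun l : F →ₗ[ℚ] ℂ => l x) h1
    have hli : LinearIndependent ℂ (fun t : F →+* ℝ => ((toC t : F →* ℂ) : F → ℂ)) := by
      have h1 := (linearIndependent_monoidHom F ℂ).comp
        (fun t : F →+* ℝ => (toC t : F →* ℂ)) ?_
      · exact h1
      · intro s t hst
        apply toC_inj
        ext x
        exact DFunLike.congr_fun hst x
    rw [Fintype.linearIndependent_iff] at hli
    funext t
    refine hli c ?_ t
    funext x
    rw [Finset.sum_apply, Pi.zero_apply, ← key x]
    refine Finset.sum_congr rfl fun t _ => ?_
    rw [Pi.smul_apply, smul_eq_mul, mul_comm]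
    rfl

end CMT.B
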