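import Pool.Agent.Lib.CMT.B.IfaceB

/-!
# PROJECT CMT, part B: the theta gradient as a derivative (`S_Der`)
-/

set_option autoImplicit false

open scoped BigOperators ComplexConjugate
open Matrix NumberField

noncomputable section

namespace CMT.B

namespace DerSAux

variable {F : Type} [Field F] [NumberField F]

theorem ew_ite (D : Dat F) (v : Fin 3 → ℂ) (p : Ix F) :
    Ew (fun t => if t = D.t0 then v else 0) p = ((D.t0 (eb F p.2) : ℝ) : ℂ) * v p.1 := by
  unfold Ew
  rw [Finset.sum_eq_single D.t0]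
  · change _ * (if D.t0 = D.t0 then v else 0) p.1 = _
    rw [if_pos rfl]
  · intro t _ ht
    change _ * (if t = D.t0 then v else 0) p.1 = _
    rw [if_neg ht]
    exact mul_zero _
  · intro h
    exact absurd (Finset.mem_univ _) h

theorem ew_smul (D : Dat F) (u : Fin 3 → ℂ) (τ : ℂ) :
    Ew (fun t => if t = D.t0 then τ • u else 0) = τ • Ew (fun t => if t = D.t0 then u else 0) := by
  funext p
  rw [Pi.smul_apply, ew_ite, ew_ite, Pi.smul_apply, smul_eq_mul, smul_eq_mul]
  ring

theorem lin (D : Dat F) (N : ℕ) (m : Ix F → ℤ) (u : Fin 3 → ℂ) :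
    (∑ p, (m p : ℂ) * Ew (fun t => if t = D.t0 then u else 0) p) / N =
      ∑ i, (rx D.t0 (xm N m) i : ℂ) * u i := by
  rw [Fintype.sum_prod_type, Finset.sum_div]
  refine Finset.sum_congr rfl fun i _ => ?_
  have h : (rx D.t0 (xm N m) i : ℝ) = (N : ℝ)⁻¹ * ∑ j, ((m (i, j) : ℤ) : ℝ) * D.t0 (eb F j) := by
    unfold rx xm
    rw [map_mul, map_inv₀, map_natCast, map_sum]
    congr 1
    refine Finset.sum_congr rfl fun j _ => ?_
    rw [map_mul, map_intCast]
  rw [h, Complex.ofReal_mul, Complex.ofReal_sum, Complex.ofReal_inv, Complex.ofReal_natCast,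
    div_eq_inv_mul, mul_assoc, Finset.sum_mul]
  congr 1
  refine Finset.sum_congr rfl fun j _ => ?_
  rw [ew_ite, Complex.ofReal_mul, Complex.ofReal_intCast]
  ring

end DerSAux

open DerSAux in
theorem pDer (hRei : S_Rei) (hPhz : S_Phz) (hExp : S_Exp) (hDerTh : S_DerTh) (hHz : S_Hz) :
    S_Der := by
  intro F _ _ _ D a ha N hN φ hφ z hz u
  obtain ⟨hsym, hpos⟩ := hHz F D a ha z hz
  have h := hDerTh (Ix F) N hN (ZZ D a z) hsym hpos (phZ N φ)
    (Ew fun t => if t = D.t0 then u else 0)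
  have e1 : (fun τ : ℂ => th N (phZ N φ) (ZZ D a z) (Ew fun t => if t = D.t0 then τ • u else 0)) =
      fun τ : ℂ => th N (phZ N φ) (ZZ D a z) (τ • Ew fun t => if t = D.t0 then u else 0) := by
    funext τ
    rw [ew_smul]
  have e2 : 2 * (Real.pi : ℂ) * Complex.I * Du D a φ z u =
      ∑' m : Ix F → ℤ, phZ N φ (fun p => (m p : ZMod (N ^ 2))) *
          Complex.exp (Real.pi * Complex.I * (∑ p, ∑ q, (m p : ℂ) * ZZ D a z p q * (m q : ℂ)) /
            (N : ℂ) ^ 2) * (2 * Real.pi * Complex.I *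
              (∑ p, (m p : ℂ) * Ew (fun t => if t = D.t0 then u else 0) p) / N) := by
    unfold Du
    rw [(hRei F N hN).2.2 (fun x => φ x * tm1 D a x z * ∑ i, (rx D.t0 x i : ℂ) * u i)
      (fun x hx => hφ.1 x (left_ne_zero_of_mul (left_ne_zero_of_mul hx))), ← tsum_mul_left]
    refine tsum_congr fun m => ?_
    rw [hPhz F N hN φ hφ m, hExp F D a ha N hN z hz m, ← lin D N m u]
    unfold tm1
    ring
  rw [e1, e2]
  exact h

end CMT.B
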