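import Pool.Agent.Lib.CMT.B.IfaceB
import Pool.Agent.Lib.CMT.C.Lat
import Pool.Agent.Lib.CMT.A.Gau

/-!
# PROJECT CMT, part B: the derivative of the theta series (helper95)
-/

set_option autoImplicit false

open scoped BigOperators ComplexConjugate
open Matrix NumberField

noncomputable section

namespace CMT.B

namespace DerThAux

theorem coer {ι : Type} [Fintype ι] [DecidableEq ι] {Z : Matrix ι ι ℂ} (hZ : Zᵀ = Z)
    (hpos : ∀ v : ι → ℝ, v ≠ 0 → 0 < ∑ p, ∑ q, v p * (Z p q).im * v q) :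
    ∃ c : ℝ, 0 < c ∧ ∀ v : ι → ℝ, c * ∑ p, v p ^ 2 ≤ ∑ p, ∑ q, v p * (Z p q).im * v q := by
  have e : ∀ v : ι → ℝ, v ⬝ᵥ (Z.map Complex.im) *ᵥ v = ∑ p, ∑ q, v p * (Z p q).im * v q := by
    intro v
    simp only [dotProduct, Matrix.mulVec, Matrix.map_apply, Finset.mul_sum]
    exact Finset.sum_congr rfl fun p _ => Finset.sum_congr rfl fun q _ => by ring
  have hA : (Z.map Complex.im).PosDef := by
    refine Matrix.PosDef.of_dotProduct_mulVec_pos ?_ fun x hx => ?_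
    · ext i j
      rw [Matrix.conjTranspose_apply, Matrix.map_apply, Matrix.map_apply, star_trivial,
        ← Matrix.transpose_apply Z, hZ]
    · rw [star_trivial, e]
      exact hpos x hx
  obtain ⟨c, hc, h⟩ := Pool.Agent.CMT.posDef_coercive hA
  exact ⟨c, hc, fun v => by rw [← e]; exact h v⟩

/-- the term -/
def tm {ι : Type} [Fintype ι] (N : ℕ) (φ : (ι → ZMod (N ^ 2)) → ℂ) (Z : Matrix ι ι ℂ) (w : ι → ℂ)
    (m : ι → ℤ) (τ : ℂ) : ℂ :=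
  φ (fun p => (m p : ZMod (N ^ 2))) *
    Complex.exp (Real.pi * Complex.I * (∑ p, ∑ q, (m p : ℂ) * Z p q * (m q : ℂ)) / (N : ℂ) ^ 2
      + 2 * Real.pi * Complex.I * (∑ p, (m p : ℂ) * (τ • w) p) / N)

theorem tm_deriv {ι : Type} [Fintype ι] (N : ℕ) (φ : (ι → ZMod (N ^ 2)) → ℂ) (Z : Matrix ι ι ℂ)
    (w : ι → ℂ) (m : ι → ℤ) (τ : ℂ) : HasDerivAt (tm N φ Z w m)
      (tm N φ Z w m τ * (2 * Real.pi * Complex.I * (∑ p, (m p : ℂ) * w p) / N)) τ := by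
  unfold tm
  have e : ∀ τ : ℂ, (Real.pi * Complex.I * (∑ p, ∑ q, (m p : ℂ) * Z p q * (m q : ℂ)) / (N : ℂ) ^ 2
      + 2 * Real.pi * Complex.I * (∑ p, (m p : ℂ) * (τ • w) p) / N) =
      Real.pi * Complex.I * (∑ p, ∑ q, (m p : ℂ) * Z p q * (m q : ℂ)) / (N : ℂ) ^ 2 +
        τ * (2 * Real.pi * Complex.I * (∑ p, (m p : ℂ) * w p) / N) := by
    intro τ
    have : (∑ p, (m p : ℂ) * (τ • w) p) = τ * ∑ p, (m p : ℂ) * w p := by
      rw [Finset.mul_sum]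
      refine Finset.sum_congr rfl fun p _ => ?_
      rw [Pi.smul_apply, smul_eq_mul]
      ring
    rw [this]
    ring
  simp only [e]
  have h := (((hasDerivAt_id τ).mul_const (2 * Real.pi * Complex.I * (∑ p, (m p : ℂ) * w p) / (N : ℂ))).const_add
    (Real.pi * Complex.I * (∑ p, ∑ q, (m p : ℂ) * Z p q * (m q : ℂ)) / (N : ℂ) ^ 2)).cexp.const_mul
      (φ (fun p => (m p : ZMod (N ^ 2))))
  refine h.congr_deriv ?_
  simp only [id, one_mul]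
  ring

theorem bound {ι : Type} [Fintype ι] [DecidableEq ι] {N : ℕ} (hN : 0 < N) {Z : Matrix ι ι ℂ}
    {c : ℝ} (hc : 0 < c)
    (h : ∀ v : ι → ℝ, c * ∑ p, v p ^ 2 ≤ ∑ p, ∑ q, v p * (Z p q).im * v q)
    (φ : (ι → ZMod (N ^ 2)) → ℂ) (w : ι → ℂ) :
    ∃ (A c' : ℝ), 0 < c' ∧ ∀ (m : ι → ℤ) (τ : ℂ), ‖τ‖ < 1 →
      ‖tm N φ Z w m τ‖ ≤ A * Real.exp (-c' * ∑ p, (m p : ℝ) ^ 2) := by
  have hN0 : NeZero (N ^ 2) := ⟨by positivity⟩
  obtain ⟨B, hB⟩ := (Set.finite_range (fun c => ‖φ c‖)).bddAbove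
  have hB' : ∀ c, ‖φ c‖ ≤ B := fun c => hB ⟨c, rfl⟩
  have hNr : (0 : ℝ) < N := by exact_mod_cast hN
  have hpi := Real.pi_pos
  set d : ℝ := Real.pi * c / N ^ 2 with hd
  have hd0 : 0 < d := by positivity
  set K : ℝ := ∑ p, (2 * Real.pi * ‖w p‖ / N) ^ 2 / (2 * d) with hK
  refine ⟨B * Real.exp K, d / 2, by positivity, fun m τ hτ => ?_⟩
  unfold tm
  have e0 : B * Real.exp K * Real.exp (-(d / 2) * ∑ p, (m p : ℝ) ^ 2) =
      B * Real.exp (K + -(d / 2) * ∑ p, (m p : ℝ) ^ 2) := by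
    rw [Real.exp_add]; ring
  rw [norm_mul, Complex.norm_exp, e0]
  refine mul_le_mul (hB' _) (Real.exp_le_exp.2 ?_) (Real.exp_pos _).le ((norm_nonneg _).trans (hB' 0))
  have e1 : (Real.pi * Complex.I * (∑ p, ∑ q, (m p : ℂ) * Z p q * (m q : ℂ)) / (N : ℂ) ^ 2).re =
      -(Real.pi / N ^ 2 * ∑ p, ∑ q, (m p : ℝ) * (Z p q).im * (m q : ℝ)) := by
    have e : (Real.pi * Complex.I * (∑ p, ∑ q, (m p : ℂ) * Z p q * (m q : ℂ)) / (N : ℂ) ^ 2) =
        ((Real.pi / N ^ 2 : ℝ) : ℂ) * (Complex.I * (∑ p, ∑ q, (m p : ℂ) * Z p q * (m q : ℂ))) := by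
      push_cast
      ring
    rw [e, Complex.re_ofReal_mul, Complex.I_mul_re, Complex.im_sum, mul_neg]
    congr 2
    refine Finset.sum_congr rfl fun p _ => ?_
    rw [Complex.im_sum]
    refine Finset.sum_congr rfl fun q _ => ?_
    have : ((m p : ℂ) * Z p q * (m q : ℂ)) = (((m p : ℝ) * (m q : ℝ) : ℝ) : ℂ) * Z p q := by
      push_cast; ring
    rw [this, Complex.im_ofReal_mul]
    ring
  have e2 : (2 * Real.pi * Complex.I * (∑ p, (m p : ℂ) * (τ • w) p) / (N : ℂ)).re ≤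
      ∑ p, |(m p : ℝ)| * (2 * Real.pi * ‖w p‖ / N) := by
    refine (Complex.re_le_norm _).trans ?_
    rw [norm_div, norm_mul, norm_mul, norm_mul, Complex.norm_I, Complex.norm_natCast, Complex.norm_real,
      Real.norm_of_nonneg hpi.le, Complex.norm_ofNat, mul_one]
    have h1 : ‖∑ p, (m p : ℂ) * (τ • w) p‖ ≤ ∑ p, |(m p : ℝ)| * ‖w p‖ := by
      refine (norm_sum_le _ _).trans (Finset.sum_le_sum fun p _ => ?_)
      rw [norm_mul, Complex.norm_intCast, Pi.smul_apply, smul_eq_mul, norm_mul]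
      refine mul_le_mul_of_nonneg_left ?_ (abs_nonneg _)
      calc ‖τ‖ * ‖w p‖ ≤ 1 * ‖w p‖ := mul_le_mul_of_nonneg_right hτ.le (norm_nonneg _)
        _ = ‖w p‖ := one_mul _
    calc 2 * Real.pi * ‖∑ p, (m p : ℂ) * (τ • w) p‖ / N
        ≤ 2 * Real.pi * (∑ p, |(m p : ℝ)| * ‖w p‖) / N := by gcongr
      _ = ∑ p, |(m p : ℝ)| * (2 * Real.pi * ‖w p‖ / N) := by
          rw [Finset.mul_sum, Finset.sum_div]
          exact Finset.sum_congr rfl fun p _ => by ring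
  rw [Complex.add_re, e1]
  have e3 : c * ∑ p, (m p : ℝ) ^ 2 ≤ ∑ p, ∑ q, (m p : ℝ) * (Z p q).im * (m q : ℝ) := h fun p => (m p : ℝ)
  have e4 : Real.pi / N ^ 2 * (c * ∑ p, (m p : ℝ) ^ 2) ≤
      Real.pi / N ^ 2 * ∑ p, ∑ q, (m p : ℝ) * (Z p q).im * (m q : ℝ) :=
    mul_le_mul_of_nonneg_left e3 (by positivity)
  have e5 : Real.pi / N ^ 2 * (c * ∑ p, (m p : ℝ) ^ 2) = d * ∑ p, (m p : ℝ) ^ 2 := by
    rw [hd]; ring
  have e6 : ∑ p, |(m p : ℝ)| * (2 * Real.pi * ‖w p‖ / N) ≤ d / 2 * ∑ p, (m p : ℝ) ^ 2 + K := by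
    rw [hK, Finset.mul_sum, ← Finset.sum_add_distrib]
    refine Finset.sum_le_sum fun p _ => ?_
    set s : ℝ := |(m p : ℝ)| with hs
    set r : ℝ := 2 * Real.pi * ‖w p‖ / N with hr
    have hs2 : (m p : ℝ) ^ 2 = s ^ 2 := by rw [hs, sq_abs]
    rw [hs2]
    have h3 : d / 2 * s ^ 2 + r ^ 2 / (2 * d) - s * r = (d * s - r) ^ 2 / (2 * d) := by
      field_simp
      ring
    have h4 : 0 ≤ (d * s - r) ^ 2 / (2 * d) := by positivity
    linarith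
  linarith

end DerThAux

open DerThAux in
theorem pDerTh : S_DerTh := by
  intro ι _ _ N hN Z hZ hpos φ w
  obtain ⟨c, hc, h⟩ := coer hZ hpos
  obtain ⟨A, c', hc', hb⟩ := bound hN hc h φ w
  have hu : Summable fun m : ι → ℤ => A * Real.exp (-c' * ∑ p, (m p : ℝ) ^ 2) :=
    (summable_exp_neg_sq_pi c' hc').mul_left A
  have hd : ∀ m : ι → ℤ, DifferentiableOn ℂ (tm N φ Z w m) (Metric.ball 0 1) := fun m τ _ =>
    (tm_deriv N φ Z w m τ).differentiableAt.differentiableWithinAt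
  have hle : ∀ (m : ι → ℤ) (τ : ℂ), τ ∈ Metric.ball (0 : ℂ) 1 →
      ‖tm N φ Z w m τ‖ ≤ A * Real.exp (-c' * ∑ p, (m p : ℝ) ^ 2) := fun m τ hτ =>
    hb m τ (by simpa using hτ)
  have h0 : (0 : ℂ) ∈ Metric.ball (0 : ℂ) 1 := Metric.mem_ball_self one_pos
  have k1 := Complex.differentiableOn_tsum_of_summable_norm hu hd Metric.isOpen_ball hle
  have k2 := Complex.hasSum_deriv_of_summable_norm hu hd Metric.isOpen_ball hle h0
  have k3 := (k1.differentiableAt (Metric.isOpen_ball.mem_nhds h0)).hasDerivAt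
  rw [← k2.tsum_eq] at k3
  refine k3.congr_deriv (tsum_congr fun m => ?_)
  rw [(tm_deriv N φ Z w m 0).deriv]
  unfold tm
  simp

end CMT.B
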