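import Pool.Agent.Lib.CMT.B.IfaceB

/-!
# PROJECT CMT, part B: the theta form in terms of the theta gradient
-/

set_option autoImplicit false

open scoped BigOperators ComplexConjugate
open Matrix NumberField

noncomputable section

namespace CMT.B

private theorem s2_eq_mm {F : Type} [Field F] [NumberField F] (D : Dat F) (z : ℂ × ℂ) :
    s2 (hh D) z = mm (D.t0 D.bet) z := by
  simp only [s2, mm, hh_zero, hh_one, hh_two]
  push_cast
  ring

private theorem mm_ne {F : Type} [Field F] [NumberField F] (D : Dat F) {z : ℂ × ℂ}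
    (hz : z ∈ Ball D) : mm (D.t0 D.bet) z ≠ 0 := by
  rw [← s2_eq_mm]
  rw [Ball_eq] at hz
  exact s2_ne_zero (hh_zero_pos D) (hh_one_pos D) hz

theorem pDu : S_Du := by
  intro F _ _ D a _ φ z hz
  have hm : mm (D.t0 D.bet) z ≠ 0 := mm_ne D hz
  have hs : ss (D.t0 D.bet) z ≠ 0 := by
    unfold ss
    rw [Complex.cpow_ne_zero_iff]
    exact Or.inl hm
  constructor
  · simp only [om, Du]
    rw [← tsum_mul_left]
    refine tsum_congr fun x => ?_
    have e : (ka D a * ss (D.t0 D.bet) z) * (du (D.t0 D.bet) (rx D.t0 x) z).1 =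
        ∑ i, (rx D.t0 x i : ℂ) * Nm (ka D a) (hh D) z i 0 := by
      simp only [Fin.sum_univ_three, Nm, Matrix.of_apply, s2_eq_mm, hh_zero, hh_one, hh_two, zh,
        du, ll, Matrix.cons_val_zero, Matrix.cons_val_one, Matrix.cons_val]
      simp
      field_simp
      ring
    rw [← e]
    ring
  · simp only [om, Du]
    rw [← tsum_mul_left]
    refine tsum_congr fun x => ?_
    have e : (ka D a * ss (D.t0 D.bet) z) * (du (D.t0 D.bet) (rx D.t0 x) z).2 =
        ∑ i, (rx D.t0 x i : ℂ) * Nm (ka D a) (hh D) z i 1 := by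
      simp only [Fin.sum_univ_three, Nm, Matrix.of_apply, s2_eq_mm, hh_zero, hh_one, hh_two, zh,
        du, ll, Matrix.cons_val_zero, Matrix.cons_val_one, Matrix.cons_val]
      simp
      field_simp
      ring
    rw [← e]
    ring

end CMT.B
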