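import Pool.Agent.Lib.CMT.B.IfaceB

/-!
# PROJECT CMT, part B: the coordinates and `Ew` (`S_EX`)
-/

set_option autoImplicit false

open scoped BigOperators ComplexConjugate
open Matrix NumberField

noncomputable section

namespace CMT.B

/-- The coordinates of `x` paired with the values of the integral basis at `t`. -/
private theorem EX_repr {F : Type} [Field F] [NumberField F] (t : F →+* ℝ) (x : F) :
    ∑ j, ((t (eb F j) : ℝ) : ℂ) * (((eb F).repr x j : ℚ) : ℂ) = ((t x : ℝ) : ℂ) := by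
  have h1 : t x = ∑ j, t (eb F j) * (((eb F).repr x j : ℚ) : ℝ) := by
    have h2 := congrArg t ((eb F).sum_repr x)
    rw [← h2, map_sum]
    refine Finset.sum_congr rfl (fun j _ => ?_)
    rw [Rat.smul_def, map_mul, map_ratCast, mul_comm]
  rw [h1, Complex.ofReal_sum]
  refine Finset.sum_congr rfl (fun j _ => ?_)
  rw [Complex.ofReal_mul, Complex.ofReal_ratCast]

private theorem EX_hF {F : Type} [Field F] [NumberField F] (D : Dat F) (t : F →+* ℝ) (i : Fin 3) :
    t (hF D i) = ht D t i := by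
  fin_cases i
  · exact map_one t
  · exact map_one t
  · exact map_neg t _

/-- **The coordinates and `Ew`.** -/
theorem pEX (hTr : S_Tr) : S_EX := by
  intro F _ _ _ D a z x y
  funext p
  have hX : (Zb (Zt D a z) *ᵥ fun q => ((cX x q : ℚ) : ℂ)) p =
      ∑ t : F →+* ℝ, ((t (eb F p.2) : ℝ) : ℂ) *
        (Zt D a z t *ᵥ fun l => ((t (x l) : ℝ) : ℂ)) p.1 := by
    have e1 : (Zb (Zt D a z) *ᵥ fun q => ((cX x q : ℚ) : ℂ)) p =
        ∑ q : Ix F, ∑ t : F →+* ℝ, ((t (eb F p.2) : ℝ) : ℂ) * Zt D a z t p.1 q.1 *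
          ((t (eb F q.2) : ℝ) : ℂ) * ((cX x q : ℚ) : ℂ) := by
      rw [Matrix.mulVec, dotProduct]
      refine Finset.sum_congr rfl (fun q _ => ?_)
      rw [Zb, Matrix.of_apply, Finset.sum_mul]
    rw [e1, Finset.sum_comm]
    refine Finset.sum_congr rfl (fun t _ => ?_)
    rw [Matrix.mulVec, dotProduct, Finset.mul_sum, Fintype.sum_prod_type]
    refine Finset.sum_congr rfl (fun l _ => ?_)
    rw [← EX_repr t (x l), Finset.mul_sum, Finset.mul_sum]
    refine Finset.sum_congr rfl (fun j _ => ?_)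
    show ((t (eb F p.2) : ℝ) : ℂ) * Zt D a z t p.1 l * ((t (eb F j) : ℝ) : ℂ) *
      (((eb F).repr (x l) j : ℚ) : ℂ) = _
    ring
  have hY : ((cY D a y p : ℚ) : ℂ) =
      ∑ t : F →+* ℝ, -(((t (eb F p.2) : ℝ) : ℂ) *
        ((t a * (ht D t p.1 * t (y p.1)) : ℝ) : ℂ)) := by
    have e1 := hTr F (eb F p.2 * (a * hF D p.1 * y p.1))
    have e2 : ((cY D a y p : ℚ) : ℝ) =
        ∑ t : F →+* ℝ, -(t (eb F p.2) * (t a * (ht D t p.1 * t (y p.1)))) := by
      rw [cY, Rat.cast_neg, e1, ← Finset.sum_neg_distrib]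
      refine Finset.sum_congr rfl (fun t _ => ?_)
      rw [map_mul, map_mul, map_mul, EX_hF]
      ring
    have e3 : ((cY D a y p : ℚ) : ℂ) = (((cY D a y p : ℚ) : ℝ) : ℂ) :=
      (Complex.ofReal_ratCast _).symm
    rw [e3, e2, Complex.ofReal_sum]
    refine Finset.sum_congr rfl (fun t _ => ?_)
    rw [Complex.ofReal_neg, Complex.ofReal_mul]
  show (Zb (Zt D a z) *ᵥ fun q => ((cX x q : ℚ) : ℂ)) p + ((cY D a y p : ℚ) : ℂ) =
    ∑ t : F →+* ℝ, ((t (eb F p.2) : ℝ) : ℂ) * Wt D a z x y t p.1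
  rw [hX, hY, ← Finset.sum_add_distrib]
  refine Finset.sum_congr rfl (fun t _ => ?_)
  rw [Wt, mul_sub, sub_eq_add_neg]

end CMT.B
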