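import Pool.Agent.Lib.CMT.B.IfaceB

/-!
# PROJECT CMT, part B, module EwS: transport of block diagonal matrices (helper2)
-/

set_option autoImplicit false

open scoped BigOperators ComplexConjugate
open Matrix NumberField

noncomputable section

namespace CMT.B

namespace EwS_aux

variable {F : Type} [Field F] [NumberField F]

/-- The matrix of `Ew` for a numbering of the places. -/
private def PM (e : (F →+* ℝ) ≃ Jx F) : Matrix (Ix F) (Ix F) ℂ :=
  Matrix.of fun p q => if p.1 = q.1 then ((e.symm q.2 (eb F p.2) : ℝ) : ℂ) else 0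

private lemma PM_mulVec (e : (F →+* ℝ) ≃ Jx F) (v : Ix F → ℂ) (i : Fin 3) (j : Jx F) :
    (PM e *ᵥ v) (i, j) = ∑ t : F →+* ℝ, ((t (eb F j) : ℝ) : ℂ) * v (i, e t) := by
  rw [Matrix.mulVec, dotProduct, Fintype.sum_prod_type]
  have h : ∀ l : Fin 3, ∑ j' : Jx F, PM e (i, j) (l, j') * v (l, j') =
      if i = l then ∑ j' : Jx F, ((e.symm j' (eb F j) : ℝ) : ℂ) * v (l, j') else 0 := by
    intro l
    split_ifs with h
    · refine Finset.sum_congr rfl fun j' _ => ?_
      rw [PM, Matrix.of_apply, if_pos h]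
    · refine Finset.sum_eq_zero fun j' _ => ?_
      rw [PM, Matrix.of_apply, if_neg h, zero_mul]
  rw [Finset.sum_congr rfl fun l _ => h l, Finset.sum_ite_eq, if_pos (Finset.mem_univ i)]
  refine (Fintype.sum_equiv e _ _ fun t => ?_).symm
  rw [Equiv.symm_apply_apply]

/-- The vector of `Ix F` of a family of vectors. -/
private def hv (e : (F →+* ℝ) ≃ Jx F) (w : (F →+* ℝ) → Fin 3 → ℂ) : Ix F → ℂ :=
  fun p => w (e.symm p.2) p.1

private lemma Ew_eq (e : (F →+* ℝ) ≃ Jx F) (w : (F →+* ℝ) → Fin 3 → ℂ) :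
    Ew w = PM e *ᵥ hv e w := by
  funext p
  obtain ⟨i, j⟩ := p
  rw [PM_mulVec]
  refine Finset.sum_congr rfl fun t _ => ?_
  rw [hv, Equiv.symm_apply_apply]

private lemma PM_unit (e : (F →+* ℝ) ≃ Jx F)
    (h : ∀ c : (F →+* ℝ) → ℂ, (∀ j, ∑ t : F →+* ℝ, ((t (eb F j) : ℝ) : ℂ) * c t = 0) → c = 0) :
    IsUnit (PM e) := by
  rw [← Matrix.mulVec_injective_iff_isUnit]
  intro v v' hvv
  have h0 : PM e *ᵥ (v - v') = 0 := by
    rw [Matrix.mulVec_sub]
    exact sub_eq_zero.2 hvv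
  have h1 : v - v' = 0 := by
    funext p
    obtain ⟨i, j⟩ := p
    have h2 := h (fun t => (v - v') (i, e t)) (fun j' => by
      rw [← PM_mulVec, h0]
      rfl)
    have h3 := congrFun h2 (e.symm j)
    rwa [Equiv.apply_symm_apply] at h3
  exact sub_eq_zero.1 h1

private lemma blk (e : (F →+* ℝ) ≃ Jx F) (N : (F →+* ℝ) → Matrix (Fin 3) (Fin 3) ℂ)
    (w : (F →+* ℝ) → Fin 3 → ℂ) :
    Matrix.blockDiagonal (fun j => N (e.symm j)) *ᵥ hv e w = hv e fun t => N t *ᵥ w t := by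
  funext p
  obtain ⟨i, j⟩ := p
  rw [Matrix.mulVec, dotProduct, Fintype.sum_prod_type]
  rw [hv, Matrix.mulVec, dotProduct]
  refine Finset.sum_congr rfl fun l _ => ?_
  have h : ∀ j' : Jx F, Matrix.blockDiagonal (fun j => N (e.symm j)) (i, j) (l, j') *
      hv e w (l, j') = if j = j' then N (e.symm j) i l * w (e.symm j) l else 0 := by
    intro j'
    rw [Matrix.blockDiagonal_apply]
    show (if j = j' then N (e.symm j) i l else 0) * hv e w (l, j') = _
    split_ifs with h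
    · rw [hv, h]
    · rw [zero_mul]
  rw [Finset.sum_congr rfl fun j' _ => h j', Finset.sum_ite_eq, if_pos (Finset.mem_univ j)]

end EwS_aux

open EwS_aux in
theorem pEw (hCard : S_Card) : S_Ew := by
  intro F _ _ _ N
  obtain ⟨hc, hi⟩ := hCard F
  have e : (F →+* ℝ) ≃ Jx F := Fintype.equivOfCardEq hc
  have hU := PM_unit e hi
  have hdet : IsUnit (PM e).det := (Matrix.isUnit_iff_isUnit_det _).1 hU
  refine ⟨PM e * Matrix.blockDiagonal (fun j => N (e.symm j)) * (PM e)⁻¹, fun w => ?_, ?_⟩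
  · rw [Ew_eq e, Matrix.mulVec_mulVec, Matrix.nonsing_inv_mul_cancel_right _ _ hdet,
      ← Matrix.mulVec_mulVec, blk, ← Ew_eq]
  · rw [Matrix.det_conj hU, Matrix.det_blockDiagonal]
    exact Fintype.prod_equiv e.symm _ _ fun j => rfl

end CMT.B
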