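import Pool.Agent.Lib.CMT.B.IfaceB

/-!
# PROJECT CMT, part B, module ExpS: the exponents agree
-/

set_option autoImplicit false

namespace CMT.B

open scoped BigOperators ComplexConjugate
open Matrix NumberField

namespace ExpS_aux

/-- The double sum over `Fin 3 × J`. -/
theorem quad {J : Type} [Fintype J] (m : Fin 3 × J → ℂ) (e : J → ℂ) (Z : Matrix (Fin 3) (Fin 3) ℂ) :
    ∑ p : Fin 3 × J, ∑ q : Fin 3 × J, m p * (e p.2 * Z p.1 q.1 * e q.2) * m q =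
      ∑ i, ∑ l, (∑ j, m (i, j) * e j) * Z i l * (∑ k, m (l, k) * e k) := by
  have h1 : ∀ i l : Fin 3, (∑ j, m (i, j) * e j) * Z i l * (∑ k, m (l, k) * e k) =
      ∑ j, ∑ k, m (i, j) * (e j * Z i l * e k) * m (l, k) := by
    intro i l
    rw [Finset.sum_mul, Finset.sum_mul]
    refine Finset.sum_congr rfl fun j _ => ?_
    rw [Finset.mul_sum]
    refine Finset.sum_congr rfl fun k _ => ?_
    ring
  have h2 : ∑ p : Fin 3 × J, ∑ q : Fin 3 × J, m p * (e p.2 * Z p.1 q.1 * e q.2) * m q =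
      ∑ i, ∑ j, ∑ l, ∑ k, m (i, j) * (e j * Z i l * e k) * m (l, k) := by
    rw [Fintype.sum_prod_type]
    refine Finset.sum_congr rfl fun i _ => Finset.sum_congr rfl fun j _ => ?_
    rw [Fintype.sum_prod_type]
  rw [h2]
  refine Finset.sum_congr rfl fun i _ => ?_
  rw [Finset.sum_comm]
  exact Finset.sum_congr rfl fun l _ => (h1 i l).symm

theorem ss_sq (b : ℝ) (z : ℂ × ℂ) : ss b z ^ 2 = mm b z := by
  unfold ss
  rw [one_div]
  exact Complex.cpow_ofNat_inv_pow (mm b z) 2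

theorem uu_sq' (b : ℝ) (x : Fin 3 → ℝ) (z : ℂ × ℂ) : uu b x z ^ 2 = ll b x z ^ 2 / mm b z := by
  unfold uu
  rw [div_pow, ss_sq]

/-- The place `t0`. -/
theorem loc0 (κ N : ℂ) (b : ℝ) (z : ℂ × ℂ) (x : Fin 3 → ℝ) :
    ∑ i, ∑ l, (N * (x i : ℂ)) * Zm κ ![1, 1, -b] z i l * (N * (x l : ℂ)) =
      N ^ 2 * (κ * (((qf b x x : ℝ) : ℂ) + 2 * uu b x z ^ 2)) := by
  have hs : s2 ![1, 1, -b] z = mm b z := by
    simp only [s2, mm, Matrix.cons_val_zero, Matrix.cons_val_one, Matrix.cons_val]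
    push_cast
    ring
  rw [uu_sq']
  simp only [Zm, Matrix.of_apply, Fin.sum_univ_three, hs, zh_zero, zh_one, zh_two, qf, ll]
  simp
  ring

/-- The other places. -/
theorem loc1 (c : ℝ) (N : ℂ) (h x : Fin 3 → ℝ) :
    ∑ i, ∑ l, (N * (x i : ℂ)) * (diagonal (fun i => Complex.I * ((c * h i : ℝ) : ℂ)) :
      Matrix (Fin 3) (Fin 3) ℂ) i l * (N * (x l : ℂ)) =
      N ^ 2 * (Complex.I * ((c * (h 0 * x 0 * x 0 + h 1 * x 1 * x 1 + h 2 * x 2 * x 2) : ℝ) : ℂ)) := by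
  simp only [Fin.sum_univ_three, Matrix.diagonal_apply]
  simp
  ring

end ExpS_aux

open ExpS_aux

theorem pExp : S_Exp := by
  intro F _ _ D a ha N hN z hz m
  have hN' : (N : ℂ) ≠ 0 := Nat.cast_ne_zero.2 hN.ne'
  have hNr : (N : ℝ) ≠ 0 := Nat.cast_ne_zero.2 hN.ne'
  have hrx : ∀ (t : F →+* ℝ) (i : Fin 3), ∑ j, ((m (i, j) : ℤ) : ℂ) * ((t (eb F j) : ℝ) : ℂ) =
      (N : ℂ) * ((rx t (xm N m) i : ℝ) : ℂ) := by
    intro t i
    have h1 : (N : ℝ) * rx t (xm N m) i = ∑ j, ((m (i, j) : ℤ) : ℝ) * t (eb F j) := by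
      unfold rx xm
      rw [map_mul, map_inv₀, map_natCast, map_sum, ← mul_assoc, mul_inv_cancel₀ hNr, one_mul]
      refine Finset.sum_congr rfl fun j _ => ?_
      rw [map_mul, map_intCast]
    have h2 := congrArg (fun r : ℝ => (r : ℂ)) h1
    push_cast at h2
    exact h2.symm
  have hsum : ∑ p, ∑ q, ((m p : ℤ) : ℂ) * ZZ D a z p q * ((m q : ℤ) : ℂ) =
      ∑ t : F →+* ℝ, ∑ i, ∑ l, ((N : ℂ) * ((rx t (xm N m) i : ℝ) : ℂ)) * Zt D a z t i l *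
        ((N : ℂ) * ((rx t (xm N m) l : ℝ) : ℂ)) := by
    have h1 : ∀ p q : Ix F, ((m p : ℤ) : ℂ) * ZZ D a z p q * ((m q : ℤ) : ℂ) =
        ∑ t : F →+* ℝ, ((m p : ℤ) : ℂ) * (((t (eb F p.2) : ℝ) : ℂ) * Zt D a z t p.1 q.1 *
          ((t (eb F q.2) : ℝ) : ℂ)) * ((m q : ℤ) : ℂ) := by
      intro p q
      unfold ZZ Zb
      rw [Matrix.of_apply, Finset.mul_sum, Finset.sum_mul]
    calc ∑ p, ∑ q, ((m p : ℤ) : ℂ) * ZZ D a z p q * ((m q : ℤ) : ℂ)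
        = ∑ p : Ix F, ∑ q : Ix F, ∑ t : F →+* ℝ, ((m p : ℤ) : ℂ) * (((t (eb F p.2) : ℝ) : ℂ) *
            Zt D a z t p.1 q.1 * ((t (eb F q.2) : ℝ) : ℂ)) * ((m q : ℤ) : ℂ) :=
          Finset.sum_congr rfl fun p _ => Finset.sum_congr rfl fun q _ => h1 p q
      _ = ∑ t : F →+* ℝ, ∑ p : Ix F, ∑ q : Ix F, ((m p : ℤ) : ℂ) * (((t (eb F p.2) : ℝ) : ℂ) *
            Zt D a z t p.1 q.1 * ((t (eb F q.2) : ℝ) : ℂ)) * ((m q : ℤ) : ℂ) := by
          rw [Finset.sum_comm]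
          refine (Finset.sum_congr rfl fun q _ => Finset.sum_comm).trans ?_
          rw [Finset.sum_comm]
          exact Finset.sum_congr rfl fun t _ => Finset.sum_comm
      _ = _ := by
          refine Finset.sum_congr rfl fun t _ => ?_
          rw [quad (fun p => ((m p : ℤ) : ℂ)) (fun j => ((t (eb F j) : ℝ) : ℂ)) (Zt D a z t)]
          refine Finset.sum_congr rfl fun i _ => Finset.sum_congr rfl fun l _ => ?_
          rw [hrx t i, hrx t l]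
  have h0 : ∑ i, ∑ l, ((N : ℂ) * ((rx D.t0 (xm N m) i : ℝ) : ℂ)) * Zt D a z D.t0 i l *
      ((N : ℂ) * ((rx D.t0 (xm N m) l : ℝ) : ℂ)) =
      (N : ℂ) ^ 2 * (ka D a * (((qf (D.t0 D.bet) (rx D.t0 (xm N m)) (rx D.t0 (xm N m)) : ℝ) : ℂ) +
        2 * uu (D.t0 D.bet) (rx D.t0 (xm N m)) z ^ 2)) := by
    have e : Zt D a z D.t0 = Zm (ka D a) ![1, 1, -(D.t0 D.bet)] z := if_pos rfl
    rw [e]
    exact loc0 _ _ _ _ _
  have h1 : ∀ t ∈ Finset.univ.erase D.t0, ∑ i, ∑ l, ((N : ℂ) * ((rx t (xm N m) i : ℝ) : ℂ)) *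
      Zt D a z t i l * ((N : ℂ) * ((rx t (xm N m) l : ℝ) : ℂ)) =
      (N : ℂ) ^ 2 * (Complex.I * ((|t a| / Real.sqrt (t D.del) *
        qf (t D.bet) (rx t (xm N m)) (rx t (xm N m)) : ℝ) : ℂ)) := by
    intro t hte
    have e : Zt D a z t = diagonal fun i => Complex.I *
        ((|t a| / Real.sqrt (t D.del) * ht D t i : ℝ) : ℂ) := if_neg (Finset.ne_of_mem_erase hte)
    rw [e, loc1]
    congr 3
    unfold CMT.B.ht qf
    simp only [Matrix.cons_val_zero, Matrix.cons_val_one, Matrix.cons_val]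
    congr 1
    ring
  rw [hsum, ← Finset.add_sum_erase _ _ (Finset.mem_univ D.t0), h0, Finset.sum_congr rfl h1,
    ← Finset.mul_sum, ← Finset.mul_sum, ← mul_add]
  have e1e : ((e1 D a (xm N m) : ℝ) : ℂ) = (Real.pi : ℂ) * ∑ t ∈ Finset.univ.erase D.t0,
      ((|t a| / Real.sqrt (t D.del) * qf (t D.bet) (rx t (xm N m)) (rx t (xm N m)) : ℝ) : ℂ) := by
    unfold e1 kap
    rw [Complex.ofReal_sum, Finset.mul_sum]
    refine Finset.sum_congr rfl fun t _ => ?_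
    rw [← Complex.ofReal_mul]
    congr 1
    ring
  have e0e : e0 D a (xm N m) z = -((Real.pi : ℂ) * Complex.I * ka D a *
      (((qf (D.t0 D.bet) (rx D.t0 (xm N m)) (rx D.t0 (xm N m)) : ℝ) : ℂ) +
        2 * uu (D.t0 D.bet) (rx D.t0 (xm N m)) z ^ 2)) := by
    have e : ((kap D D.t0 * |D.t0 a| : ℝ) : ℂ) = -((Real.pi : ℂ) * Complex.I * ka D a) := by
      unfold kap ka
      rw [abs_of_pos ha]
      have e2 : -((Real.pi : ℂ) * Complex.I * (Complex.I * ((D.t0 a / Real.sqrt (D.t0 D.del) : ℝ) : ℂ))) =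
          ((Real.pi * (D.t0 a / Real.sqrt (D.t0 D.del)) : ℝ) : ℂ) := by
        rw [Complex.ofReal_mul]
        linear_combination (-(Real.pi : ℂ) * ((D.t0 a / Real.sqrt (D.t0 D.del) : ℝ) : ℂ)) * Complex.I_mul_I
      rw [e2]
      congr 1
      ring
    unfold e0
    rw [e]
    ring
  rw [e1e, e0e]
  generalize (∑ t ∈ Finset.univ.erase D.t0,
      ((|t a| / Real.sqrt (t D.del) * qf (t D.bet) (rx t (xm N m)) (rx t (xm N m)) : ℝ) : ℂ)) = S
  generalize (((qf (D.t0 D.bet) (rx D.t0 (xm N m)) (rx D.t0 (xm N m)) : ℝ) : ℂ) +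
        2 * uu (D.t0 D.bet) (rx D.t0 (xm N m)) z ^ 2) = T
  rw [div_eq_iff (pow_ne_zero 2 hN')]
  linear_combination ((Real.pi : ℂ) * (N : ℂ) ^ 2 * S) * Complex.I_mul_I

end CMT.B
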