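import Pool.Agent.Lib.CMT.B.IfaceB
import Pool.Agent.Lib.CMT.C.Term

/-!
PROJECT CMT, part B: the coefficients of the theta forms are holomorphic along complex lines.
-/

set_option autoImplicit false

open scoped BigOperators ComplexConjugate
open Matrix NumberField

noncomputable section

namespace CMT.B

namespace HolAux

theorem diff_fst (z v : ℂ × ℂ) (τ : ℂ) : DifferentiableAt ℂ (fun τ : ℂ => (z + τ • v).1) τ := by
  show DifferentiableAt ℂ (fun τ : ℂ => z.1 + τ * v.1) τ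
  fun_prop

theorem diff_snd (z v : ℂ × ℂ) (τ : ℂ) : DifferentiableAt ℂ (fun τ : ℂ => (z + τ • v).2) τ := by
  show DifferentiableAt ℂ (fun τ : ℂ => z.2 + τ * v.2) τ
  fun_prop

theorem diff_ll (b : ℝ) (x : Fin 3 → ℝ) (z v : ℂ × ℂ) (τ : ℂ) :
    DifferentiableAt ℂ (fun τ : ℂ => ll b x (z + τ • v)) τ := by
  unfold ll
  exact (((diff_fst z v τ).const_mul _).add ((diff_snd z v τ).const_mul _)).sub_const _

theorem diff_mm (b : ℝ) (z v : ℂ × ℂ) (τ : ℂ) :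
    DifferentiableAt ℂ (fun τ : ℂ => mm b (z + τ • v)) τ := by
  unfold mm
  exact (((diff_fst z v τ).pow 2).const_sub _).sub ((diff_snd z v τ).pow 2)

theorem diff_ss (b : ℝ) (z v : ℂ × ℂ) (τ : ℂ) (h : z + τ • v ∈ CMT.ball b) :
    DifferentiableAt ℂ (fun τ : ℂ => ss b (z + τ • v)) τ := by
  unfold ss
  exact (diff_mm b z v τ).cpow (differentiableAt_const _) (mm_slit h)

theorem diff_uu (b : ℝ) (x : Fin 3 → ℝ) (z v : ℂ × ℂ) (τ : ℂ) (h : z + τ • v ∈ CMT.ball b) :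
    DifferentiableAt ℂ (fun τ : ℂ => uu b x (z + τ • v)) τ := by
  unfold uu
  exact (diff_ll b x z v τ).div (diff_ss b z v τ h) (ss_ne h)

theorem diff_du1 (b : ℝ) (x : Fin 3 → ℝ) (z v : ℂ × ℂ) (τ : ℂ) (h : z + τ • v ∈ CMT.ball b) :
    DifferentiableAt ℂ (fun τ : ℂ => (du b x (z + τ • v)).1) τ := by
  unfold du
  exact (((diff_mm b z v τ).const_mul _).add ((diff_ll b x z v τ).mul (diff_fst z v τ))).div
    ((diff_mm b z v τ).mul (diff_ss b z v τ h)) (mul_ne_zero (mm_ne h) (ss_ne h))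

theorem diff_du2 (b : ℝ) (x : Fin 3 → ℝ) (z v : ℂ × ℂ) (τ : ℂ) (h : z + τ • v ∈ CMT.ball b) :
    DifferentiableAt ℂ (fun τ : ℂ => (du b x (z + τ • v)).2) τ := by
  unfold du
  exact (((diff_mm b z v τ).const_mul _).add ((diff_ll b x z v τ).mul (diff_snd z v τ))).div
    ((diff_mm b z v τ).mul (diff_ss b z v τ h)) (mul_ne_zero (mm_ne h) (ss_ne h))

variable {F : Type} [Field F] [NumberField F]

theorem diff_tm1 (D : Dat F) (a : F) (x : Fin 3 → F) (z v : ℂ × ℂ) (τ : ℂ)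
    (h : z + τ • v ∈ CMT.ball (D.t0 D.bet)) :
    DifferentiableAt ℂ (fun τ : ℂ => tm1 D a x (z + τ • v)) τ := by
  unfold tm1 e0
  exact ((((((diff_uu _ (rx D.t0 x) z v τ h).pow 2).const_mul 2).const_add _).const_mul _).const_add
    _).neg.cexp

theorem exists_rho {b : ℝ} (hb : 0 < b) {z : ℂ × ℂ} (hz : z ∈ CMT.ball b) :
    ∃ ρ : ℝ, 0 ≤ ρ ∧ ρ < 1 ∧ z ∈ sball b ρ := by
  have hz' : ‖z.1‖ ^ 2 + ‖z.2‖ ^ 2 < b := hz
  set r := ‖z.1‖ ^ 2 + ‖z.2‖ ^ 2 with hr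
  have hr0 : 0 ≤ r := by positivity
  have h1 : r / b < 1 := (div_lt_one hb).2 hz'
  have h0 : 0 ≤ r / b := by positivity
  refine ⟨Real.sqrt ((r / b + 1) / 2), Real.sqrt_nonneg _, ?_, ?_⟩
  · rw [Real.sqrt_lt' one_pos]
    linarith
  · show ‖z.1‖ ^ 2 + ‖z.2‖ ^ 2 < Real.sqrt ((r / b + 1) / 2) ^ 2 * b
    rw [Real.sq_sqrt (by positivity), ← hr]
    have h2 : r = r / b * b := by field_simp
    have h3 : r / b * b < (r / b + 1) / 2 * b := by
      apply mul_lt_mul_of_pos_right _ hb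
      linarith
    linarith

theorem isOpen_sball (b ρ : ℝ) (z v : ℂ × ℂ) : IsOpen {τ : ℂ | z + τ • v ∈ sball b ρ} := by
  have h1 : Continuous fun τ : ℂ => ‖(z + τ • v).1‖ ^ 2 + ‖(z + τ • v).2‖ ^ 2 := by fun_prop
  exact isOpen_lt h1 continuous_const

theorem hol_aux [IsTotallyReal F] (D : Dat F) (a : F) (ha : a ≠ 0)
    (φ : (Fin 3 → F) → ℂ) (hφ : IsSB φ) (z v : ℂ × ℂ) (τ : ℂ) (hτ : z + τ • v ∈ Ball D) :
    DifferentiableAt ℂ (fun τ : ℂ => (om D a φ (z + τ • v)).1) τ ∧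
      DifferentiableAt ℂ (fun τ : ℂ => (om D a φ (z + τ • v)).2) τ := by
  obtain ⟨ρ, hρ0, hρ1, hρ⟩ := exists_rho D.bet_pos (z := z + τ • v) hτ
  obtain ⟨C, c, hC, hc, hle⟩ := norm_omterm_le D ha hρ0 hρ1
  obtain ⟨N, hN, hSB⟩ := hφ
  have hsum := (hSB.summable hN 1 c hc).mul_left C
  have hopen := isOpen_sball (D.t0 D.bet) ρ z v
  have hmem : {τ : ℂ | z + τ • v ∈ sball (D.t0 D.bet) ρ} ∈ nhds τ := hopen.mem_nhds hρ
  have hball : ∀ σ ∈ {τ : ℂ | z + τ • v ∈ sball (D.t0 D.bet) ρ}, z + σ • v ∈ CMT.ball (D.t0 D.bet) :=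
    fun σ hσ => sball_subset D.bet_pos hρ0 hρ1.le hσ
  constructor
  · have := Complex.differentiableOn_tsum_of_summable_norm hsum
      (F := fun x τ => φ x * tm1 D a x (z + τ • v) * (du (D.t0 D.bet) (rx D.t0 x) (z + τ • v)).1)
      (U := {τ : ℂ | z + τ • v ∈ sball (D.t0 D.bet) ρ})
      (fun x σ hσ => ((((diff_tm1 D a x z v σ (hball σ hσ)).const_mul _).mul
        (diff_du1 _ _ z v σ (hball σ hσ)))).differentiableWithinAt) hopen
      (fun x σ hσ => (hle φ _ hσ x).1)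
    exact this.differentiableAt hmem
  · have := Complex.differentiableOn_tsum_of_summable_norm hsum
      (F := fun x τ => φ x * tm1 D a x (z + τ • v) * (du (D.t0 D.bet) (rx D.t0 x) (z + τ • v)).2)
      (U := {τ : ℂ | z + τ • v ∈ sball (D.t0 D.bet) ρ})
      (fun x σ hσ => ((((diff_tm1 D a x z v σ (hball σ hσ)).const_mul _).mul
        (diff_du2 _ _ z v σ (hball σ hσ)))).differentiableWithinAt) hopen
      (fun x σ hσ => (hle φ _ hσ x).2)
    exact this.differentiableAt hmem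

end HolAux

theorem pHol : S_Hol := by
  intro F _ _ _ D a ha φ hφ z v
  exact ⟨fun τ hτ => (HolAux.hol_aux D a ha φ hφ z v τ hτ).1.differentiableWithinAt,
    fun τ hτ => (HolAux.hol_aux D a ha φ hφ z v τ hτ).2.differentiableWithinAt⟩

end CMT.B
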