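import Pool.Agent.Lib.CMT.B.IfaceB
import Pool.Agent.Lib.CMT.C.Pos

/-!
# PROJECT CMT, part B, module Hz: `Z(z)` is in the upper half space
-/

set_option autoImplicit false

open scoped BigOperators ComplexConjugate
open Matrix NumberField

noncomputable section

namespace CMT.B

variable {F : Type} [Field F] [NumberField F]

namespace HzAux

theorem Zm_symm (κ : ℂ) (h : Fin 3 → ℝ) (z : ℂ × ℂ) (i l : Fin 3) :
    Zm κ h z i l = Zm κ h z l i := by
  unfold Zm
  rw [Matrix.of_apply, Matrix.of_apply]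
  by_cases hil : i = l
  · subst hil
    rfl
  · rw [if_neg hil, if_neg (fun h => hil h.symm)]
    ring

theorem Zt_symm (D : Dat F) (a : F) (z : ℂ × ℂ) (t : F →+* ℝ) (i l : Fin 3) :
    Zt D a z t i l = Zt D a z t l i := by
  unfold Zt
  split_ifs
  · exact Zm_symm _ _ _ _ _
  · by_cases hil : i = l
    · subst hil
      rfl
    · rw [diagonal_apply_ne _ hil, diagonal_apply_ne _ (fun h => hil h.symm)]

/-- The real vector at the place `t`. -/
def XX (v : Ix F → ℝ) (t : F →+* ℝ) : Fin 3 → ℝ := fun i => ∑ j : Jx F, v (i, j) * t (eb F j)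

/-- The quadratic form at the place `t`. -/
def QQ (M : Matrix (Fin 3) (Fin 3) ℂ) (X : Fin 3 → ℝ) : ℝ := ∑ i, ∑ l, X i * (M i l).im * X l

theorem im_real (x y : ℝ) (w : ℂ) : ((x : ℂ) * w * (y : ℂ)).im = x * w.im * y := by
  rw [Complex.mul_im, Complex.ofReal_re, Complex.ofReal_im, mul_zero, zero_add,
    Complex.mul_im, Complex.ofReal_re, Complex.ofReal_im, zero_mul, add_zero]

theorem sum_eq (D : Dat F) (a : F) (z : ℂ × ℂ) (v : Ix F → ℝ) :
    ∑ p, ∑ q, v p * (ZZ D a z p q).im * v q = ∑ t : F →+* ℝ, QQ (Zt D a z t) (XX v t) := by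
  have h1 : ∀ p q : Ix F, (ZZ D a z p q).im =
      ∑ t : F →+* ℝ, t (eb F p.2) * (Zt D a z t p.1 q.1).im * t (eb F q.2) := by
    intro p q
    unfold ZZ Zb
    rw [Matrix.of_apply, Complex.im_sum]
    refine Finset.sum_congr rfl (fun t _ => ?_)
    exact im_real _ _ _
  have h2 : ∀ t : F →+* ℝ, QQ (Zt D a z t) (XX v t) =
      ∑ p : Ix F, ∑ q : Ix F, v p * (t (eb F p.2) * (Zt D a z t p.1 q.1).im * t (eb F q.2)) *
        v q := by
    intro t
    unfold QQ XX
    rw [Fintype.sum_prod_type]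
    refine Finset.sum_congr rfl (fun i _ => ?_)
    have h3 : ∀ l : Fin 3, (∑ j : Jx F, v (i, j) * t (eb F j)) * (Zt D a z t i l).im *
        (∑ j : Jx F, v (l, j) * t (eb F j)) = ∑ j : Jx F, ∑ j' : Jx F,
          v (i, j) * (t (eb F j) * (Zt D a z t i l).im * t (eb F j')) * v (l, j') := by
      intro l
      rw [Finset.sum_mul, Finset.sum_mul_sum]
      refine Finset.sum_congr rfl (fun j _ => Finset.sum_congr rfl (fun j' _ => ?_))
      ring
    rw [Finset.sum_congr rfl (fun l _ => h3 l), Finset.sum_comm]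
    refine Finset.sum_congr rfl (fun j _ => ?_)
    rw [Fintype.sum_prod_type]
  rw [Finset.sum_congr rfl (fun t _ => h2 t)]
  symm
  rw [Finset.sum_comm]
  refine Finset.sum_congr rfl (fun p _ => ?_)
  have h4 : ∀ q : Ix F, v p * (ZZ D a z p q).im * v q = ∑ t : F →+* ℝ,
      v p * (t (eb F p.2) * (Zt D a z t p.1 q.1).im * t (eb F q.2)) * v q := by
    intro q
    rw [h1, Finset.mul_sum, Finset.sum_mul]
  rw [Finset.sum_congr rfl (fun q _ => h4 q)]
  exact Finset.sum_comm

/-- The definite places. -/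
theorem pos_ne (D : Dat F) {a : F} (ha : a ≠ 0) (z : ℂ × ℂ) {t : F →+* ℝ} (ht0 : t ≠ D.t0)
    (X : Fin 3 → ℝ) : 0 ≤ QQ (Zt D a z t) X ∧ (X ≠ 0 → 0 < QQ (Zt D a z t) X) := by
  have hta : 0 < |t a| := abs_pos.2 ((map_ne_zero t).2 ha)
  have hsq : 0 < Real.sqrt (t D.del) := Real.sqrt_pos.2 (D.del_pos t)
  have hb : 0 < -(t D.bet) := by
    have := D.bet_neg t ht0
    linarith
  have hc : 0 < |t a| / Real.sqrt (t D.del) := div_pos hta hsq
  have hQ : QQ (Zt D a z t) X = |t a| / Real.sqrt (t D.del) *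
      (X 0 ^ 2 + X 1 ^ 2 + -(t D.bet) * X 2 ^ 2) := by
    have h1 : ∀ i l : Fin 3, (Zt D a z t i l).im =
        if i = l then |t a| / Real.sqrt (t D.del) * ht D t i else 0 := by
      intro i l
      unfold Zt
      rw [if_neg ht0]
      by_cases hil : i = l
      · subst hil
        rw [diagonal_apply_eq, if_pos rfl, Complex.mul_im, Complex.I_re, Complex.I_im,
          Complex.ofReal_re, zero_mul, one_mul, zero_add]
      · rw [diagonal_apply_ne _ hil, if_neg hil, Complex.zero_im]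
    unfold QQ
    simp only [h1]
    rw [Fin.sum_univ_three, Fin.sum_univ_three, Fin.sum_univ_three, Fin.sum_univ_three]
    have e0 : ht D t 0 = 1 := rfl
    have e1 : ht D t 1 = 1 := rfl
    have e2 : ht D t 2 = -(t D.bet) := rfl
    simp only [e0, e1, e2, Fin.isValue, if_true, Fin.reduceEq, if_false]
    ring
  rw [hQ]
  refine ⟨by positivity, fun hX => ?_⟩
  refine mul_pos hc ?_
  by_contra hcon
  rw [not_lt] at hcon
  have q0 := sq_nonneg (X 0)
  have q1 := sq_nonneg (X 1)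
  have q2 : 0 ≤ -(t D.bet) * X 2 ^ 2 := by positivity
  have r0 : X 0 ^ 2 = 0 := by linarith
  have r1 : X 1 ^ 2 = 0 := by linarith
  have r2 : -(t D.bet) * X 2 ^ 2 = 0 := by linarith
  have s0 : X 0 = 0 := pow_eq_zero_iff (two_ne_zero) |>.1 r0
  have s1 : X 1 = 0 := pow_eq_zero_iff (two_ne_zero) |>.1 r1
  have s2 : X 2 = 0 := by
    rcases mul_eq_zero.1 r2 with h | h
    · exact absurd h hb.ne'
    · exact pow_eq_zero_iff (two_ne_zero) |>.1 h
  apply hX
  funext i
  fin_cases i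
  · exact s0
  · exact s1
  · exact s2

/-- The indefinite place. -/
theorem pos_t0 (D : Dat F) {a : F} (ha : 0 < D.t0 a) {z : ℂ × ℂ} (hz : z ∈ Ball D)
    (X : Fin 3 → ℝ) : 0 ≤ QQ (Zt D a z D.t0) X ∧ (X ≠ 0 → 0 < QQ (Zt D a z D.t0) X) := by
  have hsq : 0 < Real.sqrt (D.t0 D.del) := Real.sqrt_pos.2 (D.del_pos D.t0)
  obtain ⟨b, hb⟩ : ∃ b : ℝ, b = D.t0 D.bet := ⟨_, rfl⟩
  have hb0 : 0 < b := by
    rw [hb]
    exact D.bet_pos
  obtain ⟨r, hr⟩ : ∃ r : ℝ, r = D.t0 a / Real.sqrt (D.t0 D.del) := ⟨_, rfl⟩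
  have hr0 : 0 < r := by
    rw [hr]
    exact div_pos ha hsq
  have hz' : ‖z.1‖ ^ 2 + ‖z.2‖ ^ 2 < b := by
    rw [hb]
    exact hz
  have hzb : z ∈ CMT.ball b := hz'
  -- the value
  have hQ : QQ (Zt D a z D.t0) X = r * ((qf b X X : ℂ) + 2 * uu b X z ^ 2).re := by
    have h1 : QQ (Zt D a z D.t0) X = (∑ i, ∑ l, (X i : ℂ) * Zt D a z D.t0 i l * (X l : ℂ)).im := by
      unfold QQ
      rw [Complex.im_sum]
      refine Finset.sum_congr rfl (fun i _ => ?_)
      rw [Complex.im_sum]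
      exact Finset.sum_congr rfl (fun l _ => (im_real _ _ _).symm)
    have h2 : ∑ i, ∑ l, (X i : ℂ) * Zt D a z D.t0 i l * (X l : ℂ) =
        Complex.I * (r : ℂ) * ((qf b X X : ℂ) + 2 * uu b X z ^ 2) := by
      have h3 : s2 (hh D) z = mm b z := by
        unfold s2 mm
        rw [hh_zero, hh_one, hh_two, ← hb]
        push_cast
        ring
      have hm := mm_ne hzb
      rw [uu_sq hzb]
      have h4 : Zt D a z D.t0 = Zm (ka D a) (hh D) z := by
        unfold Zt
        rw [if_pos rfl]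
      rw [h4]
      unfold Zm ka
      rw [h3, ← hr]
      simp only [Matrix.of_apply]
      rw [Fin.sum_univ_three, Fin.sum_univ_three, Fin.sum_univ_three, Fin.sum_univ_three]
      simp only [Fin.isValue, if_true, Fin.reduceEq, if_false, hh_zero, hh_one, hh_two, zh_zero,
        zh_one, zh_two, ← hb]
      unfold ll qf
      push_cast
      field_simp
      ring
    rw [h1, h2, mul_assoc, Complex.mul_im, Complex.I_re, Complex.I_im, zero_mul, zero_add, one_mul,
      Complex.re_ofReal_mul]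
  -- the radius
  obtain ⟨S, hS⟩ : ∃ S : ℝ, S = ‖z.1‖ ^ 2 + ‖z.2‖ ^ 2 := ⟨_, rfl⟩
  have hS0 : 0 ≤ S := by rw [hS]; positivity
  rw [← hS] at hz'
  obtain ⟨ρ, hρ⟩ : ∃ ρ : ℝ, ρ = Real.sqrt ((S + b) / (2 * b)) := ⟨_, rfl⟩
  have hρ0 : 0 ≤ ρ := by rw [hρ]; exact Real.sqrt_nonneg _
  have hρ2 : ρ ^ 2 = (S + b) / (2 * b) := by
    rw [hρ]
    exact Real.sq_sqrt (by positivity)
  have hρ1 : ρ < 1 := by
    rw [hρ, Real.sqrt_lt' one_pos, div_lt_iff₀ (by positivity)]
    linarith
  have hzs : z ∈ sball b ρ := by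
    show ‖z.1‖ ^ 2 + ‖z.2‖ ^ 2 < ρ ^ 2 * b
    rw [← hS, hρ2, div_mul_eq_mul_div, lt_div_iff₀ (by positivity)]
    nlinarith
  have hge := re_q_ge hb0 hρ0 hρ1 hzs X
  have h1ρ : 0 < (1 - ρ) ^ 3 / 4 := by
    have : 0 < 1 - ρ := by linarith
    positivity
  rw [hQ]
  constructor
  · refine mul_nonneg hr0.le (le_trans ?_ hge)
    positivity
  · intro hX
    refine mul_pos hr0 (lt_of_lt_of_le ?_ hge)
    refine mul_pos h1ρ ?_
    by_contra hcon
    rw [not_lt] at hcon
    have q0 := sq_nonneg (X 0)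
    have q1 := sq_nonneg (X 1)
    have q2 : 0 ≤ b * X 2 ^ 2 := by positivity
    have r0 : X 0 ^ 2 = 0 := by linarith
    have r1 : X 1 ^ 2 = 0 := by linarith
    have r2 : b * X 2 ^ 2 = 0 := by linarith
    have s0 : X 0 = 0 := pow_eq_zero_iff (two_ne_zero) |>.1 r0
    have s1 : X 1 = 0 := pow_eq_zero_iff (two_ne_zero) |>.1 r1
    have s2 : X 2 = 0 := by
      rcases mul_eq_zero.1 r2 with h | h
      · exact absurd h hb0.ne'
      · exact pow_eq_zero_iff (two_ne_zero) |>.1 h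
    apply hX
    funext i
    fin_cases i
    · exact s0
    · exact s1
    · exact s2

/-- The vectors at the places determine `v`. -/
theorem inj (hcard : Fintype.card (F →+* ℝ) = Fintype.card (Jx F))
    (hind : ∀ c : (F →+* ℝ) → ℂ, (∀ j, ∑ t : F →+* ℝ, ((t (eb F j) : ℝ) : ℂ) * c t = 0) → c = 0)
    (v : Ix F → ℝ) (h : ∀ t : F →+* ℝ, XX v t = 0) : v = 0 := by
  let T : ((F →+* ℝ) → ℂ) →ₗ[ℂ] (Jx F → ℂ) :=
    { toFun := fun c j => ∑ t : F →+* ℝ, ((t (eb F j) : ℝ) : ℂ) * c t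
      map_add' := by
        intro c c'
        funext j
        simp only [Pi.add_apply, mul_add, Finset.sum_add_distrib]
      map_smul' := by
        intro r c
        funext j
        simp only [Pi.smul_apply, smul_eq_mul, RingHom.id_apply, Finset.mul_sum]
        refine Finset.sum_congr rfl (fun t _ => ?_)
        ring }
  have hinj : Function.Injective T := by
    rw [← LinearMap.ker_eq_bot, LinearMap.ker_eq_bot']
    intro c hc
    exact hind c (fun j => congrFun hc j)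
  have hfr : Module.finrank ℂ ((F →+* ℝ) → ℂ) = Module.finrank ℂ (Jx F → ℂ) := by
    rw [Module.finrank_fintype_fun_eq_card, Module.finrank_fintype_fun_eq_card, hcard]
  have hsurj : Function.Surjective T :=
    (LinearMap.injective_iff_surjective_of_finrank_eq_finrank hfr).1 hinj
  funext p
  obtain ⟨i, j⟩ := p
  obtain ⟨c, hc⟩ := hsurj (fun j' => if j' = j then 1 else 0)
  have h1 : ∑ j' : Jx F, (v (i, j') : ℂ) * T c j' = 0 := by
    have h2 : ∑ j' : Jx F, (v (i, j') : ℂ) * T c j' =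
        ∑ t : F →+* ℝ, ((XX v t i : ℝ) : ℂ) * c t := by
      have h3 : ∀ j' : Jx F, (v (i, j') : ℂ) * T c j' =
          ∑ t : F →+* ℝ, (v (i, j') : ℂ) * (((t (eb F j') : ℝ) : ℂ) * c t) := by
        intro j'
        exact Finset.mul_sum _ _ _
      rw [Finset.sum_congr rfl (fun j' _ => h3 j'), Finset.sum_comm]
      refine Finset.sum_congr rfl (fun t _ => ?_)
      unfold XX
      push_cast
      rw [Finset.sum_mul]
      refine Finset.sum_congr rfl (fun j' _ => ?_)
      ring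
    rw [h2]
    refine Finset.sum_eq_zero (fun t _ => ?_)
    rw [h t]
    simp
  rw [hc] at h1
  have h4 : ∑ j' : Jx F, (v (i, j') : ℂ) * (if j' = j then (1 : ℂ) else 0) = (v (i, j) : ℂ) := by
    rw [Finset.sum_eq_single j]
    · rw [if_pos rfl, mul_one]
    · intro j' _ hj'
      rw [if_neg hj', mul_zero]
    · intro hj
      exact absurd (Finset.mem_univ j) hj
  rw [h4] at h1
  exact_mod_cast h1

end HzAux

open HzAux in
theorem pHz (hCard : S_Card) : S_Hz := by
  intro F _ _ _ D a ha z hz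
  have ha0 : a ≠ 0 := by
    rintro rfl
    rw [map_zero] at ha
    exact lt_irrefl _ ha
  refine ⟨?_, ?_⟩
  · ext p q
    rw [Matrix.transpose_apply]
    unfold ZZ Zb
    rw [Matrix.of_apply, Matrix.of_apply]
    refine Finset.sum_congr rfl (fun t _ => ?_)
    rw [Zt_symm D a z t q.1 p.1]
    ring
  · intro v hv
    rw [sum_eq]
    have hnn : ∀ t : F →+* ℝ, 0 ≤ QQ (Zt D a z t) (XX v t) := by
      intro t
      by_cases ht : t = D.t0
      · subst ht
        exact (pos_t0 D ha hz _).1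
      · exact (pos_ne D ha0 z ht _).1
    obtain ⟨hc, hi⟩ := hCard F
    obtain ⟨t, ht⟩ : ∃ t : F →+* ℝ, XX v t ≠ 0 := by
      by_contra hcon
      push Not at hcon
      exact hv (inj hc hi v hcon)
    refine Finset.sum_pos' (fun t _ => hnn t) ⟨t, Finset.mem_univ t, ?_⟩
    by_cases ht0 : t = D.t0
    · subst ht0
      exact (pos_t0 D ha hz _).2 ht
    · exact (pos_ne D ha0 z ht0 _).2 ht

end CMT.B
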