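import Pool.Agent.Lib.CMT.B.IfaceB

/-! # PROJECT CMT, part B: the theta forms are multiplied by roots of unity (`S_I3`) -/

set_option autoImplicit false

open scoped BigOperators ComplexConjugate
open Matrix NumberField

noncomputable section

namespace CMT.B

namespace IThreeAux

variable {F : Type} [Field F] [NumberField F]

theorem s2_eq_mm (D : Dat F) (z : ℂ × ℂ) : s2 (hh D) z = mm (D.t0 D.bet) z := by
  simp only [s2, mm, hh_zero, hh_one, hh_two]
  push_cast
  ring

theorem mm_ne (D : Dat F) {z : ℂ × ℂ} (hz : z ∈ Ball D) : mm (D.t0 D.bet) z ≠ 0 := by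
  rw [← s2_eq_mm]
  rw [Ball_eq] at hz
  exact s2_ne_zero (hh_zero_pos D) (hh_one_pos D) hz

theorem ss_sq (D : Dat F) (z : ℂ × ℂ) : ss (D.t0 D.bet) z ^ 2 = mm (D.t0 D.bet) z := by
  unfold ss
  rw [← Complex.cpow_nat_mul]
  norm_num

theorem ss_ne (D : Dat F) {z : ℂ × ℂ} (hz : z ∈ Ball D) : ss (D.t0 D.bet) z ≠ 0 := by
  intro h
  have := ss_sq D z
  rw [h] at this
  exact mm_ne D hz (by rw [← this]; ring)

theorem dot0 (D : Dat F) (a : F) {z : ℂ × ℂ} (hz : z ∈ Ball D) (x : Fin 3 → F) :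
    (ka D a * ss (D.t0 D.bet) z) * (du (D.t0 D.bet) (rx D.t0 x) z).1 =
      ∑ i, (rx D.t0 x i : ℂ) * Nm (ka D a) (hh D) z i 0 := by
  have hm := mm_ne D hz
  have hs := ss_ne D hz
  simp only [Fin.sum_univ_three, Nm, Matrix.of_apply, s2_eq_mm, hh_zero, hh_one, hh_two, zh,
    du, ll, Matrix.cons_val_zero, Matrix.cons_val_one, Matrix.cons_val]
  simp
  field_simp
  ring

theorem dot1 (D : Dat F) (a : F) {z : ℂ × ℂ} (hz : z ∈ Ball D) (x : Fin 3 → F) :
    (ka D a * ss (D.t0 D.bet) z) * (du (D.t0 D.bet) (rx D.t0 x) z).2 =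
      ∑ i, (rx D.t0 x i : ℂ) * Nm (ka D a) (hh D) z i 1 := by
  have hm := mm_ne D hz
  have hs := ss_ne D hz
  simp only [Fin.sum_univ_three, Nm, Matrix.of_apply, s2_eq_mm, hh_zero, hh_one, hh_two, zh,
    du, ll, Matrix.cons_val_zero, Matrix.cons_val_one, Matrix.cons_val]
  simp
  field_simp
  ring

/-- the theta gradient on a combination of the two columns -/
theorem Du_comb (D : Dat F) (a : F) (φ : (Fin 3 → F) → ℂ) {z : ℂ × ℂ} (hz : z ∈ Ball D)
    (h0 : Summable fun x => φ x * tm1 D a x z * (du (D.t0 D.bet) (rx D.t0 x) z).1)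
    (h1 : Summable fun x => φ x * tm1 D a x z * (du (D.t0 D.bet) (rx D.t0 x) z).2)
    (α β : ℂ) :
    Du D a φ z (fun i => Nm (ka D a) (hh D) z i 0 * α + Nm (ka D a) (hh D) z i 1 * β)
      = (ka D a * ss (D.t0 D.bet) z) * (α * (om D a φ z).1 + β * (om D a φ z).2) := by
  have e : ∀ x : Fin 3 → F, φ x * tm1 D a x z * ∑ i, (rx D.t0 x i : ℂ) *
      (Nm (ka D a) (hh D) z i 0 * α + Nm (ka D a) (hh D) z i 1 * β)
      = (ka D a * ss (D.t0 D.bet) z * α) * (φ x * tm1 D a x z * (du (D.t0 D.bet) (rx D.t0 x) z).1)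
        + (ka D a * ss (D.t0 D.bet) z * β)
          * (φ x * tm1 D a x z * (du (D.t0 D.bet) (rx D.t0 x) z).2) := by
    intro x
    have e2 : ∑ i, (rx D.t0 x i : ℂ) *
        (Nm (ka D a) (hh D) z i 0 * α + Nm (ka D a) (hh D) z i 1 * β)
        = (∑ i, (rx D.t0 x i : ℂ) * Nm (ka D a) (hh D) z i 0) * α
          + (∑ i, (rx D.t0 x i : ℂ) * Nm (ka D a) (hh D) z i 1) * β := by
      rw [Finset.sum_mul, Finset.sum_mul, ← Finset.sum_add_distrib]
      exact Finset.sum_congr rfl fun i _ => by ring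
    rw [e2, ← dot0 D a hz, ← dot1 D a hz]
    ring
  show (∑' x : Fin 3 → F, φ x * tm1 D a x z * ∑ i, (rx D.t0 x i : ℂ) *
      (Nm (ka D a) (hh D) z i 0 * α + Nm (ka D a) (hh D) z i 1 * β)) = _
  rw [tsum_congr e, (h0.mul_left _).tsum_add (h1.mul_left _), tsum_mul_left, tsum_mul_left]
  simp only [om]
  ring

theorem Ew_smul (D : Dat F) (τ : ℂ) (u : Fin 3 → ℂ) :
    (Ew fun t => if t = D.t0 then τ • u else 0)
      = τ • (Ew fun t => if t = D.t0 then u else 0 : Ix F → ℂ) := by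
  funext p
  simp only [Ew, Pi.smul_apply, smul_eq_mul, Finset.mul_sum]
  refine Finset.sum_congr rfl fun t _ => ?_
  split_ifs
  · simp only [Pi.smul_apply, smul_eq_mul]; ring
  · simp

theorem expd (c p q : ℂ) :
    HasDerivAt (fun τ : ℂ => c * Complex.exp (-(p * (τ ^ 2 * q)))) 0 0 := by
  have e : (fun τ : ℂ => c * Complex.exp (-(p * (τ ^ 2 * q))))
      = fun τ : ℂ => c * Complex.exp ((-(p * q)) * τ ^ 2) := by
    funext τ
    congr 2
    ring
  rw [e]
  have f4 := (((hasDerivAt_pow 2 (0 : ℂ)).const_mul (-(p * q))).cexp).const_mul c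
  simpa using f4

end IThreeAux

open IThreeAux

theorem pI3 (hRel : S_Rel) (hDer : S_Der) (hA3 : S_A3) (hHz : S_Hz) (hSum : CMT.S_SumOm) :
    S_I3 := by
  intro F _ _ _ D a ha N hN
  have ha0 : a ≠ 0 := by
    rintro rfl
    simp at ha
  obtain ⟨M, k, hM, hk, hA⟩ := hA3 (Ix F) N hN
  obtain ⟨n, hn, hR⟩ := hRel F D a ha M hM
  refine ⟨n, 2 * k, hn, by positivity, fun g hg z hz => ?_⟩
  obtain ⟨al, be, ga, de, hsp, hG, hz'⟩ := hR g hg
  obtain ⟨NN, r1, r2, r3, r4⟩ := hz' z hz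
  have hgz : CMT.act D g z ∈ Ball D := act_mem_Ball D hg.1 hz
  obtain ⟨s1, p1⟩ := hHz F D a ha z hz
  obtain ⟨s2', p2⟩ := hHz F D a ha _ hgz
  obtain ⟨c, hc, hth⟩ := hA al be ga de hsp hG _ _ NN s1 s2' p1 p2 r1 r2
  have hj : num D g z 2 ≠ 0 := num_two_ne_zero D hg.1 hz
  have hjj : jj (mt D D.t0 g) z ≠ 0 := hj
  have hms := mm_ne D hz
  have hmg := mm_ne D hgz
  have hss := ss_ne D hz
  have hsg := ss_ne D hgz
  have hka : ka D a ≠ 0 := by
    have h1 : 0 < Real.sqrt (D.t0 D.del) := Real.sqrt_pos.2 (D.del_pos _)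
    have h2 : (D.t0 a / Real.sqrt (D.t0 D.del)) ≠ 0 := (div_pos ha h1).ne'
    exact mul_ne_zero Complex.I_ne_zero (by exact_mod_cast h2)
  refine ⟨c * ss (D.t0 D.bet) z / (ss (D.t0 D.bet) (CMT.act D g z) * num D g z 2), ?_, ?_⟩
  · rw [pow_mul, div_pow, mul_pow, mul_pow, ss_sq, ss_sq]
    have e : c ^ 2 * mm (D.t0 D.bet) z / (mm (D.t0 D.bet) (CMT.act D g z) * num D g z 2 ^ 2)
        = c ^ 2 * NN.det := by
      rw [← r3]
      field_simp
    rw [e]
    exact hc
  · intro φ hφ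
    -- comparison of the derivatives
    have key : ∀ u : Fin 3 → ℂ,
        Du D a φ (CMT.act D g z) (NNt D a g z D.t0 *ᵥ u) = c * Du D a φ z u := by
      intro u
      have d1 := hDer F D a ha N hN φ hφ _ hgz (NNt D a g z D.t0 *ᵥ u)
      have d2 := hDer F D a ha N hN φ hφ z hz u
      set w1 : Ix F → ℂ := Ew fun t => if t = D.t0 then u else 0 with hw1
      set q1 : ℂ := (NN *ᵥ w1) ⬝ᵥ (be.map (Int.cast : ℤ → ℂ) *ᵥ w1) with hq1
      have e1 : (fun τ : ℂ => th N (phZ N φ) (ZZ D a (CMT.act D g z))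
          (Ew fun t => if t = D.t0 then τ • (NNt D a g z D.t0 *ᵥ u) else 0))
          = fun τ : ℂ => c * Complex.exp (-(Real.pi * Complex.I * (τ ^ 2 * q1))) *
            th N (phZ N φ) (ZZ D a z) (Ew fun t => if t = D.t0 then τ • u else 0) := by
        funext τ
        have e2 : (Ew fun t => if t = D.t0 then τ • (NNt D a g z D.t0 *ᵥ u) else 0)
            = NN *ᵥ (Ew fun t => if t = D.t0 then τ • u else 0) := by
          rw [r4]
          congr 1
          funext t
          split_ifs with ht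
          · rw [ht, Matrix.mulVec_smul]
          · rw [Matrix.mulVec_zero]
        rw [e2, hth]
        congr 3
        rw [Ew_smul, Matrix.mulVec_smul, Matrix.mulVec_smul, smul_dotProduct, dotProduct_smul,
          smul_eq_mul, smul_eq_mul]
        ring
      rw [e1] at d1
      have d3 : HasDerivAt (fun τ : ℂ => c * Complex.exp (-(Real.pi * Complex.I * (τ ^ 2 * q1))))
          0 0 := by
        exact expd _ _ _
      have d4 := d3.mul d2
      have d5 := d1.unique d4
      rw [zero_mul, zero_add] at d5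
      have e5 : c * Complex.exp (-(Real.pi * Complex.I * ((0 : ℂ) ^ 2 * q1))) = c := by
        simp
      rw [e5] at d5
      have h2pi : (2 * Real.pi * Complex.I : ℂ) ≠ 0 := Complex.two_pi_I_ne_zero
      apply mul_left_cancel₀ h2pi
      rw [d5]
      ring
    have hS := hSum F D a ha0 φ ⟨N, hN, hφ⟩
    have S0 := (hS _ hgz).1.of_norm
    have S1 := (hS _ hgz).2.of_norm
    have T0 := (hS _ hz).1.of_norm
    have T1' := (hS _ hz).2.of_norm
    have hNt : NNt D a g z D.t0 = NNm (ka D a) (hh D) (mt D D.t0 g) z := by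
      simp [NNt]
    have hhp : (hh D 0 * hh D 1 * hh D 2 : ℝ) ≠ 0 := by
      rw [hh_zero, hh_one, hh_two]
      have := D.bet_pos
      simp only [one_mul]
      exact neg_ne_zero.2 this.ne'
    have hs2 : s2 (hh D) z ≠ 0 := by rw [s2_eq_mm]; exact hms
    have hmul := NNm_mul hka hhp (mt D D.t0 g) hs2
    have col : ∀ l : Fin 3, NNt D a g z D.t0 *ᵥ (fun i => Nm (ka D a) (hh D) z i l)
        = fun i => (Nm (ka D a) (hh D) (CMT.act D g z) * Rm (mt D D.t0 g) z) i l := by
      intro l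
      rw [hNt, act_eq, ← hmul]
      rfl
    have c0 : NNt D a g z D.t0 *ᵥ (fun i => Nm (ka D a) (hh D) z i 0)
        = fun i => Nm (ka D a) (hh D) (CMT.act D g z) i 0 * MM (mt D D.t0 g) z 0 0
          + Nm (ka D a) (hh D) (CMT.act D g z) i 1 * MM (mt D D.t0 g) z 1 0 := by
      rw [col]
      funext i
      simp [Matrix.mul_apply, Fin.sum_univ_three, Rm]
    have c1 : NNt D a g z D.t0 *ᵥ (fun i => Nm (ka D a) (hh D) z i 1)
        = fun i => Nm (ka D a) (hh D) (CMT.act D g z) i 0 * MM (mt D D.t0 g) z 0 1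
          + Nm (ka D a) (hh D) (CMT.act D g z) i 1 * MM (mt D D.t0 g) z 1 1 := by
      rw [col]
      funext i
      simp [Matrix.mul_apply, Fin.sum_univ_three, Rm]
    have k0 := key (fun i => Nm (ka D a) (hh D) z i 0)
    have k1 := key (fun i => Nm (ka D a) (hh D) z i 1)
    rw [c0, Du_comb D a φ hgz S0 S1] at k0
    rw [c1, Du_comb D a φ hgz S0 S1] at k1
    have b0 : Du D a φ z (fun i => Nm (ka D a) (hh D) z i 0)
        = (ka D a * ss (D.t0 D.bet) z) * (om D a φ z).1 := by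
      have := Du_comb D a φ hz T0 T1' 1 0
      simpa using this
    have b1 : Du D a φ z (fun i => Nm (ka D a) (hh D) z i 1)
        = (ka D a * ss (D.t0 D.bet) z) * (om D a φ z).2 := by
      have := Du_comb D a φ hz T0 T1' 0 1
      simpa using this
    rw [b0] at k0
    rw [b1] at k1
    rw [pull1_eq D g z hjj]
    have hjn : jj (mt D D.t0 g) z = num D g z 2 := rfl
    rw [hjn]
    ext
    · show _ / _ = _
      rw [div_eq_iff hj]
      have h3 : ka D a * ss (D.t0 D.bet) (CMT.act D g z) ≠ 0 := mul_ne_zero hka hsg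
      apply mul_left_cancel₀ h3
      rw [show ka D a * ss (D.t0 D.bet) (CMT.act D g z) *
          ((om D a φ (CMT.act D g z)).1 * MM (mt D D.t0 g) z 0 0
            + (om D a φ (CMT.act D g z)).2 * MM (mt D D.t0 g) z 1 0)
          = ka D a * ss (D.t0 D.bet) (CMT.act D g z) *
          (MM (mt D D.t0 g) z 0 0 * (om D a φ (CMT.act D g z)).1
            + MM (mt D D.t0 g) z 1 0 * (om D a φ (CMT.act D g z)).2) by ring, k0]
      field_simp
    · show _ / _ = _
      rw [div_eq_iff hj]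
      have h3 : ka D a * ss (D.t0 D.bet) (CMT.act D g z) ≠ 0 := mul_ne_zero hka hsg
      apply mul_left_cancel₀ h3
      rw [show ka D a * ss (D.t0 D.bet) (CMT.act D g z) *
          ((om D a φ (CMT.act D g z)).1 * MM (mt D D.t0 g) z 0 1
            + (om D a φ (CMT.act D g z)).2 * MM (mt D D.t0 g) z 1 1)
          = ka D a * ss (D.t0 D.bet) (CMT.act D g z) *
          (MM (mt D D.t0 g) z 0 1 * (om D a φ (CMT.act D g z)).1
            + MM (mt D D.t0 g) z 1 1 * (om D a φ (CMT.act D g z)).2) by ring, k1]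
      field_simp

end CMT.B
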