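import Pool.Agent.Lib.CMT.B.IfaceB
import Pool.Agent.Lib.CMT.C.Om

/-! # PROJECT CMT, part B: every theta form is invariant under an arithmetic group (`S_Inv1`) -/

set_option autoImplicit false

open scoped BigOperators ComplexConjugate
open Matrix NumberField

noncomputable section

namespace CMT.B

namespace InvOneAux

variable {F : Type} [Field F] [NumberField F]

theorem gam_dvd (D : Dat F) {m n : ℕ} (h : m ∣ n) : Gam D n ≤ Gam D m := by
  obtain ⟨d, rfl⟩ := h
  rintro g ⟨hg, X, hX, hgX⟩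
  refine ⟨hg, (d : KD D) • X, ?_, ?_⟩
  · intro i j
    rw [Matrix.smul_apply, smul_eq_mul]
    exact (RR D).mul_mem (natCast_mem (RR D) d) (hX i j)
  · rw [hgX, smul_smul, ← Nat.cast_mul]

theorem pull1_mul (D : Dat F) (g : SG D) {h : SG D} (hg : IsIso D g) (hh : IsIso D h)
    {z : ℂ × ℂ} (hz : z ∈ Ball D) (p : ℂ × ℂ) :
    pull1 D (g * h) z p = pull1 D h z (pull1 D g (CMT.act D h z) p) := by
  have hw : num D h z 2 ≠ 0 := num_two_ne_zero D hh hz
  have hhz : CMT.act D h z ∈ Ball D := act_mem_Ball D hh hz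
  have hw' : num D g (CMT.act D h z) 2 ≠ 0 := num_two_ne_zero D hg hhz
  have e1 : ∀ i, num D (g * h) z i = num D h z 2 * num D g (CMT.act D h z) i := by
    intro i
    have e2 : (mt D D.t0 h) *ᵥ zh z = jj (mt D D.t0 h) z • zh (act (mt D D.t0 h) z) := mulVec_zh hw
    show (mt D D.t0 (g * h) *ᵥ zh z) i = _
    rw [mt_mul, ← Matrix.mulVec_mulVec, e2, Matrix.mulVec_smul, Pi.smul_apply, smul_eq_mul]
    rfl
  have m1 : ∀ i j, mt D D.t0 (g * h) i j = mt D D.t0 g i 0 * mt D D.t0 h 0 j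
      + mt D D.t0 g i 1 * mt D D.t0 h 1 j + mt D D.t0 g i 2 * mt D D.t0 h 2 j := by
    intro i j
    rw [mt_mul, Matrix.mul_apply, Fin.sum_univ_three]
  have n1 : ∀ i, num D g (CMT.act D h z) i = mt D D.t0 g i 0 * (num D h z 0 / num D h z 2)
      + mt D D.t0 g i 1 * (num D h z 1 / num D h z 2) + mt D D.t0 g i 2 := by
    intro i
    show (mt D D.t0 g *ᵥ hat (CMT.act D h z)) i = _
    simp [Matrix.mulVec, dotProduct, Fin.sum_univ_three, hat, CMT.act]
  simp only [pull1, e1, m1]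
  generalize hW : num D g (CMT.act D h z) 2 = W2 at hw'
  have hW2 := n1 2
  rw [hW] at hW2
  rw [n1 0, n1 1]
  generalize num D h z 0 = w0 at *
  generalize num D h z 1 = w1 at *
  generalize num D h z 2 = w2 at *
  generalize mt D D.t0 g = G at *
  generalize mt D D.t0 h = H at *
  have hW2' : G 2 2 = W2 - G 2 0 * (w0 / w2) - G 2 1 * (w1 / w2) := by rw [hW2]; ring
  simp only [hW2']
  ext
  · simp only
    field_simp
    ring
  · simp only
    field_simp
    ring

theorem pull1_one (D : Dat F) (z p : ℂ × ℂ) : pull1 D 1 z p = p := by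
  have h1 : ∀ i, num D 1 z i = hat z i := by
    intro i
    show (mt D D.t0 1 *ᵥ hat z) i = _
    rw [mt_one, Matrix.one_mulVec]
  simp [pull1, h1, mt_one, hat]

theorem pull1_zero (D : Dat F) (g : SG D) (z : ℂ × ℂ) : pull1 D g z (0, 0) = (0, 0) := by
  simp [pull1]

theorem convex_Ball (D : Dat F) : Convex ℝ (Ball D) := by
  have h1 : Ball D = {z : ℂ × ℂ | ‖z.1‖ ^ 2 + ‖z.2‖ ^ 2 < D.t0 D.bet} := rfl
  rw [h1]
  have c1 : ConvexOn ℝ Set.univ (fun z : ℂ × ℂ => ‖z.1‖ ^ 2) := by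
    have h2 : ConvexOn ℝ Set.univ (fun z : ℂ × ℂ => ‖z.1‖) :=
      (convexOn_norm convex_univ).comp_linearMap (LinearMap.fst ℝ ℂ ℂ)
    exact h2.pow (fun z _ => norm_nonneg _) 2
  have c2 : ConvexOn ℝ Set.univ (fun z : ℂ × ℂ => ‖z.2‖ ^ 2) := by
    have h2 : ConvexOn ℝ Set.univ (fun z : ℂ × ℂ => ‖z.2‖) :=
      (convexOn_norm convex_univ).comp_linearMap (LinearMap.snd ℝ ℂ ℂ)
    exact h2.pow (fun z _ => norm_nonneg _) 2
  have := (c1.add c2).convex_lt (D.t0 D.bet)
  simpa using this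

theorem isOpen_Ball (D : Dat F) : IsOpen (Ball D) := by
  have h1 : Continuous fun z : ℂ × ℂ => ‖z.1‖ ^ 2 + ‖z.2‖ ^ 2 := by fun_prop
  exact isOpen_lt h1 continuous_const

theorem diff_num (D : Dat F) (g : SG D) (i : Fin 3) (z : ℂ × ℂ) :
    DifferentiableAt ℂ (fun z => num D g z i) z := by
  have h1 : (fun z : ℂ × ℂ => num D g z i) = fun z => mt D D.t0 g i 0 * z.1
      + mt D D.t0 g i 1 * z.2 + mt D D.t0 g i 2 := by
    funext z
    simp [num, Matrix.mulVec, dotProduct, Fin.sum_univ_three, hat]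
  rw [h1]
  fun_prop

/-- the pulled back theta form is holomorphic -/
theorem diff_pull [IsTotallyReal F] (D : Dat F) {a : F} (ha : a ≠ 0) {φ : (Fin 3 → F) → ℂ}
    (hφ : IsSB φ) {g : SG D} (hg : IsIso D g) {z : ℂ × ℂ} (hz : z ∈ Ball D) :
    DifferentiableAt ℂ (fun z => (pull1 D g z (om D a φ (CMT.act D g z))).1) z ∧
      DifferentiableAt ℂ (fun z => (pull1 D g z (om D a φ (CMT.act D g z))).2) z := by
  have hw : num D g z 2 ≠ 0 := num_two_ne_zero D hg hz
  have hgz : CMT.act D g z ∈ Ball D := act_mem_Ball D hg hz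
  obtain ⟨o1, o2⟩ := differentiableAt_om D ha hφ hgz
  have hact : DifferentiableAt ℂ (fun z => CMT.act D g z) z :=
    (hasFDerivAt_act_Ball D hg hz).differentiableAt
  have p1 : DifferentiableAt ℂ (fun z => (om D a φ (CMT.act D g z)).1) z :=
    DifferentiableAt.comp (g := fun z => (om D a φ z).1) z o1 hact
  have p2 : DifferentiableAt ℂ (fun z => (om D a φ (CMT.act D g z)).2) z :=
    DifferentiableAt.comp (g := fun z => (om D a φ z).2) z o2 hact
  have d0 := diff_num D g 0 z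
  have d1 := diff_num D g 1 z
  have d2 := diff_num D g 2 z
  have d3 : DifferentiableAt ℂ (fun z => (num D g z 2 ^ 2)⁻¹) z :=
    DifferentiableAt.fun_inv (d2.fun_pow 2) (pow_ne_zero 2 hw)
  constructor
  · have h := ((p1.fun_mul ((d2.const_mul (mt D D.t0 g 0 0)).fun_sub
        (d0.mul_const (mt D D.t0 g 2 0)))).fun_add
      (p2.fun_mul ((d2.const_mul (mt D D.t0 g 1 0)).fun_sub
        (d1.mul_const (mt D D.t0 g 2 0))))).fun_mul d3
    exact h
  · have h := ((p1.fun_mul ((d2.const_mul (mt D D.t0 g 0 1)).fun_sub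
        (d0.mul_const (mt D D.t0 g 2 1)))).fun_add
      (p2.fun_mul ((d2.const_mul (mt D D.t0 g 1 1)).fun_sub
        (d1.mul_const (mt D D.t0 g 2 1))))).fun_mul d3
    exact h

end InvOneAux

open InvOneAux

theorem pInv1 (hI3 : S_I3) (hRoot : S_Root) (hIdx : CMT.S_Idx) : CMT.S_Inv1 := by
  intro F _ _ _ D a ha φ hφ
  have ha0 : a ≠ 0 := by
    rintro rfl
    simp at ha
  by_cases h0 : ∃ z0 ∈ Ball D, om D a φ z0 ≠ (0, 0)
  swap
  · push Not at h0
    refine ⟨Gam D 3, ⟨le_rfl, hIdx F D 3 (by norm_num)⟩, ?_⟩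
    intro g hg z hz
    rw [h0 z hz, h0 _ (act_mem_Ball D hg.1 hz), pull1_zero]
  obtain ⟨z0, hz0, hne⟩ := h0
  obtain ⟨N, hN, hSB⟩ := hφ
  have hφ : IsSB φ := ⟨N, hN, hSB⟩
  obtain ⟨n, k, hn, hk, hI⟩ := hI3 F D a ha N hN
  set Γ : Subgroup (SG D) := Gam D (3 * n) with hΓ
  have hΓn : Γ ≤ Gam D n := gam_dvd D (dvd_mul_left _ _)
  have hΓ3 : Γ ≤ Gam D 3 := gam_dvd D (dvd_mul_right _ _)
  -- the scalar is constant
  have claim : ∀ g ∈ Γ, ∃ c : ℂ, c ^ k = 1 ∧ ∀ z ∈ Ball D,
      pull1 D g z (om D a φ (CMT.act D g z)) = (c * (om D a φ z).1, c * (om D a φ z).2) := by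
    intro g hg
    have hgi : IsIso D g := (hΓn hg).1
    obtain ⟨c0, hc0, hφ0⟩ := hI g (hΓn hg) z0 hz0
    refine ⟨c0, hc0, fun z hz => ?_⟩
    set v : ℂ × ℂ := z - z0 with hv
    set U : Set ℂ := {τ : ℂ | z0 + τ • v ∈ Ball D} with hU
    have cont : Continuous fun τ : ℂ => z0 + τ • v := by fun_prop
    have hUo : IsOpen U := (isOpen_Ball D).preimage cont
    have hUc : Convex ℝ U := by
      intro τ hτ σ hσ α β hα hβ hαβ
      have h1 : z0 + (α • τ + β • σ) • v = α • (z0 + τ • v) + β • (z0 + σ • v) := by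
        have h2 : z0 = α • z0 + β • z0 := by rw [← add_smul, hαβ, one_smul]
        conv_lhs => rw [h2]
        rw [add_smul, smul_assoc, smul_assoc, smul_add, smul_add]
        abel
      show z0 + (α • τ + β • σ) • v ∈ Ball D
      rw [h1]
      exact convex_Ball D hτ hσ hα hβ hαβ
    have dl : ∀ τ : ℂ, DifferentiableAt ℂ (fun τ : ℂ => z0 + τ • v) τ := by
      intro τ
      fun_prop
    let f : Fin 2 → ℂ → ℂ := ![fun τ => (om D a φ (z0 + τ • v)).1, fun τ => (om D a φ (z0 + τ • v)).2]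
    let f' : Fin 2 → ℂ → ℂ := ![fun τ => (pull1 D g (z0 + τ • v)
        (om D a φ (CMT.act D g (z0 + τ • v)))).1, fun τ => (pull1 D g (z0 + τ • v)
        (om D a φ (CMT.act D g (z0 + τ • v)))).2]
    have hf : ∀ i, DifferentiableOn ℂ (f i) U := by
      intro i τ hτ
      have h1 := differentiableAt_om D ha0 hφ (z := z0 + τ • v) hτ
      fin_cases i
      · exact (DifferentiableAt.comp (g := fun z => (om D a φ z).1) τ h1.1
          (dl τ)).differentiableWithinAt
      · exact (DifferentiableAt.comp (g := fun z => (om D a φ z).2) τ h1.2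
          (dl τ)).differentiableWithinAt
    have hf' : ∀ i, DifferentiableOn ℂ (f' i) U := by
      intro i τ hτ
      have h1 := diff_pull D ha0 hφ hgi (z := z0 + τ • v) hτ
      fin_cases i
      · exact (DifferentiableAt.comp (g := fun z => (pull1 D g z
          (om D a φ (CMT.act D g z))).1) τ h1.1 (dl τ)).differentiableWithinAt
      · exact (DifferentiableAt.comp (g := fun z => (pull1 D g z
          (om D a φ (CMT.act D g z))).2) τ h1.2 (dl τ)).differentiableWithinAt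
    have hval : ∀ τ ∈ U, ∃ c : ℂ, c ^ k = 1 ∧ ∀ i, f' i τ = c * f i τ := by
      intro τ hτ
      obtain ⟨c, hc, hcc⟩ := hI g (hΓn hg) (z0 + τ • v) hτ
      have hc2 := hcc φ hSB
      refine ⟨c, hc, fun i => ?_⟩
      fin_cases i
      · exact congrArg Prod.fst hc2
      · exact congrArg Prod.snd hc2
    have h00 : (0 : ℂ) ∈ U := by
      show z0 + (0 : ℂ) • v ∈ Ball D
      rw [zero_smul, add_zero]
      exact hz0
    have h11 : (1 : ℂ) ∈ U := by
      show z0 + (1 : ℂ) • v ∈ Ball D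
      rw [one_smul, hv, add_sub_cancel]
      exact hz
    have hval0 : ∀ i, f' i 0 = c0 * f i 0 := by
      have hc2 := hφ0 φ hSB
      intro i
      fin_cases i
      · show (pull1 D g (z0 + (0 : ℂ) • v) (om D a φ (CMT.act D g (z0 + (0 : ℂ) • v)))).1
          = c0 * (om D a φ (z0 + (0 : ℂ) • v)).1
        rw [zero_smul, add_zero]
        exact congrArg Prod.fst hc2
      · show (pull1 D g (z0 + (0 : ℂ) • v) (om D a φ (CMT.act D g (z0 + (0 : ℂ) • v)))).2
          = c0 * (om D a φ (z0 + (0 : ℂ) • v)).2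
        rw [zero_smul, add_zero]
        exact congrArg Prod.snd hc2
    have hi0 : ∃ i, f i 0 ≠ 0 := by
      by_contra hcon
      push Not at hcon
      apply hne
      have a0 : (om D a φ (z0 + (0 : ℂ) • v)).1 = 0 := hcon 0
      have a1 : (om D a φ (z0 + (0 : ℂ) • v)).2 = 0 := hcon 1
      rw [zero_smul, add_zero] at a0 a1
      exact Prod.ext a0 a1
    obtain ⟨i0, hi0⟩ := hi0
    have hfin := hRoot U hUo hUc.isPreconnected f f' k hk hf hf' hval i0 0 c0 h00 hi0 hc0 hval0
      1 h11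
    have g0 : (pull1 D g (z0 + (1 : ℂ) • v) (om D a φ (CMT.act D g (z0 + (1 : ℂ) • v)))).1
          = c0 * (om D a φ (z0 + (1 : ℂ) • v)).1 := hfin 0
    have g1 : (pull1 D g (z0 + (1 : ℂ) • v) (om D a φ (CMT.act D g (z0 + (1 : ℂ) • v)))).2
          = c0 * (om D a φ (z0 + (1 : ℂ) • v)).2 := hfin 1
    rw [one_smul, hv, add_sub_cancel] at g0 g1
    exact Prod.ext g0 g1
  -- the invariance group
  let G : Subgroup (SG D) :=
    { carrier := {g | g ∈ Γ ∧ ∀ z ∈ Ball D, pull1 D g z (om D a φ (CMT.act D g z)) = om D a φ z}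
      one_mem' := ⟨Γ.one_mem, fun z _ => by rw [pull1_one, act_one_Ball]⟩
      mul_mem' := by
        rintro g h ⟨hg, hg'⟩ ⟨hh, hh'⟩
        refine ⟨Γ.mul_mem hg hh, fun z hz => ?_⟩
        have gi : IsIso D g := (hΓn hg).1
        have hi : IsIso D h := (hΓn hh).1
        rw [act_mul_Ball D g hi hz, pull1_mul D g gi hi hz, hg' _ (act_mem_Ball D hi hz),
          hh' z hz]
      inv_mem' := by
        rintro g ⟨hg, hg'⟩
        refine ⟨Γ.inv_mem hg, fun z hz => ?_⟩
        have gi : IsIso D g := (hΓn hg).1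
        have gi' : IsIso D g⁻¹ := (hΓn (Γ.inv_mem hg)).1
        have hw := act_mem_Ball D gi' hz
        have h1 := hg' _ hw
        rw [← act_mul_Ball D g gi' hz, mul_inv_cancel, act_one_Ball] at h1
        rw [← h1, ← pull1_mul D g gi gi' hz, mul_inv_cancel, pull1_one] }
  have hGΓ : G ≤ Γ := fun g hg => hg.1
  refine ⟨G, ⟨hGΓ.trans hΓ3, ?_⟩, fun g hg z hz => hg.2 z hz⟩
  -- finite index
  choose! c hc hcz using claim
  have hfin : Finite {w : ℂ // w ^ k = 1} := by
    have h1 : {w : ℂ | w ^ k = 1}.Finite := by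
      have h2 := (Polynomial.nthRootsFinset k (1 : ℂ)).finite_toSet
      refine h2.subset fun w hw => ?_
      rw [Finset.mem_coe, Polynomial.mem_nthRootsFinset hk]
      exact hw
    exact h1.to_subtype
  have hrel : G.relIndex Γ ≠ 0 := by
    have hq : Finite (Γ ⧸ G.subgroupOf Γ) := by
      refine Finite.of_injective (β := {w : ℂ // w ^ k = 1})
        (fun q => ⟨c (q.out : Γ).1, hc _ (q.out : Γ).2⟩) ?_
      intro q q' hqq
      have e0 : c (q.out : Γ).1 = c (q'.out : Γ).1 := congrArg Subtype.val hqq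
      rw [← q.out_eq', ← q'.out_eq']
      rw [QuotientGroup.eq]
      rw [Subgroup.mem_subgroupOf]
      set x : SG D := (q.out : Γ).1 with hx
      set y : SG D := (q'.out : Γ).1 with hy
      have hxΓ : x ∈ Γ := (q.out : Γ).2
      have hyΓ : y ∈ Γ := (q'.out : Γ).2
      refine ⟨Γ.mul_mem (Γ.inv_mem hxΓ) hyΓ, fun z hz => ?_⟩
      show pull1 D (x⁻¹ * y) z (om D a φ (CMT.act D (x⁻¹ * y) z)) = om D a φ z
      have xi : IsIso D x := (hΓn hxΓ).1
      have yi : IsIso D y := (hΓn hyΓ).1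
      have xi' : IsIso D x⁻¹ := (hΓn (Γ.inv_mem hxΓ)).1
      have xyi : IsIso D (x⁻¹ * y) := (hΓn (Γ.mul_mem (Γ.inv_mem hxΓ) hyΓ)).1
      have hw : CMT.act D (x⁻¹ * y) z ∈ Ball D := act_mem_Ball D xyi hz
      have hcne : c x ≠ 0 := by
        intro h
        have := hc x hxΓ
        rw [h, zero_pow hk.ne'] at this
        exact zero_ne_one this
      -- `ω = c(x)⁻¹ x^* ω` at `w`
      have h1 := hcz x hxΓ _ hw
      rw [← act_mul_Ball D x xyi hz, mul_inv_cancel_left] at h1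
      have h2 := hcz y hyΓ z hz
      have h3 : pull1 D y z (om D a φ (CMT.act D y z))
          = pull1 D (x⁻¹ * y) z (pull1 D x (CMT.act D (x⁻¹ * y) z) (om D a φ (CMT.act D y z))) := by
        rw [← pull1_mul D x xi xyi hz, mul_inv_cancel_left]
      rw [h1, h2] at h3
      have h4 : ∀ p : ℂ × ℂ, pull1 D (x⁻¹ * y) z (c x * p.1, c x * p.2)
          = (c x * (pull1 D (x⁻¹ * y) z p).1, c x * (pull1 D (x⁻¹ * y) z p).2) := by
        intro p
        simp only [pull1]
        ext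
        · simp only; ring
        · simp only; ring
      rw [h4, ← e0] at h3
      have h5 := congrArg Prod.fst h3
      have h6 := congrArg Prod.snd h3
      exact Prod.ext (mul_left_cancel₀ hcne h5).symm (mul_left_cancel₀ hcne h6).symm
    have := Subgroup.index_ne_zero_of_finite (H := G.subgroupOf Γ)
    exact this
  exact Subgroup.relIndex_ne_zero_trans hrel (hIdx F D (3 * n) (by positivity))

end CMT.B
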