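import Pool.Agent.Lib.CMT.B.IfaceB

/-! # PROJECT CMT, part B: congruence subgroups act by integral symplectic matrices (`S_Lat`) -/

set_option autoImplicit false

open scoped BigOperators
open Matrix NumberField

noncomputable section

namespace CMT.B

namespace LatAux

/-- common denominators of finitely many rational matrices -/
theorem den1 {κ ι : Type*} [Fintype κ] [Fintype ι] (q : κ → Matrix ι ι ℚ) :
    ∃ c : ℕ, 0 < c ∧ ∀ k, ∃ Q : Matrix ι ι ℤ, (c : ℚ) • q k = Q.map (Int.cast : ℤ → ℚ) := by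
  classical
  refine ⟨∏ k, ∏ p, ∏ r, (q k p r).den, ?_, ?_⟩
  · exact Finset.prod_pos fun k _ => Finset.prod_pos fun p _ => Finset.prod_pos fun r _ =>
      (q k p r).den_pos
  · intro k
    have h1 : ∀ p r, ∃ z : ℤ, ((∏ k, ∏ p, ∏ r, (q k p r).den : ℕ) : ℚ) * q k p r = z := by
      intro p r
      have h2 : (q k p r).den ∣ ∏ k, ∏ p, ∏ r, (q k p r).den :=
        ((Finset.dvd_prod_of_mem (fun r => (q k p r).den) (Finset.mem_univ r)).trans
          (Finset.dvd_prod_of_mem (fun p => ∏ r, (q k p r).den) (Finset.mem_univ p))).trans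
          (Finset.dvd_prod_of_mem (fun k => ∏ p, ∏ r, (q k p r).den) (Finset.mem_univ k))
      obtain ⟨d, hd⟩ := h2
      refine ⟨d * (q k p r).num, ?_⟩
      rw [hd]
      push_cast
      have h3 : ((q k p r).den : ℚ) * q k p r = (q k p r).num := by
        rw [mul_comm]; exact Rat.mul_den_eq_num _
      linear_combination (d : ℚ) * h3
    choose z hz using h1
    refine ⟨Matrix.of z, ?_⟩
    ext p r
    simp only [Matrix.smul_apply, smul_eq_mul, Matrix.map_apply, Matrix.of_apply]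
    exact hz p r

variable {F : Type} [Field F] [NumberField F]

/-- an algebraic integer is an integral combination of the integral basis -/
theorem int_comb {x : F} (hx : IsIntegral ℤ x) : ∃ n : Jx F → ℤ, x = ∑ k, n k • eb F k := by
  refine ⟨fun k => (RingOfIntegers.basis F).repr ⟨x, hx⟩ k, ?_⟩
  have h1 := (RingOfIntegers.basis F).sum_repr ⟨x, hx⟩
  have h2 := congrArg (algebraMap (𝓞 F) F) h1
  rw [map_sum] at h2
  have h3 : (algebraMap (𝓞 F) F) ⟨x, hx⟩ = x := rfl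
  rw [h3] at h2
  refine h2.symm.trans (Finset.sum_congr rfl fun k _ => ?_)
  rw [map_zsmul]
  congr 1
  exact (integralBasis_apply F k).symm

/-- denominators of an additive map on integral matrices -/
theorem den2 {ι : Type*} [Fintype ι] (f : Matrix (Fin 3) (Fin 3) F →+ Matrix ι ι ℚ) :
    ∃ c : ℕ, 0 < c ∧ ∀ P : Matrix (Fin 3) (Fin 3) F, (∀ i j, IsIntegral ℤ (P i j)) →
      ∃ Q : Matrix ι ι ℤ, (c : ℚ) • f P = Q.map (Int.cast : ℤ → ℚ) := by
  classical
  obtain ⟨c, hc, hQ⟩ := den1 (fun k : (Fin 3 × Fin 3) × Jx F =>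
    f (Matrix.single k.1.1 k.1.2 (eb F k.2)))
  choose Q hQ using hQ
  refine ⟨c, hc, fun P hP => ?_⟩
  choose n hn using fun i j => int_comb (hP i j)
  refine ⟨∑ k : (Fin 3 × Fin 3) × Jx F, n k.1.1 k.1.2 k.2 • Q k, ?_⟩
  have hP' : P = ∑ k : (Fin 3 × Fin 3) × Jx F,
      n k.1.1 k.1.2 k.2 • Matrix.single k.1.1 k.1.2 (eb F k.2) := by
    rw [Fintype.sum_prod_type]
    conv_lhs => rw [Matrix.matrix_eq_sum_single P]
    rw [Fintype.sum_prod_type]
    refine Finset.sum_congr rfl fun i _ => Finset.sum_congr rfl fun j _ => ?_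
    conv_lhs => rw [hn i j]
    ext p r
    simp only [Matrix.single_apply, Matrix.sum_apply, Matrix.smul_apply]
    split_ifs
    · rfl
    · simp
  conv_lhs => rw [hP']
  rw [map_sum, Finset.smul_sum]
  have h4 : (∑ k : (Fin 3 × Fin 3) × Jx F, n k.1.1 k.1.2 k.2 • Q k).map (Int.cast : ℤ → ℚ)
      = ∑ k : (Fin 3 × Fin 3) × Jx F, n k.1.1 k.1.2 k.2 • (Q k).map (Int.cast : ℤ → ℚ) := by
    ext p r
    simp only [Matrix.map_apply, Matrix.sum_apply, Matrix.smul_apply, Int.cast_sum]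
    refine Finset.sum_congr rfl fun k _ => ?_
    simp only [zsmul_eq_mul, smul_eq_mul, Int.cast_mul]
  rw [h4]
  refine Finset.sum_congr rfl fun k _ => ?_
  rw [map_zsmul, smul_comm, hQ]

/-- `cX` as a linear map. -/
def lX (F : Type) [Field F] [NumberField F] : (Fin 3 → F) →ₗ[ℚ] (Ix F → ℚ) where
  toFun := cX
  map_add' x y := by
    funext p
    simp [cX]
  map_smul' c x := by
    funext p
    simp [cX]

/-- `cY` as a linear map. -/
def lY (D : Dat F) (a : F) : (Fin 3 → F) →ₗ[ℚ] (Ix F → ℚ) where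
  toFun := cY D a
  map_add' x y := by
    funext p
    simp only [cY, Pi.add_apply, mul_add, map_add]
    ring
  map_smul' c x := by
    funext p
    simp only [cY, Pi.smul_apply, smul_eq_mul, RingHom.id_apply, mul_smul_comm, map_smul]
    ring

theorem lX_inj : Function.Injective (lX F) := by
  intro x y h
  funext i
  apply (eb F).repr.injective
  ext j
  exact congrFun h (i, j)

/-- `x · y` in coordinates is the trace of the product. -/
theorem pair (D : Dat F) (a : F) (x y : Fin 3 → F) :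
    cX x ⬝ᵥ cY D a y = - Algebra.trace ℚ F (a * ∑ i, hF D i * (x i * y i)) := by
  have h1 : ∀ i, ∑ j, (eb F).repr (x i) j * Algebra.trace ℚ F (eb F j * (a * hF D i * y i))
      = Algebra.trace ℚ F (a * (hF D i * (x i * y i))) := by
    intro i
    have h2 : a * (hF D i * (x i * y i)) = ∑ j, (eb F).repr (x i) j • (eb F j * (a * hF D i * y i)) := by
      conv_lhs => rw [← (eb F).sum_repr (x i)]
      rw [Finset.sum_mul, Finset.mul_sum, Finset.mul_sum]
      refine Finset.sum_congr rfl fun j _ => ?_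
      rw [smul_mul_assoc, mul_smul_comm, mul_smul_comm]
      congr 1
      ring
    rw [h2, map_sum]
    refine Finset.sum_congr rfl fun j _ => ?_
    rw [map_smul, smul_eq_mul]
  rw [dotProduct, Fintype.sum_prod_type, Finset.mul_sum, map_sum, ← Finset.sum_neg_distrib]
  refine Finset.sum_congr rfl fun i _ => ?_
  rw [← h1 i, ← Finset.sum_neg_distrib]
  refine Finset.sum_congr rfl fun j _ => ?_
  simp only [cX, cY]
  ring

/-- the vector `x + δ y` -/
def vK (D : Dat F) (x y : Fin 3 → F) : Fin 3 → KD D := fun i => ⟨x i, y i⟩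

theorem mulVec_vK (D : Dat F) (g : SG D) (x y : Fin 3 → F) :
    g.1 *ᵥ vK D x y = vK D (gx D g x y) (gy D g x y) := by
  funext i
  apply QuadraticAlgebra.ext
  · simp only [Matrix.mulVec, dotProduct, Fin.sum_univ_three, vK, gx, gA, gB, Matrix.map_apply,
      QuadraticAlgebra.re_add, QuadraticAlgebra.re_mul, Pi.sub_apply, Pi.smul_apply, smul_eq_mul]
    ring
  · simp only [Matrix.mulVec, dotProduct, Fin.sum_univ_three, vK, gy, gA, gB, Matrix.map_apply,
      QuadraticAlgebra.im_add, QuadraticAlgebra.im_mul, Pi.add_apply, zero_mul, add_zero]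
    ring

theorem cj_vec (D : Dat F) (g : SG D) (v : Fin 3 → KD D) :
    (fun i => cj D ((g.1 *ᵥ v) i)) = g.1.map (cj D) *ᵥ fun i => cj D (v i) := by
  funext i
  simp only [Matrix.mulVec, dotProduct, Matrix.map_apply]
  show cjh D (∑ j, g.1 i j * v j) = _
  rw [map_sum]
  exact Finset.sum_congr rfl fun j _ => cj_mul D _ _

/-- invariance of the alternating form -/
theorem alt_inv (D : Dat F) {g : SG D} (hg : IsIso D g) (x y x' y' : Fin 3 → F) :
    ∑ i, hF D i * (gx D g x y i * gy D g x' y' i - gy D g x y i * gx D g x' y' i)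
      = ∑ i, hF D i * (x i * y' i - y i * x' i) := by
  have key : ∀ x y x' y' : Fin 3 → F,
      ((fun i => cj D (vK D x y i)) ⬝ᵥ (Hm D *ᵥ vK D x' y')).im
        = ∑ i, hF D i * (x i * y' i - y i * x' i) := by
    intro x y x' y'
    simp only [dotProduct, Fin.sum_univ_three, Hm, Matrix.mulVec_diagonal, vK, cj, hF,
      QuadraticAlgebra.im_add, QuadraticAlgebra.im_mul, QuadraticAlgebra.re_mul,
      QuadraticAlgebra.re_add]
    simp [Matrix.cons_val_zero, Matrix.cons_val_one, QuadraticAlgebra.algebraMap_re,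
      QuadraticAlgebra.algebraMap_im, QuadraticAlgebra.re_one, QuadraticAlgebra.im_one]
    ring
  rw [← key, ← key, ← mulVec_vK, ← mulVec_vK]
  congr 1
  have h1 : (g.1.map (cj D)) *ᵥ (fun i => cj D (vK D x y i))
      = (fun i => cj D (vK D x y i)) ᵥ* (g.1.map (cj D))ᵀ := by
    rw [Matrix.vecMul_transpose]
  rw [cj_vec, h1, ← Matrix.dotProduct_mulVec, Matrix.mulVec_mulVec, Matrix.mulVec_mulVec, hg]

/-- coordinates of `cY` on `cX`, both orders -/
theorem alt_pair (D : Dat F) (a : F) (x y x' y' : Fin 3 → F) :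
    cX x ⬝ᵥ cY D a y' - cY D a y ⬝ᵥ cX x'
      = - Algebra.trace ℚ F (a * ∑ i, hF D i * (x i * y' i - y i * x' i)) := by
  rw [dotProduct_comm (cY D a y), pair, pair, sub_neg_eq_add, neg_add_eq_sub, ← neg_sub,
    ← map_sub, ← mul_sub, ← Finset.sum_sub_distrib]
  congr 4
  funext i
  ring

/-- the action preserves the alternating form in coordinates -/
theorem alt_act (D : Dat F) (a : F) {g : SG D} (hg : IsIso D g) (x y x' y' : Fin 3 → F) :
    cX (gx D g x y) ⬝ᵥ cY D a (gy D g x' y') - cY D a (gy D g x y) ⬝ᵥ cX (gx D g x' y')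
      = cX x ⬝ᵥ cY D a y' - cY D a y ⬝ᵥ cX x' := by
  rw [alt_pair, alt_pair, alt_inv D hg]

theorem mat_zero {ι : Type*} [Fintype ι] [DecidableEq ι] {P Q : Matrix ι ι ℚ}
    (h : ∀ u v : ι → ℚ, u ⬝ᵥ (P *ᵥ v) = u ⬝ᵥ (Q *ᵥ v)) : P = Q := by
  ext i j
  have := h (Pi.single i 1) (Pi.single j 1)
  simpa using this

theorem den3 {ι : Type*} [Fintype ι] (f : Matrix (Fin 3) (Fin 3) F →+ Matrix ι ι ℚ) {c d : ℕ}
    (hcd : c ∣ d)
    (hc : ∀ P : Matrix (Fin 3) (Fin 3) F, (∀ i j, IsIntegral ℤ (P i j)) →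
      ∃ Q : Matrix ι ι ℤ, (c : ℚ) • f P = Q.map (Int.cast : ℤ → ℚ))
    (P : Matrix (Fin 3) (Fin 3) F) (hP : ∀ i j, IsIntegral ℤ (P i j)) :
    ∃ Q : Matrix ι ι ℤ, (d : ℚ) • f P = Q.map (Int.cast : ℤ → ℚ) := by
  obtain ⟨k, rfl⟩ := hcd
  obtain ⟨Q, hQ⟩ := hc P hP
  refine ⟨(k : ℤ) • Q, ?_⟩
  have h1 : ((c * k : ℕ) : ℚ) • f P = (k : ℚ) • ((c : ℚ) • f P) := by
    rw [smul_smul]
    congr 1
    push_cast
    ring
  rw [h1, hQ]
  ext p r
  simp

/-- multiplication by a matrix, as a rational linear map -/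
def mv (P : Matrix (Fin 3) (Fin 3) F) : (Fin 3 → F) →ₗ[ℚ] (Fin 3 → F) :=
  (Matrix.mulVecLin P).restrictScalars ℚ

theorem mv_apply (P : Matrix (Fin 3) (Fin 3) F) (x : Fin 3 → F) : mv P x = P *ᵥ x := rfl

/-- the matrix of multiplication by `P` in coordinates -/
def ff (E E' : (Fin 3 → F) ≃ₗ[ℚ] (Ix F → ℚ)) :
    Matrix (Fin 3) (Fin 3) F →+ Matrix (Ix F) (Ix F) ℚ where
  toFun P := LinearMap.toMatrix' (E'.toLinearMap ∘ₗ mv P ∘ₗ E.symm.toLinearMap)
  map_zero' := by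
    have h1 : mv (0 : Matrix (Fin 3) (Fin 3) F) = 0 := by
      ext x i
      simp [mv_apply]
    rw [h1]
    simp
  map_add' P Q := by
    have h1 : mv (P + Q) = mv P + mv Q := by
      apply LinearMap.ext
      intro x
      rw [LinearMap.add_apply, mv_apply, mv_apply, mv_apply, Matrix.add_mulVec]
    rw [h1, LinearMap.add_comp, LinearMap.comp_add, map_add]

theorem ff_mulVec (E E' : (Fin 3 → F) ≃ₗ[ℚ] (Ix F → ℚ)) (P : Matrix (Fin 3) (Fin 3) F)
    (x : Fin 3 → F) : ff E E' P *ᵥ E x = E' (P *ᵥ x) := by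
  show LinearMap.toMatrix' (E'.toLinearMap ∘ₗ mv P ∘ₗ E.symm.toLinearMap) *ᵥ E x = _
  rw [LinearMap.toMatrix'_mulVec]
  simp [mv_apply]

theorem ff_one (E : (Fin 3 → F) ≃ₗ[ℚ] (Ix F → ℚ)) : ff E E 1 = 1 := by
  show LinearMap.toMatrix' (E.toLinearMap ∘ₗ mv 1 ∘ₗ E.symm.toLinearMap) = 1
  have h1 : E.toLinearMap ∘ₗ mv 1 ∘ₗ E.symm.toLinearMap = LinearMap.id := by
    apply LinearMap.ext
    intro x
    simp [mv_apply]
  rw [h1, LinearMap.toMatrix'_id]

theorem gA_cong (D : Dat F) {n : ℕ} {g : SG D} {X : Matrix (Fin 3) (Fin 3) (KD D)}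
    (h : g.1 = 1 + (n : KD D) • X) : gA D g = 1 + n • X.map QuadraticAlgebra.re := by
  ext i j
  simp only [gA, h, Matrix.map_apply, Matrix.add_apply, Matrix.smul_apply, smul_eq_mul,
    QuadraticAlgebra.re_add, QuadraticAlgebra.re_mul]
  by_cases hij : i = j
  · subst hij
    simp [QuadraticAlgebra.re_one]
  · simp [Matrix.one_apply_ne hij]

theorem gB_cong (D : Dat F) {n : ℕ} {g : SG D} {X : Matrix (Fin 3) (Fin 3) (KD D)}
    (h : g.1 = 1 + (n : KD D) • X) : gB D g = n • X.map QuadraticAlgebra.im := by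
  ext i j
  simp only [gB, h, Matrix.map_apply, Matrix.add_apply, Matrix.smul_apply, smul_eq_mul,
    QuadraticAlgebra.im_add, QuadraticAlgebra.im_mul]
  by_cases hij : i = j
  · subst hij
    simp [QuadraticAlgebra.im_one]
  · simp [Matrix.one_apply_ne hij]

end LatAux

open LatAux

theorem pLat (hcXY : S_cXY) : S_Lat := by
  intro F _ _ D a ha M hM
  obtain ⟨hXs, hYs⟩ := hcXY F D a ha
  let eX : (Fin 3 → F) ≃ₗ[ℚ] (Ix F → ℚ) := LinearEquiv.ofBijective (lX F) ⟨lX_inj, hXs⟩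
  have hYi : Function.Injective (lY D a) :=
    (LinearMap.injective_iff_surjective_of_finrank_eq_finrank eX.finrank_eq).2 hYs
  let eY : (Fin 3 → F) ≃ₗ[ℚ] (Ix F → ℚ) := LinearEquiv.ofBijective (lY D a) ⟨hYi, hYs⟩
  have eXa : ∀ x, eX x = cX x := fun x => rfl
  have eYa : ∀ y, eY y = cY D a y := fun y => rfl
  obtain ⟨c1, hc1, h1⟩ := den2 (ff eX eX)
  obtain ⟨c2, hc2, h2⟩ := den2 (ff eY eX)
  obtain ⟨c3, hc3, h3⟩ := den2 (ff eX eY)
  obtain ⟨c4, hc4, h4⟩ := den2 (ff eY eY)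
  obtain ⟨c, hcd⟩ : ∃ c, c = c1 * c2 * c3 * c4 := ⟨_, rfl⟩
  have hc : 0 < c := by rw [hcd]; positivity
  have h1' := den3 (ff eX eX) (c := c1) (d := c) ⟨c2 * c3 * c4, by rw [hcd]; ring⟩ h1
  have h2' := den3 (ff eY eX) (c := c2) (d := c) ⟨c1 * c3 * c4, by rw [hcd]; ring⟩ h2
  have h3' := den3 (ff eX eY) (c := c3) (d := c) ⟨c1 * c2 * c4, by rw [hcd]; ring⟩ h3
  have h4' := den3 (ff eY eY) (c := c4) (d := c) ⟨c1 * c2 * c3, by rw [hcd]; ring⟩ h4
  refine ⟨M * c, Nat.mul_pos hM hc, ?_⟩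
  rintro g ⟨hg, X, hX, hgX⟩
  have hA := gA_cong D hgX
  have hB := gB_cong D hgX
  have hAi : ∀ i j, IsIntegral ℤ (X.map QuadraticAlgebra.re i j) := fun i j => (hX i j).1
  have hBi : ∀ i j, IsIntegral ℤ (X.map QuadraticAlgebra.im i j) := fun i j => (hX i j).2
  have hBi' : ∀ i j, IsIntegral ℤ (((-D.del) • X.map QuadraticAlgebra.im) i j) := fun i j => by
    rw [Matrix.smul_apply, smul_eq_mul]
    exact D.del_int.neg.mul (hBi i j)
  obtain ⟨Q1, hQ1⟩ := h1' _ hAi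
  obtain ⟨Q2, hQ2⟩ := h2' _ hBi'
  obtain ⟨Q3, hQ3⟩ := h3' _ hBi
  obtain ⟨Q4, hQ4⟩ := h4' _ hAi
  have key : ∀ (f : Matrix (Fin 3) (Fin 3) F →+ Matrix (Ix F) (Ix F) ℚ)
      (P : Matrix (Fin 3) (Fin 3) F) (Q : Matrix (Ix F) (Ix F) ℤ),
      (c : ℚ) • f P = Q.map (Int.cast : ℤ → ℚ) →
      f ((M * c) • P) = ((M : ℤ) • Q).map (Int.cast : ℤ → ℚ) := by
    intro f P Q hQ
    rw [map_nsmul]
    have e1 : (M * c) • f P = (M : ℚ) • ((c : ℚ) • f P) := by
      rw [smul_smul, ← Nat.cast_mul, Nat.cast_smul_eq_nsmul]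
    rw [e1, hQ]
    ext p r
    simp only [Matrix.smul_apply, Matrix.map_apply, smul_eq_mul, Int.cast_mul, Int.cast_natCast]
  have k1 : ff eX eX (gA D g) = (1 + (M : ℤ) • Q1).map (Int.cast : ℤ → ℚ) := by
    rw [hA, map_add, ff_one, key _ _ _ hQ1]
    ext p r
    simp [Matrix.one_apply]
  have k4 : ff eY eY (gA D g) = (1 + (M : ℤ) • Q4).map (Int.cast : ℤ → ℚ) := by
    rw [hA, map_add, ff_one, key _ _ _ hQ4]
    ext p r
    simp [Matrix.one_apply]
  have k2 : ff eY eX ((-D.del) • gB D g) = ((M : ℤ) • Q2).map (Int.cast : ℤ → ℚ) := by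
    rw [hB, smul_comm, key _ _ _ hQ2]
  have k3 : ff eX eY (gB D g) = ((M : ℤ) • Q3).map (Int.cast : ℤ → ℚ) := by
    rw [hB, key _ _ _ hQ3]
  have rel : ∀ x y : Fin 3 → F,
      cX (gx D g x y) = (1 + (M : ℤ) • Q1).map (Int.cast : ℤ → ℚ) *ᵥ cX x
        + ((M : ℤ) • Q2).map (Int.cast : ℤ → ℚ) *ᵥ cY D a y ∧
      cY D a (gy D g x y) = ((M : ℤ) • Q3).map (Int.cast : ℤ → ℚ) *ᵥ cX x
        + (1 + (M : ℤ) • Q4).map (Int.cast : ℤ → ℚ) *ᵥ cY D a y := by
    intro x y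
    rw [← k1, ← k2, ← k3, ← k4, ← eXa, ← eYa, ← eXa, ← eYa, ff_mulVec, ff_mulVec, ff_mulVec,
      ff_mulVec, ← map_add, ← map_add]
    refine ⟨?_, rfl⟩
    congr 1
    rw [gx, Matrix.smul_mulVec, neg_smul, sub_eq_add_neg]
  refine ⟨1 + (M : ℤ) • Q1, (M : ℤ) • Q2, (M : ℤ) • Q3, 1 + (M : ℤ) • Q4, ?_, ?_, rel⟩
  · generalize (1 + (M : ℤ) • Q1) = al at rel
    generalize ((M : ℤ) • Q2) = be at rel
    generalize ((M : ℤ) • Q3) = ga at rel
    generalize (1 + (M : ℤ) • Q4) = de at rel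
    set al' : Matrix (Ix F) (Ix F) ℚ := al.map (Int.cast : ℤ → ℚ) with hal
    set be' : Matrix (Ix F) (Ix F) ℚ := be.map (Int.cast : ℤ → ℚ) with hbe
    set ga' : Matrix (Ix F) (Ix F) ℚ := ga.map (Int.cast : ℤ → ℚ) with hga
    set de' : Matrix (Ix F) (Ix F) ℚ := de.map (Int.cast : ℤ → ℚ) with hde
    have cX0 : cX (0 : Fin 3 → F) = 0 := (lX F).map_zero
    have cY0 : cY D a (0 : Fin 3 → F) = 0 := (lY D a).map_zero
    have main : ∀ x y x' y' : Fin 3 → F,
        (al' *ᵥ cX x + be' *ᵥ cY D a y) ⬝ᵥ (ga' *ᵥ cX x' + de' *ᵥ cY D a y')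
          - (ga' *ᵥ cX x + de' *ᵥ cY D a y) ⬝ᵥ (al' *ᵥ cX x' + be' *ᵥ cY D a y')
        = cX x ⬝ᵥ cY D a y' - cY D a y ⬝ᵥ cX x' := by
      intro x y x' y'
      rw [← (rel x y).1, ← (rel x y).2, ← (rel x' y').1, ← (rel x' y').2]
      exact alt_act D a hg x y x' y'
    have tr : ∀ (P Q : Matrix (Ix F) (Ix F) ℚ) (u v : Ix F → ℚ),
        (P *ᵥ u) ⬝ᵥ (Q *ᵥ v) = u ⬝ᵥ ((Pᵀ * Q) *ᵥ v) := by
      intro P Q u v
      rw [← Matrix.mulVec_mulVec, Matrix.dotProduct_mulVec u, Matrix.vecMul_transpose]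
    have q1 : al'ᵀ * ga' = ga'ᵀ * al' := by
      apply mat_zero
      intro u v
      obtain ⟨x, rfl⟩ := hXs u
      obtain ⟨x', rfl⟩ := hXs v
      have := main x 0 x' 0
      rw [cY0, Matrix.mulVec_zero, Matrix.mulVec_zero, add_zero, add_zero, add_zero, add_zero,
        dotProduct_zero, zero_dotProduct, sub_zero, tr, tr] at this
      exact sub_eq_zero.1 this
    have q2 : be'ᵀ * de' = de'ᵀ * be' := by
      apply mat_zero
      intro u v
      obtain ⟨x, rfl⟩ := hYs u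
      obtain ⟨x', rfl⟩ := hYs v
      have := main 0 x 0 x'
      rw [cX0, Matrix.mulVec_zero, Matrix.mulVec_zero, zero_add, zero_add, zero_add, zero_add,
        dotProduct_zero, zero_dotProduct, sub_zero, tr, tr] at this
      exact sub_eq_zero.1 this
    have q3 : al'ᵀ * de' - ga'ᵀ * be' = 1 := by
      apply mat_zero
      intro u v
      obtain ⟨x, rfl⟩ := hXs u
      obtain ⟨x', rfl⟩ := hYs v
      have := main x 0 0 x'
      rw [cX0, cY0, Matrix.mulVec_zero, Matrix.mulVec_zero, Matrix.mulVec_zero,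
        Matrix.mulVec_zero, add_zero, zero_add, add_zero, zero_add,
        dotProduct_zero, sub_zero, tr, tr] at this
      rw [Matrix.sub_mulVec, dotProduct_sub, this, Matrix.one_mulVec]
    have inj : Function.Injective (fun P : Matrix (Ix F) (Ix F) ℤ => P.map (Int.cast : ℤ → ℚ)) :=
      Matrix.map_injective Int.cast_injective
    have mm' : ∀ P Q : Matrix (Ix F) (Ix F) ℤ, (P * Q).map (Int.cast : ℤ → ℚ)
        = P.map (Int.cast : ℤ → ℚ) * Q.map (Int.cast : ℤ → ℚ) := fun P Q =>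
      Matrix.map_mul (f := Int.castRingHom ℚ)
    have mt' : ∀ P : Matrix (Ix F) (Ix F) ℤ, (Pᵀ).map (Int.cast : ℤ → ℚ)
        = (P.map (Int.cast : ℤ → ℚ))ᵀ := fun P => rfl
    rw [SymplecticGroup.fromBlocks_mem_iff]
    refine ⟨inj ?_, inj ?_, inj ?_⟩
    · show (alᵀ * ga).map _ = (gaᵀ * al).map _
      rw [mm', mm', mt', mt']
      exact q1
    · show (beᵀ * de).map _ = (deᵀ * be).map _
      rw [mm', mm', mt', mt']
      exact q2
    · show (alᵀ * de - gaᵀ * be).map _ = (1 : Matrix (Ix F) (Ix F) ℤ).map _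
      have e1 : (alᵀ * de - gaᵀ * be).map (Int.cast : ℤ → ℚ)
          = (alᵀ * de).map (Int.cast : ℤ → ℚ) - (gaᵀ * be).map (Int.cast : ℤ → ℚ) := by
        ext p r
        simp
      have e2 : (1 : Matrix (Ix F) (Ix F) ℤ).map (Int.cast : ℤ → ℚ) = 1 := by
        ext p r
        simp [Matrix.one_apply]
      rw [e1, e2, mm', mm', mt', mt']
      exact q3
  · refine ⟨fromBlocks Q1 Q2 Q3 Q4, ?_⟩
    rw [Matrix.fromBlocks_smul, ← Matrix.fromBlocks_one, Matrix.fromBlocks_add, zero_add, zero_add]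

end CMT.B
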