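import Pool.Agent.Lib.CMT.B.IfaceB

/-!
# PROJECT CMT, part B: `S_Loc` and `S_Det`
-/

set_option autoImplicit false

open scoped BigOperators ComplexConjugate
open Matrix NumberField

noncomputable section

namespace CMT.B

variable {F : Type} [Field F] [NumberField F]

private lemma hh_eq_ht (D : Dat F) : hh D = ht D D.t0 := rfl

private lemma hh_two_neg (D : Dat F) : hh D 2 < 0 := by
  rw [hh_two]; exact neg_neg_of_pos D.bet_pos

private lemma sqrt_pos (D : Dat F) (t : F →+* ℝ) : 0 < Real.sqrt (t D.del) :=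
  Real.sqrt_pos.mpr (D.del_pos t)

private lemma ka_ne_zero (D : Dat F) {a : F} (ha : 0 < D.t0 a) : ka D a ≠ 0 := by
  unfold ka
  refine mul_ne_zero Complex.I_ne_zero ?_
  exact_mod_cast (div_pos ha (sqrt_pos D D.t0)).ne'

private lemma ka_wt (D : Dat F) (a : F) : ka D a * wt D D.t0 = -((D.t0 a : ℝ) : ℂ) := by
  have hs : ((Real.sqrt (D.t0 D.del) : ℝ) : ℂ) ≠ 0 := by
    exact_mod_cast (sqrt_pos D D.t0).ne'
  unfold ka wt
  rw [Complex.ofReal_div]
  have hI : Complex.I * Complex.I = -1 := Complex.I_mul_I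
  field_simp
  linear_combination ((D.t0 a : ℝ) : ℂ) * hI

private lemma conj_wt (D : Dat F) (t : F →+* ℝ) : conj (wt D t) = - wt D t := by
  unfold wt
  rw [map_mul, Complex.conj_I, Complex.conj_ofReal]
  ring

/-- The complex vector at the place `t`. -/
private def vv (D : Dat F) (t : F →+* ℝ) (x y : Fin 3 → F) : Fin 3 → ℂ :=
  fun i => ((t (x i) : ℝ) : ℂ) + wt D t * ((t (y i) : ℝ) : ℂ)

private lemma vv_eq_ev (D : Dat F) (t : F →+* ℝ) (x y : Fin 3 → F) (i : Fin 3) :
    vv D t x y i = ev D t ⟨x i, y i⟩ := rfl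

private lemma g_vec (D : Dat F) (g : SG D) (x y : Fin 3 → F) (i : Fin 3) :
    (⟨gx D g x y i, gy D g x y i⟩ : KD D) = ∑ l, g.1 i l * (⟨x l, y l⟩ : KD D) := by
  apply QuadraticAlgebra.ext
  · have h1 : (∑ l, g.1 i l * (⟨x l, y l⟩ : KD D)).re
        = ∑ l, (g.1 i l * (⟨x l, y l⟩ : KD D)).re := by
      simp only [Fin.sum_univ_three, QuadraticAlgebra.re_add]
    rw [h1]
    simp only [gx, gA, gB, Pi.sub_apply, Pi.smul_apply, smul_eq_mul, mulVec, dotProduct,
      Matrix.map_apply, QuadraticAlgebra.re_mul, Fin.sum_univ_three]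
    ring
  · have h1 : (∑ l, g.1 i l * (⟨x l, y l⟩ : KD D)).im
        = ∑ l, (g.1 i l * (⟨x l, y l⟩ : KD D)).im := by
      simp only [Fin.sum_univ_three, QuadraticAlgebra.im_add]
    rw [h1]
    simp only [gy, gA, gB, Pi.add_apply, mulVec, dotProduct,
      Matrix.map_apply, QuadraticAlgebra.im_mul, Fin.sum_univ_three]
    ring

private lemma vv_act (D : Dat F) (t : F →+* ℝ) (g : SG D) (x y : Fin 3 → F) :
    vv D t (gx D g x y) (gy D g x y) = mt D t g *ᵥ vv D t x y := by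
  funext i
  rw [vv_eq_ev, g_vec, map_sum]
  simp only [mulVec, dotProduct]
  refine Finset.sum_congr rfl fun l _ => ?_
  rw [map_mul, vv_eq_ev]
  rfl

private lemma ht_ne_zero (D : Dat F) (t : F →+* ℝ) (i : Fin 3) : ht D t i ≠ 0 := by
  fin_cases i
  · exact one_ne_zero
  · exact one_ne_zero
  · show -(t D.bet) ≠ 0
    rw [neg_ne_zero]
    by_cases h : t = D.t0
    · rw [h]; exact D.bet_pos.ne'
    · exact (D.bet_neg t h).ne

private lemma Wt_t0 (D : Dat F) (a : F) (z : ℂ × ℂ) (x y : Fin 3 → F) :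
    Wt D a z x y D.t0 = Wz (ka D a) (hh D) z (vv D D.t0 x y) := by
  have h := Wz_real (κ := ka D a) (w := wt D D.t0) (a := D.t0 a) (conj_wt D D.t0)
    (ka_wt D a) (hh D) z (fun i => D.t0 (x i)) (fun i => D.t0 (y i))
  have h2 : vv D D.t0 x y = fun i => ((D.t0 (x i) : ℝ) : ℂ) + wt D D.t0 * ((D.t0 (y i) : ℝ) : ℂ) :=
    rfl
  rw [h2, h]
  funext i
  simp only [Wt, Zt, if_true, hh_eq_ht]
  push_cast
  ring

private lemma Wt_pos (D : Dat F) {a : F} {t : F →+* ℝ} (ht0 : t ≠ D.t0) (hta : 0 < t a)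
    (z : ℂ × ℂ) (x y : Fin 3 → F) (i : Fin 3) :
    Wt D a z x y t i = Complex.I * ((t a / Real.sqrt (t D.del) : ℝ) : ℂ) * (ht D t i : ℂ) *
      vv D t x y i := by
  have hs : ((Real.sqrt (t D.del) : ℝ) : ℂ) ≠ 0 := by
    exact_mod_cast (sqrt_pos D t).ne'
  have hI : Complex.I * Complex.I = -1 := Complex.I_mul_I
  simp only [Wt, Zt, if_neg ht0, mulVec_diagonal, abs_of_pos hta, vv, wt]
  push_cast
  field_simp
  linear_combination (-((t a : ℝ) : ℂ) * (ht D t i : ℂ) * ((t (y i) : ℝ) : ℂ) *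
    ((Real.sqrt (t D.del) : ℝ) : ℂ)) * hI

private lemma Wt_neg (D : Dat F) {a : F} {t : F →+* ℝ} (ht0 : t ≠ D.t0) (hta : t a < 0)
    (z : ℂ × ℂ) (x y : Fin 3 → F) (i : Fin 3) :
    Wt D a z x y t i = -(Complex.I * ((t a / Real.sqrt (t D.del) : ℝ) : ℂ) * (ht D t i : ℂ) *
      conj (vv D t x y i)) := by
  have hs : ((Real.sqrt (t D.del) : ℝ) : ℂ) ≠ 0 := by
    exact_mod_cast (sqrt_pos D t).ne'
  have hI : Complex.I * Complex.I = -1 := Complex.I_mul_I
  simp only [Wt, Zt, if_neg ht0, mulVec_diagonal, abs_of_neg hta, vv, wt, map_add, map_mul,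
    Complex.conj_ofReal, Complex.conj_I]
  push_cast
  field_simp
  linear_combination (-((t a : ℝ) : ℂ) * (ht D t i : ℂ) * ((t (y i) : ℝ) : ℂ) *
    ((Real.sqrt (t D.del) : ℝ) : ℂ)) * hI

theorem pLoc : S_Loc := by
  intro F _ _ D a ha g hg z hz x y t
  by_cases h : t = D.t0
  · subst h
    rw [Wt_t0, Wt_t0, vv_act, act_eq]
    simp only [NNt, if_true]
    rw [Ball_eq] at hz
    exact Wz_act (ka_ne_zero D ha) (hh_zero_pos D) (hh_one_pos D) (hh_two_neg D)
      (mt_t0_isU D hg) hz _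
  · have ha0 : t a ≠ 0 := by
      intro h0
      have : a = 0 := (map_eq_zero t).mp h0
      rw [this, map_zero] at ha
      exact lt_irrefl _ ha
    rcases lt_or_gt_of_ne ha0 with hta | hta
    · funext i
      have hnot : ¬ 0 < t a := not_lt.mpr hta.le
      rw [Wt_neg D h hta, vv_act]
      simp only [NNt, if_neg h, if_neg hnot, mulVec, dotProduct, of_apply]
      rw [map_sum, Finset.mul_sum, ← Finset.sum_neg_distrib]
      refine Finset.sum_congr rfl fun l _ => ?_
      rw [Wt_neg D h hta, map_mul, Complex.ofReal_inv]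
      have hl : ((ht D t l : ℝ) : ℂ) ≠ 0 := by exact_mod_cast ht_ne_zero D t l
      field_simp
    · funext i
      rw [Wt_pos D h hta, vv_act]
      simp only [NNt, if_neg h, if_pos hta, mulVec, dotProduct, of_apply]
      rw [Finset.mul_sum]
      refine Finset.sum_congr rfl fun l _ => ?_
      rw [Wt_pos D h hta, Complex.ofReal_inv]
      have hl : ((ht D t l : ℝ) : ℂ) ≠ 0 := by exact_mod_cast ht_ne_zero D t l
      field_simp

private lemma det_conj_diag {d : Fin 3 → ℝ} (hd : ∀ i, d i ≠ 0) (M : Matrix (Fin 3) (Fin 3) ℂ) :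
    (Matrix.of fun i l => (d i : ℂ) * M i l * ((d l)⁻¹ : ℝ)).det = M.det := by
  have h1 : (Matrix.of fun i l => (d i : ℂ) * M i l * ((d l)⁻¹ : ℝ)) =
      diagonal (fun i => (d i : ℂ)) * M * diagonal (fun i => (((d i)⁻¹ : ℝ) : ℂ)) := by
    ext i l
    rw [mul_diagonal, diagonal_mul, of_apply]
  rw [h1, det_mul, det_mul, det_diagonal, det_diagonal, mul_comm, ← mul_assoc,
    ← Finset.prod_mul_distrib]
  have h2 : ∀ i ∈ Finset.univ, (((d i)⁻¹ : ℝ) : ℂ) * (d i : ℂ) = 1 := by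
    intro i _
    have : (d i : ℂ) ≠ 0 := by exact_mod_cast hd i
    rw [Complex.ofReal_inv]
    field_simp
  rw [Finset.prod_congr rfl h2, Finset.prod_const_one, one_mul]

theorem pDet : S_Det := by
  intro F _ _ D a ha g hg z hz
  have h1 : ∏ t : F →+* ℝ, (NNt D a g z t).det =
      (NNm (ka D a) (hh D) (mt D D.t0 g) z).det := by
    rw [Finset.prod_eq_single D.t0]
    · simp only [NNt, if_true]
    · intro t _ h
      simp only [NNt, if_neg h]
      split_ifs with hta
      · rw [det_conj_diag (ht_ne_zero D t), mt_det]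
      · have h2 : (Matrix.of fun i l => (ht D t i : ℂ) * conj (mt D t g i l) *
            ((ht D t l)⁻¹ : ℝ)) = Matrix.of fun i l => (ht D t i : ℂ) *
            ((mt D t g).map (starRingEnd ℂ)) i l * ((ht D t l)⁻¹ : ℝ) := rfl
        rw [h2, det_conj_diag (ht_ne_zero D t)]
        have h3 := (RingHom.map_det (starRingEnd ℂ) (mt D t g)).symm
        have h4 : ((starRingEnd ℂ).mapMatrix (mt D t g)) = (mt D t g).map (starRingEnd ℂ) := rfl
        rw [h4, mt_det, map_one] at h3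
        exact h3
    · intro h; exact absurd (Finset.mem_univ _) h
  rw [h1, num_two_eq, act_eq]
  have hz' := hz
  rw [Ball_eq] at hz'
  have h2 := det_NNm (ka_ne_zero D ha) (hh_zero_pos D) (hh_one_pos D) (hh_two_neg D)
    (mt_t0_isU D hg) (mt_det D D.t0 g) hz'
  have h3 : ∀ w : ℂ × ℂ, s2 (hh D) w = mm (D.t0 D.bet) w := by
    intro w
    rw [s2, hh_zero, hh_one, hh_two, mm]
    push_cast
    ring
  rw [h3, h3] at h2
  exact h2

end CMT.B
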