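import Pool.Agent.Lib.CMT.B.IfaceB

/-!
# PROJECT CMT, part B: periodicity of a Schwartz function in the lattice coordinates
-/

set_option autoImplicit false

open scoped BigOperators
open NumberField

noncomputable section

namespace CMT.B

variable {F : Type} [Field F] [NumberField F]

private theorem eb_int (j : Jx F) : IsIntegral ℤ (eb F j) := by
  have h : eb F j = ((RingOfIntegers.basis F j : 𝓞 F) : F) := integralBasis_apply F j
  rw [h]
  exact RingOfIntegers.isIntegral_coe _

private theorem sum_int (k : Jx F → ℤ) : IsIntegral ℤ (∑ j, ((k j : ℤ) : F) * eb F j) := by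
  refine IsIntegral.sum _ fun j _ => ?_
  refine IsIntegral.mul ?_ (eb_int j)
  have := isIntegral_algebraMap (R := ℤ) (A := F) (x := k j)
  simpa using this

private theorem cast_eq (N : ℕ) (m : ℤ) :
    ∃ k : ℤ, m = ((m : ZMod (N ^ 2)).cast : ℤ) + (N : ℤ) ^ 2 * k := by
  have h : (((((m : ZMod (N ^ 2)).cast : ℤ)) : ℤ) : ZMod (N ^ 2)) = (m : ZMod (N ^ 2)) := by
    simp
  have h2 : ((N ^ 2 : ℕ) : ℤ) ∣ m - ((m : ZMod (N ^ 2)).cast : ℤ) :=
    (ZMod.intCast_eq_intCast_iff_dvd_sub _ _ _).1 h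
  obtain ⟨k, hk⟩ := h2
  refine ⟨k, ?_⟩
  push_cast at hk
  linarith

theorem pPhz : S_Phz := by
  intro F _ _ N hN φ hφ m
  choose k hk using fun p : Ix F => cast_eq N (m p)
  have hN' : (N : F) ≠ 0 := by exact_mod_cast hN.ne'
  have h := hφ.2 (xm N fun p => (((m p : ZMod (N ^ 2)).cast : ℤ)))
    (fun i => ∑ j, ((k (i, j) : ℤ) : F) * eb F j) (fun i => sum_int fun j => k (i, j))
  unfold phZ
  rw [← h]
  congr 1
  funext i
  unfold xm
  have e : ∀ j, ((m (i, j) : ℤ) : F) * eb F j
      = ((((m (i, j) : ZMod (N ^ 2)).cast : ℤ)) : F) * eb F j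
        + (N : F) ^ 2 * (((k (i, j) : ℤ) : F) * eb F j) := by
    intro j
    have := congrArg (fun z : ℤ => (z : F)) (hk (i, j))
    simp only [Int.cast_add, Int.cast_mul, Int.cast_pow, Int.cast_natCast] at this
    rw [this]
    ring
  rw [Finset.sum_congr rfl fun j _ => e j, Finset.sum_add_distrib, ← Finset.mul_sum]
  field_simp

end CMT.B
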