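import Pool.Agent.Lib.CMT.B.IfaceB

/-!
# PROJECT CMT, part B, module Rei: reindexing a sum over the lattice
-/

set_option autoImplicit false

open scoped BigOperators ComplexConjugate
open Matrix NumberField

noncomputable section

namespace CMT.B

namespace Rei_aux

variable {F : Type} [Field F] [NumberField F]

private lemma xm_mul {N : ℕ} (hN : 0 < N) (m : Ix F → ℤ) (i : Fin 3) :
    (N : F) * xm N m i = ∑ j, ((m (i, j) : ℤ) : ℚ) • eb F j := by
  have h0 : (N : F) ≠ 0 := by exact_mod_cast hN.ne'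
  unfold xm
  rw [← mul_assoc, mul_inv_cancel₀ h0, one_mul]
  refine Finset.sum_congr rfl fun j _ => ?_
  rw [Rat.smul_def, Rat.cast_intCast]

private lemma inj {N : ℕ} (hN : 0 < N) :
    Function.Injective (xm N : (Ix F → ℤ) → (Fin 3 → F)) := by
  intro m m' h
  funext ⟨i, j⟩
  have h1 : ∑ j, ((m (i, j) : ℤ) : ℚ) • eb F j = ∑ j, ((m' (i, j) : ℤ) : ℚ) • eb F j := by
    rw [← xm_mul hN, ← xm_mul hN, h]
  have h2 := congrArg (fun x => (eb F).repr x j) h1
  simp only [Module.Basis.repr_sum_self] at h2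
  exact_mod_cast h2

private lemma surj {N : ℕ} (hN : 0 < N) (x : Fin 3 → F)
    (hx : ∀ i, IsIntegral ℤ ((N : F) * x i)) : ∃ m : Ix F → ℤ, xm N m = x := by
  have h0 : (N : F) ≠ 0 := by exact_mod_cast hN.ne'
  refine ⟨fun p => (RingOfIntegers.basis F).repr ⟨(N : F) * x p.1, hx p.1⟩ p.2, ?_⟩
  funext i
  apply mul_left_cancel₀ h0
  rw [xm_mul hN]
  have h1 := (RingOfIntegers.basis F).sum_repr ⟨(N : F) * x i, hx i⟩
  have h2 := congrArg (algebraMap (𝓞 F) F) h1
  rw [map_sum] at h2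
  have h3 : algebraMap (𝓞 F) F ⟨(N : F) * x i, hx i⟩ = (N : F) * x i := rfl
  rw [h3] at h2
  rw [← h2]
  refine Finset.sum_congr rfl fun j _ => ?_
  rw [zsmul_eq_mul, map_mul, map_intCast, Rat.smul_def, Rat.cast_intCast]
  congr 1
  exact integralBasis_apply F j

end Rei_aux

open Rei_aux in
theorem pRei : S_Rei := by
  intro F _ _ N hN
  refine ⟨inj hN, surj hN, fun f hf => ?_⟩
  refine ((inj hN).tsum_eq fun x hx => ?_).symm
  obtain ⟨m, hm⟩ := surj hN x (hf x hx)
  exact ⟨m, hm⟩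

end CMT.B
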