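import Pool.Agent.Lib.CMT.B.IfaceB

/-! # PROJECT CMT, part B: the relation between `Z(z)` and `Z(g z)` (`S_Rel`) -/

set_option autoImplicit false

open scoped BigOperators
open Matrix NumberField

noncomputable section

namespace CMT.B

namespace RelAux

variable {ι : Type*} [Fintype ι] [DecidableEq ι]

theorem ext_rat {P Q : Matrix ι ι ℂ}
    (h : ∀ X : ι → ℚ, P *ᵥ (fun p => ((X p : ℚ) : ℂ)) = Q *ᵥ (fun p => ((X p : ℚ) : ℂ))) :
    P = Q := by
  ext i j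
  have h1 := congrFun (h (Pi.single j 1)) i
  have h2 : (fun p => (((Pi.single j 1 : ι → ℚ) p : ℚ) : ℂ)) = Pi.single j 1 := by
    funext p
    by_cases hp : p = j
    · subst hp; simp
    · simp [hp]
  rw [h2] at h1
  simpa using h1

theorem cast_mulVec (P : Matrix ι ι ℤ) (X : ι → ℚ) :
    (fun p => (((P.map (Int.cast : ℤ → ℚ) *ᵥ X) p : ℚ) : ℂ))
      = P.map (Int.cast : ℤ → ℂ) *ᵥ fun p => ((X p : ℚ) : ℂ) := by
  funext p
  simp only [Matrix.mulVec, dotProduct, Matrix.map_apply]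
  push_cast
  rfl

end RelAux

open RelAux

theorem pRel (hLoc : S_Loc) (hDet : S_Det) (hEX : S_EX) (hEw : S_Ew) (hcXY : S_cXY)
    (hLat : S_Lat) : S_Rel := by
  intro F _ _ _ D a ha M hM
  have ha0 : a ≠ 0 := by
    rintro rfl
    simp at ha
  obtain ⟨n, hn, hg'⟩ := hLat F D a ha0 M hM
  refine ⟨n, hn, fun g hg => ?_⟩
  obtain ⟨al, be, ga, de, hsp, hG, hrel⟩ := hg' g hg
  refine ⟨al, be, ga, de, hsp, hG, fun z hz => ?_⟩
  obtain ⟨NN, hNN, hdet⟩ := hEw F (NNt D a g z)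
  obtain ⟨hXs, hYs⟩ := hcXY F D a ha0
  have main : ∀ x y : Fin 3 → F,
      ZZ D a (CMT.act D g z) *ᵥ (al.map (Int.cast : ℤ → ℂ) *ᵥ (fun p => ((cX x p : ℚ) : ℂ))
          + be.map (Int.cast : ℤ → ℂ) *ᵥ (fun p => ((cY D a y p : ℚ) : ℂ)))
        + (ga.map (Int.cast : ℤ → ℂ) *ᵥ (fun p => ((cX x p : ℚ) : ℂ))
          + de.map (Int.cast : ℤ → ℂ) *ᵥ (fun p => ((cY D a y p : ℚ) : ℂ)))
      = NN *ᵥ (ZZ D a z *ᵥ (fun p => ((cX x p : ℚ) : ℂ)) + fun p => ((cY D a y p : ℚ) : ℂ)) := by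
    intro x y
    have e1 := hEX F D a (CMT.act D g z) (gx D g x y) (gy D g x y)
    have e2 := hEX F D a z x y
    have e3 : (fun t => NNt D a g z t *ᵥ Wt D a z x y t)
        = Wt D a (CMT.act D g z) (gx D g x y) (gy D g x y) := by
      funext t
      exact (hLoc F D a ha g hg.1 z hz x y t).symm
    have e4 := hNN (Wt D a z x y)
    rw [e3, ← e1, ← e2] at e4
    have e5 : (fun q => ((cX (gx D g x y) q : ℚ) : ℂ))
        = al.map (Int.cast : ℤ → ℂ) *ᵥ (fun p => ((cX x p : ℚ) : ℂ))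
          + be.map (Int.cast : ℤ → ℂ) *ᵥ (fun p => ((cY D a y p : ℚ) : ℂ)) := by
      rw [(hrel x y).1, ← cast_mulVec, ← cast_mulVec]
      funext p
      simp
    have e6 : (fun q => ((cY D a (gy D g x y) q : ℚ) : ℂ))
        = ga.map (Int.cast : ℤ → ℂ) *ᵥ (fun p => ((cX x p : ℚ) : ℂ))
          + de.map (Int.cast : ℤ → ℂ) *ᵥ (fun p => ((cY D a y p : ℚ) : ℂ)) := by
      rw [(hrel x y).2, ← cast_mulVec, ← cast_mulVec]
      funext p
      simp
    have e7 : (fun p => (Zb (Zt D a z) *ᵥ fun q => ((cX x q : ℚ) : ℂ)) p + ((cY D a y p : ℚ) : ℂ))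
        = ZZ D a z *ᵥ (fun p => ((cX x p : ℚ) : ℂ)) + fun p => ((cY D a y p : ℚ) : ℂ) := rfl
    have e8 : (fun p => (Zb (Zt D a (CMT.act D g z)) *ᵥ fun q => ((cX (gx D g x y) q : ℚ) : ℂ)) p
          + ((cY D a (gy D g x y) p : ℚ) : ℂ))
        = ZZ D a (CMT.act D g z) *ᵥ (fun p => ((cX (gx D g x y) p : ℚ) : ℂ))
          + fun p => ((cY D a (gy D g x y) p : ℚ) : ℂ) := rfl
    rw [e7, e8, e5, e6] at e4
    exact e4.symm
  have hX0 : (fun p => ((cX (0 : Fin 3 → F) p : ℚ) : ℂ)) = 0 := by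
    funext p
    simp [cX]
  have hY0 : (fun p => ((cY D a (0 : Fin 3 → F) p : ℚ) : ℂ)) = 0 := by
    funext p
    simp [cY]
  have r1 : ZZ D a (CMT.act D g z) * be.map (Int.cast : ℤ → ℂ) + de.map (Int.cast : ℤ → ℂ)
      = NN := by
    apply ext_rat
    intro Y
    obtain ⟨y, rfl⟩ := hYs Y
    have := main 0 y
    rw [hX0, Matrix.mulVec_zero, Matrix.mulVec_zero, Matrix.mulVec_zero, zero_add, zero_add,
      zero_add, Matrix.mulVec_mulVec, ← Matrix.add_mulVec] at this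
    exact this
  have r2 : ZZ D a (CMT.act D g z) * al.map (Int.cast : ℤ → ℂ) + ga.map (Int.cast : ℤ → ℂ)
      = NN * ZZ D a z := by
    apply ext_rat
    intro X
    obtain ⟨x, rfl⟩ := hXs X
    have := main x 0
    rw [hY0, Matrix.mulVec_zero, Matrix.mulVec_zero, add_zero, add_zero,
      add_zero, Matrix.mulVec_mulVec, ← Matrix.add_mulVec, Matrix.mulVec_mulVec] at this
    exact this
  refine ⟨NN, r1, r2, ?_, hNN⟩
  rw [hdet]
  exact hDet F D a ha g hg.1 z hz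

end CMT.B
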