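import Pool.Agent.Lib.CMT.B.IfaceB

/-!
# PROJECT CMT, part B: root of unity times holomorphic
-/

set_option autoImplicit false

open scoped BigOperators ComplexConjugate Topology
open Matrix NumberField Filter

noncomputable section

namespace CMT.B

private theorem Root_finite {k : ℕ} (hk : 0 < k) : {c : ℂ | c ^ k = 1}.Finite := by
  refine ((Polynomial.nthRoots k (1 : ℂ)).toFinset.finite_toSet).subset fun c hc => ?_
  rw [Finset.mem_coe, Multiset.mem_toFinset, Polynomial.mem_nthRoots hk]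
  exact hc

theorem pRoot : S_Root := by
  intro U hU hpre f g k hk hf hg h i₀ τ₀ c₀ hτ₀ hne hc₀ hval
  have hUn : U ∈ 𝓝 τ₀ := hU.mem_nhds hτ₀
  have cf : ContinuousAt (f i₀) τ₀ := (hf i₀).continuousOn.continuousAt hUn
  have cg : ContinuousAt (g i₀) τ₀ := (hg i₀).continuousOn.continuousAt hUn
  have cq : ContinuousAt (fun τ => g i₀ τ / f i₀ τ) τ₀ := cg.div cf hne
  have hq : g i₀ τ₀ / f i₀ τ₀ = c₀ := by
    rw [hval i₀, mul_div_assoc, div_self hne, mul_one]
  have hfin : ({c : ℂ | c ^ k = 1} \ {c₀}).Finite := (Root_finite hk).subset Set.sdiff_subset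
  have hn : ({c : ℂ | c ^ k = 1} \ {c₀})ᶜ ∈ 𝓝 (g i₀ τ₀ / f i₀ τ₀) := by
    rw [hq]
    exact hfin.isClosed.isOpen_compl.mem_nhds fun hc => hc.2 rfl
  have key : ∀ᶠ τ in 𝓝 τ₀, ∀ i, g i τ = c₀ * f i τ := by
    filter_upwards [hUn, cf.eventually_ne hne, cq hn] with τ hτ hfτ hqτ i
    obtain ⟨c, hc, hi⟩ := h τ hτ
    have h1 : g i₀ τ / f i₀ τ = c := by
      rw [hi i₀, mul_div_assoc, div_self hfτ, mul_one]
    have h2 : c = c₀ := by
      by_contra hcc
      exact hqτ ⟨by show (g i₀ τ / f i₀ τ) ^ k = 1; rw [h1]; exact hc, by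
        show g i₀ τ / f i₀ τ = c₀ → False
        rw [h1]
        exact hcc⟩
    rw [hi i, h2]
  intro τ hτ i
  have af : AnalyticOnNhd ℂ (fun τ => c₀ * f i τ) U := ((hf i).const_mul c₀).analyticOnNhd hU
  have ag : AnalyticOnNhd ℂ (g i) U := (hg i).analyticOnNhd hU
  exact ag.eqOn_of_preconnected_of_eventuallyEq af hpre hτ₀ (key.mono fun τ hτ => hτ i) hτ

end CMT.B
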