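import Pool.Agent.Lib.CMT.B.IfaceB

/-!
# PROJECT CMT, part B: the trace is the sum over the real embeddings
-/

set_option autoImplicit false

open scoped BigOperators ComplexConjugate
open Matrix NumberField

noncomputable section

namespace CMT.B

/-- A real embedding as a complex one, a homomorphism of algebras over the rationals. -/
private def TrS_emb (F : Type) [Field F] [NumberField F] (t : F →+* ℝ) : F →ₐ[ℚ] ℂ :=
  (Complex.ofRealHom.comp t : F →+* ℂ).toRatAlgHom

private theorem TrS_emb_apply {F : Type} [Field F] [NumberField F] (t : F →+* ℝ) (x : F) :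
    TrS_emb F t x = ((t x : ℝ) : ℂ) := rfl

private theorem TrS_bij (F : Type) [Field F] [NumberField F] [IsTotallyReal F] :
    Function.Bijective (TrS_emb F) := by
  constructor
  · intro s t hst
    ext x
    have h := DFunLike.congr_fun hst x
    rw [TrS_emb_apply, TrS_emb_apply] at h
    exact Complex.ofReal_injective h
  · intro σ
    have hr : ComplexEmbedding.IsReal (σ : F →+* ℂ) := IsTotallyReal.complexEmbedding_isReal _
    refine ⟨hr.embedding, ?_⟩
    refine AlgHom.ext fun x => ?_
    rw [TrS_emb_apply]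
    exact ComplexEmbedding.IsReal.coe_embedding_apply hr x

theorem pTr : S_Tr := by
  intro F _ _ _ x
  have h1 : algebraMap ℚ ℂ (Algebra.trace ℚ F x) = ∑ σ : F →ₐ[ℚ] ℂ, σ x :=
    trace_eq_sum_embeddings ℂ
  have h2 : (∑ t : F →+* ℝ, ((t x : ℝ) : ℂ)) = ∑ σ : F →ₐ[ℚ] ℂ, σ x :=
    Fintype.sum_bijective (TrS_emb F) (TrS_bij F) _ _ fun t => (TrS_emb_apply t x).symm
  have h3 : ((((Algebra.trace ℚ F x : ℚ) : ℝ)) : ℂ) = ((∑ t : F →+* ℝ, t x : ℝ) : ℂ) := by
    rw [Complex.ofReal_sum, h2, ← h1, eq_ratCast, Complex.ofReal_ratCast]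
  exact Complex.ofReal_injective h3

end CMT.B
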