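import Pool.Agent.Lib.CMT.B.InvOne
import Pool.Agent.Lib.CMT.B.IThree
import Pool.Agent.Lib.CMT.B.Rel
import Pool.Agent.Lib.CMT.B.Lat
import Pool.Agent.Lib.CMT.B.Loc
import Pool.Agent.Lib.CMT.B.TrS
import Pool.Agent.Lib.CMT.B.EXs
import Pool.Agent.Lib.CMT.B.Card
import Pool.Agent.Lib.CMT.B.EwS
import Pool.Agent.Lib.CMT.B.CXY
import Pool.Agent.Lib.CMT.B.Hz
import Pool.Agent.Lib.CMT.B.Rei
import Pool.Agent.Lib.CMT.B.Phz
import Pool.Agent.Lib.CMT.B.ExpS
import Pool.Agent.Lib.CMT.B.DerTh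
import Pool.Agent.Lib.CMT.B.DerS
import Pool.Agent.Lib.CMT.B.Root
import Pool.Agent.Lib.CMT.A.A3F
import Pool.Agent.Lib.CMT.D.IdxG

/-! # PROJECT CMT: the interface `S_Inv1` is proved -/

set_option autoImplicit false

namespace CMT.B

/-- The relation between `Z(z)` and `Z(gz)`. -/
theorem thmRel : S_Rel := pRel pLoc pDet (pEX pTr) (pEw pCard) pcXY (pLat pcXY)

/-- The theta forms are multiplied by roots of unity. -/
theorem thmI3 : S_I3 :=
  pI3 thmRel (pDer pRei pPhz pExp pDerTh (pHz pCard)) Pool.Agent.CMT.A.tA3 (pHz pCard) CMT.pSumOm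

/-- Every theta form is invariant under an arithmetic group. -/
theorem thmInv1 : CMT.S_Inv1 := pInv1 thmI3 pRoot CMT.thmIdx

end CMT.B
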